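import Mathlib

set_option autoImplicit false

open MeasureTheory Filter Topology Real Complex InnerProductSpace Laplacian
open scoped ContDiff

namespace Pool.Agent.Work.MP_bed24d_an

/-- the second derivative as a bilinear map -/
noncomputable def D2 (φ : ℂ → ℝ) (x : ℂ) : ℂ →L[ℝ] ℂ →L[ℝ] ℝ := fderiv ℝ (fderiv ℝ φ) x

lemma lap_eq (φ : ℂ → ℝ) (x : ℂ) :
    (Δ φ) x = D2 φ x 1 1 + D2 φ x Complex.I Complex.I := by
  rw [laplacian_eq_iteratedFDeriv_complexPlane]
  simp [iteratedFDeriv_two_apply, D2]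

/-- second order Taylor estimate along rays -/
lemma taylor_ray (φ : ℂ → ℝ) (hφ : ContDiff ℝ 2 φ) (x e : ℂ) (he : ‖e‖ ≤ 1) (r ε : ℝ) (hr : 0 ≤ r)
    (hε : ∀ t ∈ Set.Icc 0 r, ‖D2 φ (x + t • e) - D2 φ x‖ ≤ ε) :
    |φ (x + r • e) - φ x - r * fderiv ℝ φ x e - r ^ 2 / 2 * D2 φ x e e| ≤ ε * r ^ 2 := by
  have hd1 : Differentiable ℝ φ := hφ.differentiable (by norm_num)
  have hd2 : Differentiable ℝ (fderiv ℝ φ) :=
    (hφ.fderiv_right (m := 1) (by norm_num)).differentiable (by norm_num)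
  have hline : ∀ t : ℝ, HasDerivAt (fun t : ℝ => x + t • e) e t := by
    intro t
    simpa using ((hasDerivAt_id t).smul_const e).const_add x
  have hh : ∀ t : ℝ, HasDerivAt (fun t : ℝ => φ (x + t • e)) (fderiv ℝ φ (x + t • e) e) t := by
    intro t
    exact (hd1 (x + t • e)).hasFDerivAt.comp_hasDerivAt t (hline t)
  have hg : ∀ t : ℝ, HasDerivAt (fun t : ℝ => fderiv ℝ φ (x + t • e) e)
      (D2 φ (x + t • e) e e) t := by
    intro t
    have h1 := (hd2 (x + t • e)).hasFDerivAt.comp_hasDerivAt t (hline t)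
    exact h1.clm_apply (hasDerivAt_const t e) |>.congr_deriv (by simp [D2])
  -- first estimate
  have hk : ∀ t ∈ Set.Icc 0 r,
      |fderiv ℝ φ (x + t • e) e - fderiv ℝ φ x e - t * D2 φ x e e| ≤ ε * r := by
    intro t ht
    have hder : ∀ s ∈ Set.Icc 0 r, HasDerivWithinAt
        (fun s : ℝ => fderiv ℝ φ (x + s • e) e - fderiv ℝ φ x e - s * D2 φ x e e)
        (D2 φ (x + s • e) e e - D2 φ x e e) (Set.Icc 0 r) s := by
      intro s _
      have := ((hg s).sub_const (fderiv ℝ φ x e)).sub ((hasDerivAt_id s).mul_const (D2 φ x e e))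
      exact (this.congr_deriv (by simp)).hasDerivWithinAt
    have hb : ∀ s ∈ Set.Icc 0 r, ‖D2 φ (x + s • e) e e - D2 φ x e e‖ ≤ ε := by
      intro s hs
      have h1 : D2 φ (x + s • e) e e - D2 φ x e e = (D2 φ (x + s • e) - D2 φ x) e e := by simp
      rw [h1]
      calc ‖(D2 φ (x + s • e) - D2 φ x) e e‖ ≤ ‖(D2 φ (x + s • e) - D2 φ x) e‖ * ‖e‖ :=
            ContinuousLinearMap.le_opNorm _ _
        _ ≤ (‖D2 φ (x + s • e) - D2 φ x‖ * ‖e‖) * ‖e‖ := by
            gcongr
            exact ContinuousLinearMap.le_opNorm _ _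
        _ ≤ (ε * 1) * 1 := by
            have := hε s hs
            have h0 : 0 ≤ ε := (norm_nonneg (D2 φ (x + s • e) - D2 φ x)).trans this
            gcongr
        _ = ε := by ring
    have h2 := (convex_Icc (0:ℝ) r).norm_image_sub_le_of_norm_hasDerivWithin_le hder hb
      (Set.left_mem_Icc.2 hr) ht
    have hε0 : 0 ≤ ε := (norm_nonneg (D2 φ (x + (0:ℝ) • e) - D2 φ x)).trans
      (hε 0 (Set.left_mem_Icc.2 hr))
    simp only [zero_smul, add_zero, sub_self, zero_mul, sub_zero, Real.norm_eq_abs] at h2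
    calc _ ≤ ε * |t| := h2
      _ ≤ ε * r := by
        rw [abs_of_nonneg ht.1]
        exact mul_le_mul_of_nonneg_left ht.2 hε0
  have hder2 : ∀ s ∈ Set.Icc 0 r, HasDerivWithinAt
      (fun s : ℝ => φ (x + s • e) - φ x - s * fderiv ℝ φ x e - s ^ 2 / 2 * D2 φ x e e)
      (fderiv ℝ φ (x + s • e) e - fderiv ℝ φ x e - s * D2 φ x e e) (Set.Icc 0 r) s := by
    intro s _
    have h1 := (((hh s).sub_const (φ x)).sub
      ((hasDerivAt_id s).mul_const (fderiv ℝ φ x e))).sub
      ((((hasDerivAt_id s).pow 2).div_const 2).mul_const (D2 φ x e e))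
    refine (h1.congr_deriv ?_).hasDerivWithinAt
    simp
  have h3 := (convex_Icc (0:ℝ) r).norm_image_sub_le_of_norm_hasDerivWithin_le hder2
    (fun s hs => by rw [Real.norm_eq_abs]; exact hk s hs)
    (Set.left_mem_Icc.2 hr) (Set.right_mem_Icc.2 hr)
  simp only [zero_smul, add_zero, sub_self, zero_mul, sub_zero, Real.norm_eq_abs] at h3
  calc _ = |φ (x + r • e) - φ x - r * fderiv ℝ φ x e - r ^ 2 / 2 * D2 φ x e e -
        (0 - 0 ^ 2 / 2 * D2 φ x e e)| := by congr 1; ring
    _ ≤ ε * r * |r| := by simpa using h3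
    _ = ε * r ^ 2 := by rw [abs_of_nonneg hr]; ring


lemma circleMap_eq (x : ℂ) (r θ : ℝ) :
    circleMap x r θ = x + r • ((Real.cos θ : ℂ) + (Real.sin θ : ℂ) * Complex.I) := by
  rw [circleMap, Complex.exp_mul_I, Complex.real_smul]
  simp

lemma norm_cis (θ : ℝ) : ‖((Real.cos θ : ℂ) + (Real.sin θ : ℂ) * Complex.I)‖ = 1 := by
  rw [Complex.ofReal_cos, Complex.ofReal_sin, ← Complex.exp_mul_I, Complex.norm_exp_ofReal_mul_I]

/-- the normalised circle average difference converges uniformly to the Laplacian -/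
lemma circleAverage_taylor (φ : ℂ → ℝ) (hφ : ContDiff ℝ 2 φ) (x : ℂ) (r ε : ℝ) (hr : 0 < r)
    (hε : ∀ y, ‖y - x‖ ≤ r → ‖D2 φ y - D2 φ x‖ ≤ ε) :
    |4 / r ^ 2 * (circleAverage φ x r - φ x) - (Δ φ) x| ≤ 4 * ε := by
  set L := fderiv ℝ φ x with hL
  set B := D2 φ x with hB
  have hcont : Continuous φ := hφ.continuous
  let c : ℝ → ℂ := fun θ => ((Real.cos θ : ℂ) + (Real.sin θ : ℂ) * Complex.I)
  have hc : Continuous c := by fun_prop
  have hcs : ∀ θ, c θ = Real.cos θ • (1:ℂ) + Real.sin θ • Complex.I := by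
    intro θ
    simp [c]
  have hLc : ∀ θ, L (c θ) = Real.cos θ * L 1 + Real.sin θ * L Complex.I := by
    intro θ
    rw [hcs, map_add, map_smul, map_smul]
    simp
  have hBc : ∀ θ, B (c θ) (c θ) = Real.cos θ ^ 2 * B 1 1 + Real.sin θ * Real.cos θ *
      (B 1 Complex.I + B Complex.I 1) + Real.sin θ ^ 2 * B Complex.I Complex.I := by
    intro θ
    rw [hcs]
    simp only [map_add, map_smul, add_apply, smul_apply, smul_eq_mul]
    ring
  have hptw : ∀ θ, |φ (circleMap x r θ) - φ x - r * L (c θ) - r ^ 2 / 2 * B (c θ) (c θ)|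
      ≤ ε * r ^ 2 := by
    intro θ
    rw [circleMap_eq]
    apply taylor_ray φ hφ x (c θ) (norm_cis θ).le r ε hr.le
    intro t ht
    apply hε
    rw [add_sub_cancel_left, norm_smul, norm_cis, mul_one, Real.norm_eq_abs, abs_of_nonneg ht.1]
    exact ht.2
  have hIc : IntervalIntegrable (fun θ => φ (circleMap x r θ)) volume 0 (2 * π) :=
    (hcont.comp (continuous_circleMap x r)).intervalIntegrable _ _
  have hIL : IntervalIntegrable (fun θ => L (c θ)) volume 0 (2 * π) :=
    (L.continuous.comp hc).intervalIntegrable _ _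
  have hBcont : Continuous (fun θ => B (c θ) (c θ)) := by fun_prop
  have hIB : IntervalIntegrable (fun θ => B (c θ) (c θ)) volume 0 (2 * π) :=
    hBcont.intervalIntegrable _ _
  have hint1 : ∫ θ in (0:ℝ)..(2 * π), L (c θ) = 0 := by
    simp_rw [hLc]
    rw [intervalIntegral.integral_add, intervalIntegral.integral_mul_const,
      intervalIntegral.integral_mul_const, integral_cos, integral_sin]
    · simp
    · exact (Real.continuous_cos.mul continuous_const).intervalIntegrable _ _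
    · exact (Real.continuous_sin.mul continuous_const).intervalIntegrable _ _
  have hint2 : ∫ θ in (0:ℝ)..(2 * π), B (c θ) (c θ) = π * (Δ φ) x := by
    simp_rw [hBc]
    rw [intervalIntegral.integral_add, intervalIntegral.integral_add,
      intervalIntegral.integral_mul_const, intervalIntegral.integral_mul_const,
      intervalIntegral.integral_mul_const, integral_cos_sq, integral_sin_sq,
      integral_sin_mul_cos₁, lap_eq]
    · simp
      ring
    all_goals apply Continuous.intervalIntegrable; fun_prop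
  have hint3 : circleAverage φ x r - φ x - r ^ 2 / 4 * (Δ φ) x = (2 * π)⁻¹ *
      ∫ θ in (0:ℝ)..(2 * π), (φ (circleMap x r θ) - φ x - r * L (c θ) -
        r ^ 2 / 2 * B (c θ) (c θ)) := by
    rw [intervalIntegral.integral_sub, intervalIntegral.integral_sub, intervalIntegral.integral_sub,
      intervalIntegral.integral_const_mul, intervalIntegral.integral_const_mul, hint1, hint2,
      circleAverage_def]
    · simp only [smul_eq_mul, intervalIntegral.integral_const, sub_zero, mul_zero]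
      have := Real.pi_pos.ne'
      field_simp
      ring
    · exact hIc
    · exact intervalIntegrable_const
    · exact hIc.sub intervalIntegrable_const
    · exact hIL.const_mul _
    · exact (hIc.sub intervalIntegrable_const).sub (hIL.const_mul _)
    · exact hIB.const_mul _
  have hbound : |∫ θ in (0:ℝ)..(2 * π), (φ (circleMap x r θ) - φ x - r * L (c θ) -
        r ^ 2 / 2 * B (c θ) (c θ))| ≤ ε * r ^ 2 * (2 * π) := by
    have h := intervalIntegral.norm_integral_le_of_norm_le_const (a := (0:ℝ)) (b := 2 * π)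
      (C := ε * r ^ 2) (f := fun θ => (φ (circleMap x r θ) - φ x - r * L (c θ) -
        r ^ 2 / 2 * B (c θ) (c θ))) (fun θ _ => by rw [Real.norm_eq_abs]; exact hptw θ)
    rw [Real.norm_eq_abs, sub_zero, abs_of_pos Real.two_pi_pos] at h
    exact h
  have hr2 : (0:ℝ) < r ^ 2 := by positivity
  have heq : 4 / r ^ 2 * (circleAverage φ x r - φ x) - (Δ φ) x =
      4 / r ^ 2 * (circleAverage φ x r - φ x - r ^ 2 / 4 * (Δ φ) x) := by
    field_simp
  rw [heq, hint3, abs_mul, abs_mul, abs_of_pos (by positivity : (0:ℝ) < 4 / r ^ 2),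
    abs_of_pos (by positivity : (0:ℝ) < (2 * π)⁻¹)]
  calc 4 / r ^ 2 * ((2 * π)⁻¹ * _) ≤ 4 / r ^ 2 * ((2 * π)⁻¹ * (ε * r ^ 2 * (2 * π))) := by
        gcongr
    _ = 4 * ε := by
        have := Real.pi_pos.ne'
        field_simp

/-- uniform convergence on the whole plane for compactly supported functions -/
lemma circleAverage_lap (φ : ℂ → ℝ) (hφ : ContDiff ℝ 2 φ) (hc : HasCompactSupport φ) (ε : ℝ)
    (hε : 0 < ε) : ∃ δ > 0, ∀ r, 0 < r → r < δ → ∀ x,
      |4 / r ^ 2 * (circleAverage φ x r - φ x) - (Δ φ) x| ≤ ε := by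
  have h2 : Continuous (D2 φ) := by
    have h1 : ContDiff ℝ 1 (fderiv ℝ φ) := hφ.fderiv_right (m := 1) (by norm_num)
    exact h1.continuous_fderiv (by norm_num)
  have hc2 : HasCompactSupport (D2 φ) := (hc.fderiv ℝ).fderiv ℝ
  have huc : UniformContinuous (D2 φ) := hc2.uniformContinuous_of_continuous h2
  obtain ⟨δ, hδ, h⟩ := (Metric.uniformContinuous_iff (α := ℂ)
    (β := ℂ →L[ℝ] ℂ →L[ℝ] ℝ)).1 huc (ε / 4) (by positivity)
  refine ⟨δ, hδ, fun r hr hrδ x => ?_⟩
  have := circleAverage_taylor φ hφ x r (ε / 4) hr (fun y hy => by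
    have h1 := h (a := y) (b := x) (by rw [dist_eq_norm]; exact lt_of_le_of_lt hy hrδ)
    exact (dist_eq_norm (D2 φ y) (D2 φ x)).symm.le.trans h1.le)
  linarith

end Pool.Agent.Work.MP_bed24d_an
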