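import Mathlib
import Pool.Agent.Work.MP_bed24d_an.A1

set_option autoImplicit false

open MeasureTheory Filter Topology Real Complex InnerProductSpace Laplacian
open scoped ContDiff

namespace Pool.Agent.Work.MP_bed24d_an

/-- circle average as an integral over the interval with the restricted measure -/
lemma circleAverage_eq_integral (u : ℂ → ℝ) (x : ℂ) (r : ℝ) :
    circleAverage u x r = (2 * π)⁻¹ * ∫ θ in Set.Ioc 0 (2 * π), u (x + circleMap 0 r θ) := by
  rw [circleAverage_def, intervalIntegral.integral_of_le Real.two_pi_pos.le, smul_eq_mul]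
  simp [circleMap]

lemma circleMap_neg_zero (r θ : ℝ) : circleMap 0 (-r) θ = - circleMap 0 r θ := by
  simp [circleMap]

lemma integrable_shift (u : ℂ → ℝ) (hu : Measurable u) (hli : LocallyIntegrable u volume)
    (φ : ℂ → ℝ) (hφ : Continuous φ) (hc : HasCompactSupport φ) (r : ℝ) :
    Integrable (fun p : ℝ × ℂ => u p.2 * φ (p.2 + circleMap 0 r p.1))
      ((volume.restrict (Set.Ioc 0 (2 * π))).prod volume) := by
  obtain ⟨C, hC⟩ := hφ.bounded_above_of_compact_support hc
  set K : Set ℂ := Metric.cthickening |r| (tsupport φ) with hK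
  have hKc : IsCompact K := hc.isCompact.cthickening
  have huK : Integrable (Set.indicator K u) volume :=
    (hli.integrableOn_isCompact hKc).integrable_indicator hKc.measurableSet
  have h1 : Integrable (fun p : ℝ × ℂ => C * ‖Set.indicator K u p.2‖)
      ((volume.restrict (Set.Ioc 0 (2 * π))).prod volume) :=
    (huK.norm.comp_snd (volume.restrict (Set.Ioc 0 (2 * π)))).const_mul C
  have hmeas : Measurable (fun p : ℝ × ℂ => u p.2 * φ (p.2 + circleMap 0 r p.1)) := by
    apply (hu.comp measurable_snd).mul
    apply hφ.measurable.comp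
    apply Measurable.add measurable_snd
    exact (continuous_circleMap 0 r).measurable.comp measurable_fst
  refine h1.mono hmeas.aestronglyMeasurable (Eventually.of_forall fun p => ?_)
  have hC0 : 0 ≤ C := (norm_nonneg _).trans (hC 0)
  by_cases hp : p.2 ∈ K
  · rw [Set.indicator_of_mem hp, norm_mul, norm_mul, norm_norm, mul_comm]
    rw [Real.norm_of_nonneg hC0]
    gcongr
    exact hC _
  · have : φ (p.2 + circleMap 0 r p.1) = 0 := by
      apply image_eq_zero_of_notMem_tsupport
      intro hmem
      apply hp
      rw [hK]
      apply Metric.mem_cthickening_of_dist_le p.2 _ _ _ hmem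
      rw [dist_eq_norm, sub_add_cancel_left, norm_neg, norm_circleMap_zero]
    rw [this, mul_zero, norm_zero]
    positivity

/-- circle averages are self-adjoint -/
lemma integral_mul_circleAverage (u : ℂ → ℝ) (hu : Measurable u)
    (hli : LocallyIntegrable u volume) (φ : ℂ → ℝ) (hφ : Continuous φ)
    (hc : HasCompactSupport φ) (r : ℝ) :
    Integrable (fun x => u x * circleAverage φ x r) ∧
    Integrable (fun x => circleAverage u x r * φ x) ∧
    ∫ x, u x * circleAverage φ x r = ∫ x, circleAverage u x r * φ x := by
  have hF := integrable_shift u hu hli φ hφ hc r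
  -- shifted version
  have hshift : MeasurePreserving (fun p : ℝ × ℂ => (p.1, p.2 + circleMap 0 r p.1))
      ((volume.restrict (Set.Ioc 0 (2 * π))).prod volume)
      ((volume.restrict (Set.Ioc 0 (2 * π))).prod volume) := by
    apply MeasurePreserving.skew_product (f := id) (g := fun θ x => x + circleMap 0 r θ)
      (MeasurePreserving.id _)
    · apply Measurable.add measurable_snd
      exact (continuous_circleMap 0 r).measurable.comp measurable_fst
    · exact Eventually.of_forall fun θ => (measurePreserving_add_right volume _).map_eq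
  have hG : Integrable (fun p : ℝ × ℂ => u (p.2 - circleMap 0 r p.1) * φ p.2)
      ((volume.restrict (Set.Ioc 0 (2 * π))).prod volume) := by
    have hm : Measurable (fun p : ℝ × ℂ => u (p.2 - circleMap 0 r p.1) * φ p.2) := by
      apply Measurable.mul _ (hφ.measurable.comp measurable_snd)
      apply hu.comp
      apply Measurable.sub measurable_snd
      exact (continuous_circleMap 0 r).measurable.comp measurable_fst
    have h2 := hshift.integrable_comp (g := fun p : ℝ × ℂ => u (p.2 - circleMap 0 r p.1) * φ p.2)
      hm.aestronglyMeasurable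
    apply h2.1
    convert hF using 1
    ext p
    simp
  have e1 : ∀ x, u x * circleAverage φ x r =
      (2 * π)⁻¹ * ∫ θ in Set.Ioc 0 (2 * π), u x * φ (x + circleMap 0 r θ) := by
    intro x
    rw [circleAverage_eq_integral, MeasureTheory.integral_const_mul]
    ring
  have e2 : ∀ x, circleAverage u x r * φ x =
      (2 * π)⁻¹ * ∫ θ in Set.Ioc 0 (2 * π), u (x - circleMap 0 r θ) * φ x := by
    intro x
    rw [← circleAverage_neg_radius, circleAverage_eq_integral, MeasureTheory.integral_mul_const]
    simp_rw [circleMap_neg_zero, ← sub_eq_add_neg]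
    ring
  refine ⟨?_, ?_, ?_⟩
  · simp_rw [e1]
    exact hF.integral_prod_right.const_mul _
  · simp_rw [e2]
    exact hG.integral_prod_right.const_mul _
  · have i1 : ∫ x, u x * circleAverage φ x r = (2 * π)⁻¹ *
        ∫ x, ∫ θ in Set.Ioc 0 (2 * π), u x * φ (x + circleMap 0 r θ) := by
      simp_rw [e1]
      exact MeasureTheory.integral_const_mul _ _
    have i2 : ∫ x, circleAverage u x r * φ x = (2 * π)⁻¹ *
        ∫ x, ∫ θ in Set.Ioc 0 (2 * π), u (x - circleMap 0 r θ) * φ x := by
      simp_rw [e2]
      exact MeasureTheory.integral_const_mul _ _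
    rw [i1, i2]
    congr 1
    rw [← integral_integral_swap (f := fun θ x => u x * φ (x + circleMap 0 r θ)) hF,
      ← integral_integral_swap (f := fun θ x => u (x - circleMap 0 r θ) * φ x) hG]
    congr 1
    ext θ
    have := integral_sub_right_eq_self (μ := (volume : Measure ℂ))
      (fun x => u x * φ (x + circleMap 0 r θ)) (circleMap 0 r θ)
    rw [← this]
    simp

end Pool.Agent.Work.MP_bed24d_an
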