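import Mathlib
import Pool.Agent.Work.MP_bed24d_an.A2

set_option autoImplicit false

open MeasureTheory Filter Topology Real Complex InnerProductSpace Laplacian
open scoped ContDiff ENNReal

namespace Pool.Agent.Work.MP_bed24d_an

/-- Jensen's inequality with a contribution of prescribed zeros -/
lemma jensen_lower (f : ℂ → ℂ) (hf : Differentiable ℂ f) (x : ℂ) (hx : f x ≠ 0) (r : ℝ)
    (hr : 0 < r) (S : Finset ℂ) (hS : ∀ z ∈ S, f z = 0) :
    Real.log 2 * ((S.filter (fun z => ‖x - z‖ ≤ r / 2)).card : ℝ) + Real.log ‖f x‖ ≤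
      circleAverage (fun z => Real.log ‖f z‖) x r := by
  classical
  have han : AnalyticOnNhd ℂ f (Metric.closedBall x |r|) :=
    fun z _ => hf.analyticAt z
  have hj := AnalyticOnNhd.circleAverage_log_norm (R := r) hr.ne' han hx
  rw [hj]
  gcongr
  set D := MeromorphicOn.divisor f (Metric.closedBall x |r|) with hD
  have hDnn : ∀ u, 0 ≤ D u := fun u => MeromorphicOn.AnalyticOnNhd.divisor_nonneg han u
  have hfin : D.support.Finite := D.finiteSupport (isCompact_closedBall x |r|)
  have hDx : D x = 0 := by
    rw [hD, MeromorphicOn.AnalyticOnNhd.divisor_apply han (by simp),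
      (hf.analyticAt x).analyticOrderAt_eq_zero.mpr hx]
    simp
  -- order at the zeros
  have hDz : ∀ z ∈ S, ‖x - z‖ ≤ r / 2 → 1 ≤ D z := by
    intro z hz hxz
    have hzm : z ∈ Metric.closedBall x |r| := by
      rw [Metric.mem_closedBall, dist_comm, dist_eq_norm, abs_of_pos hr]
      linarith
    have hne0 : analyticOrderAt f z ≠ 0 := by
      rw [ne_eq, (hf.analyticAt z).analyticOrderAt_eq_zero, not_not]
      exact hS z hz
    have hnetop : analyticOrderAt f z ≠ ⊤ := by
      intro htop
      rw [analyticOrderAt_eq_top] at htop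
      have hall : AnalyticOnNhd ℂ f Set.univ := fun z _ => hf.analyticAt z
      have := hall.eqOn_zero_of_preconnected_of_eventuallyEq_zero isPreconnected_univ
        (Set.mem_univ z) htop
      exact hx (this (Set.mem_univ x))
    rw [hD, MeromorphicOn.AnalyticOnNhd.divisor_apply han hzm]
    obtain ⟨n, hn⟩ := ENat.ne_top_iff_exists.1 hnetop
    rw [← hn] at hne0 ⊢
    have hn0 : n ≠ 0 := by
      intro h
      apply hne0
      rw [h]
      rfl
    simp only [ENat.map_natCast, WithTop.untop₀_coe]
    have : 1 ≤ n := Nat.one_le_iff_ne_zero.2 hn0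
    exact_mod_cast this
  have hterm : ∀ u, 0 ≤ (D u : ℝ) * Real.log (r * ‖x - u‖⁻¹) := by
    intro u
    by_cases hu : u ∈ Metric.closedBall x |r|
    · by_cases hux : u = x
      · rw [hux, hDx]
        simp
      · apply mul_nonneg (by exact_mod_cast hDnn u)
        apply Real.log_nonneg
        have hpos : 0 < ‖x - u‖ := by
          rw [norm_pos_iff, sub_ne_zero]
          exact fun h => hux h.symm
        rw [Metric.mem_closedBall, dist_comm, dist_eq_norm, abs_of_pos hr] at hu
        rw [← div_eq_mul_inv, le_div_iff₀ hpos, one_mul]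
        exact hu
    · have : D u = 0 := Function.locallyFinsuppWithin.apply_eq_zero_of_notMem D hu
      rw [this]
      simp
  have hterm2 : ∀ z ∈ S.filter (fun z => ‖x - z‖ ≤ r / 2),
      Real.log 2 ≤ (D z : ℝ) * Real.log (r * ‖x - z‖⁻¹) := by
    intro z hz
    rw [Finset.mem_filter] at hz
    have hzx : x ≠ z := by
      intro h
      apply hx
      rw [h]
      exact hS z hz.1
    have hpos : 0 < ‖x - z‖ := by
      rw [norm_pos_iff, sub_ne_zero]
      exact hzx
    have h1 : Real.log 2 ≤ Real.log (r * ‖x - z‖⁻¹) := by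
      apply Real.log_le_log (by norm_num)
      rw [← div_eq_mul_inv, le_div_iff₀ hpos]
      linarith [hz.2]
    have h2 : (1:ℝ) ≤ D z := by exact_mod_cast hDz z hz.1 hz.2
    have h3 : 0 ≤ Real.log (r * ‖x - z‖⁻¹) := le_trans (Real.log_nonneg (by norm_num)) h1
    nlinarith
  have hsup : (Function.support fun u => (D u : ℝ) * Real.log (r * ‖x - u‖⁻¹)) ⊆
      (hfin.toFinset ∪ S.filter (fun z => ‖x - z‖ ≤ r / 2) : Finset ℂ) := by
    intro u hu
    rw [Function.mem_support] at hu
    simp only [Finset.coe_union, Set.mem_union, Finset.mem_coe, Set.Finite.mem_toFinset,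
      Function.mem_support]
    left
    intro h
    apply hu
    rw [h]
    simp
  rw [finsum_eq_sum_of_support_subset _ hsup]
  calc Real.log 2 * ((S.filter (fun z => ‖x - z‖ ≤ r / 2)).card : ℝ)
      = ∑ z ∈ S.filter (fun z => ‖x - z‖ ≤ r / 2), Real.log 2 := by
        rw [Finset.sum_const, nsmul_eq_mul, mul_comm]
    _ ≤ ∑ z ∈ S.filter (fun z => ‖x - z‖ ≤ r / 2), (D z : ℝ) * Real.log (r * ‖x - z‖⁻¹) :=
        Finset.sum_le_sum hterm2
    _ ≤ _ := by
        apply Finset.sum_le_sum_of_subset_of_nonneg Finset.subset_union_right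
        intro i _ _
        exact hterm i


lemma measurable_logn (f : ℂ → ℂ) (hf : Continuous f) : Measurable (fun z => Real.log ‖f z‖) :=
  Real.measurable_log.comp hf.norm.measurable

lemma circ_integrable (f : ℂ → ℂ) (hf : Differentiable ℂ f) (x : ℂ) (r : ℝ) :
    CircleIntegrable (fun z => Real.log ‖f z‖) x r :=
  MeromorphicOn.circleIntegrable_log_norm (fun z _ => (hf.analyticAt z).meromorphicAt)

/-- bound for the integral of `|log ‖f‖|` on circles -/
lemma circ_bound (f : ℂ → ℂ) (hf : Differentiable ℂ f) (z0 : ℂ) (h0 : f z0 ≠ 0) (R M : ℝ)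
    (hM : 1 ≤ M) (hfM : ∀ z ∈ Metric.closedBall z0 R, ‖f z‖ ≤ M) (ρ : ℝ) (hρ : 0 < ρ)
    (hρR : ρ ≤ R) :
    ∫⁻ θ in Set.Ioo (-π) π, ‖Real.log ‖f (circleMap z0 ρ θ)‖‖ₑ ≤
      ENNReal.ofReal (2 * π * (2 * Real.log M - Real.log ‖f z0‖)) := by
  have hper : Function.Periodic (fun θ => Real.log ‖f (circleMap z0 ρ θ)‖) (2 * π) := by
    intro θ
    simp only [periodic_circleMap z0 ρ θ]
  have hci : IntervalIntegrable (fun θ => Real.log ‖f (circleMap z0 ρ θ)‖) volume 0 (2 * π) :=
    circ_integrable f hf z0 ρ
  have hci2 : IntervalIntegrable (fun θ => Real.log ‖f (circleMap z0 ρ θ)‖) volume (-π) π := by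
    have := hper.intervalIntegrable₀ Real.two_pi_pos.ne' hci (-π) π
    exact this
  have hle : (-π) ≤ π := by linarith [Real.pi_pos]
  have hInt : IntegrableOn (fun θ => Real.log ‖f (circleMap z0 ρ θ)‖) (Set.Ioo (-π) π) volume :=
    ((intervalIntegrable_iff_integrableOn_Ioc_of_le hle).1 hci2).mono_set Set.Ioo_subset_Ioc_self
  rw [← ofReal_integral_norm_eq_lintegral_enorm hInt]
  apply ENNReal.ofReal_le_ofReal
  rw [← integral_Ioc_eq_integral_Ioo, ← intervalIntegral.integral_of_le hle]
  have hptw : ∀ θ, ‖Real.log ‖f (circleMap z0 ρ θ)‖‖ ≤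
      2 * Real.log M - Real.log ‖f (circleMap z0 ρ θ)‖ := by
    intro θ
    have hmem : circleMap z0 ρ θ ∈ Metric.closedBall z0 R := by
      apply Metric.closedBall_subset_closedBall hρR
      exact circleMap_mem_closedBall z0 hρ.le θ
    have h1 := hfM _ hmem
    have hlM : 0 ≤ Real.log M := Real.log_nonneg hM
    rw [Real.norm_eq_abs, abs_le]
    have h2 : Real.log ‖f (circleMap z0 ρ θ)‖ ≤ Real.log M := by
      rcases eq_or_ne (f (circleMap z0 ρ θ)) 0 with h | h
      · rw [h, norm_zero, Real.log_zero]
        exact hlM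
      · exact Real.log_le_log (norm_pos_iff.2 h) h1
    constructor <;> linarith
  have hpp : ∫ θ in (-π)..π, Real.log ‖f (circleMap z0 ρ θ)‖ =
      2 * π * circleAverage (fun z => Real.log ‖f z‖) z0 ρ := by
    have h1 := hper.intervalIntegral_add_eq (-π) 0
    have h2 : -π + 2 * π = π := by ring
    rw [h2, zero_add] at h1
    rw [h1, circleAverage_def, smul_eq_mul]
    have := Real.pi_pos.ne'
    field_simp
  have hJ := jensen_lower f hf z0 h0 ρ hρ ∅ (by simp)
  simp only [Finset.filter_empty, Finset.card_empty, Nat.cast_zero, mul_zero, zero_add] at hJ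
  calc ∫ θ in (-π)..π, ‖Real.log ‖f (circleMap z0 ρ θ)‖‖
      ≤ ∫ θ in (-π)..π, (2 * Real.log M - Real.log ‖f (circleMap z0 ρ θ)‖) := by
        apply intervalIntegral.integral_mono_on hle hci2.norm (intervalIntegrable_const.sub hci2)
        intro θ _
        exact hptw θ
    _ = 2 * π * (2 * Real.log M) - 2 * π * circleAverage (fun z => Real.log ‖f z‖) z0 ρ := by
        rw [intervalIntegral.integral_sub intervalIntegrable_const hci2, hpp,
          intervalIntegral.integral_const, smul_eq_mul]
        ring
    _ ≤ 2 * π * (2 * Real.log M - Real.log ‖f z0‖) := by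
        have := Real.pi_pos
        nlinarith

/-- `log ‖f‖` is locally integrable for a nonzero entire function. -/
lemma locallyIntegrable_log (f : ℂ → ℂ) (hf : Differentiable ℂ f) (z0 : ℂ) (h0 : f z0 ≠ 0) :
    LocallyIntegrable (fun z => Real.log ‖f z‖) volume := by
  have hmeas : Measurable (fun z => Real.log ‖f z‖) := measurable_logn f hf.continuous
  -- integrability on balls around z0
  have key : ∀ R : ℝ, 0 < R → IntegrableOn (fun z => Real.log ‖f z‖) (Metric.ball z0 R) volume := by
    intro R hR
    obtain ⟨M0, hM0⟩ := (isCompact_closedBall z0 R).exists_bound_of_continuousOn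
      (f := f) hf.continuous.continuousOn
    set M := max M0 1
    have hM : 1 ≤ M := le_max_right _ _
    have hfM : ∀ z ∈ Metric.closedBall z0 R, ‖f z‖ ≤ M := fun z hz =>
      (hM0 z hz).trans (le_max_left _ _)
    refine ⟨hmeas.aestronglyMeasurable, ?_⟩
    set C : ℝ≥0∞ := ENNReal.ofReal (2 * π * (2 * Real.log M - Real.log ‖f z0‖))
    have hshift : ∫⁻ z in Metric.ball z0 R, ‖Real.log ‖f z‖‖ₑ =
        ∫⁻ z, Set.indicator (Metric.ball 0 R) (fun z => ‖Real.log ‖f (z0 + z)‖‖ₑ) z := by
      rw [← lintegral_indicator measurableSet_ball,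
        ← lintegral_add_left_eq_self (μ := volume) _ z0]
      congr 1
      ext z
      by_cases hz : z ∈ Metric.ball (0:ℂ) R
      · rw [Set.indicator_of_mem hz, Set.indicator_of_mem]
        rw [Metric.mem_ball, dist_eq_norm, add_sub_cancel_left]
        simpa using hz
      · rw [Set.indicator_of_notMem hz, Set.indicator_of_notMem]
        rw [Metric.mem_ball, dist_eq_norm, add_sub_cancel_left]
        simpa using hz
    rw [HasFiniteIntegral, hshift, ← Complex.lintegral_comp_polarCoord_symm]
    have hbd : ∀ p ∈ polarCoord.target, ENNReal.ofReal p.1 •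
        Set.indicator (Metric.ball 0 R) (fun z => ‖Real.log ‖f (z0 + z)‖‖ₑ)
          (Complex.polarCoord.symm p) ≤
        Set.indicator (Set.Ioo 0 R) (fun ρ => ENNReal.ofReal R) p.1 *
          ‖Real.log ‖f (circleMap z0 p.1 p.2)‖‖ₑ := by
      intro p hp
      rw [polarCoord_target] at hp
      have hp1 : 0 < p.1 := hp.1
      by_cases hpR : p.1 < R
      · rw [Set.indicator_of_mem, Set.indicator_of_mem (show p.1 ∈ Set.Ioo 0 R from ⟨hp1, hpR⟩)]
        · rw [smul_eq_mul]
          have : z0 + Complex.polarCoord.symm p = circleMap z0 p.1 p.2 := by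
            rw [circleMap_eq, Complex.polarCoord_symm_apply, Complex.real_smul]
          rw [this]
          gcongr
        · rw [Metric.mem_ball, dist_zero_right, Complex.norm_polarCoord_symm, abs_of_pos hp1]
          exact hpR
      · rw [Set.indicator_of_notMem]
        · simp
        · rw [Metric.mem_ball, dist_zero_right, Complex.norm_polarCoord_symm, abs_of_pos hp1]
          exact hpR
    calc ∫⁻ p in polarCoord.target, ENNReal.ofReal p.1 •
          Set.indicator (Metric.ball 0 R) (fun z => ‖Real.log ‖f (z0 + z)‖‖ₑ)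
          (Complex.polarCoord.symm p)
        ≤ ∫⁻ p in polarCoord.target, Set.indicator (Set.Ioo 0 R) (fun ρ => ENNReal.ofReal R) p.1 *
          ‖Real.log ‖f (circleMap z0 p.1 p.2)‖‖ₑ :=
          setLIntegral_mono' polarCoord.open_target.measurableSet hbd
      _ = ∫⁻ ρ in Set.Ioi (0:ℝ), ∫⁻ θ in Set.Ioo (-π) π,
          Set.indicator (Set.Ioo 0 R) (fun ρ => ENNReal.ofReal R) ρ *
          ‖Real.log ‖f (circleMap z0 ρ θ)‖‖ₑ := by
          rw [polarCoord_target, Measure.volume_eq_prod, ← Measure.prod_restrict]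
          rw [lintegral_prod]
          apply Measurable.aemeasurable
          apply Measurable.mul
          · exact (measurable_const.indicator measurableSet_Ioo).comp measurable_fst
          · apply Measurable.enorm
            apply hmeas.comp
            have : Continuous (fun p : ℝ × ℝ => circleMap z0 p.1 p.2) := by
              unfold circleMap
              fun_prop
            exact this.measurable
      _ ≤ ∫⁻ ρ in Set.Ioi (0:ℝ), Set.indicator (Set.Ioo 0 R) (fun ρ => ENNReal.ofReal R * C) ρ := by
          apply setLIntegral_mono' measurableSet_Ioi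
          intro ρ hρ
          by_cases hρR : ρ ∈ Set.Ioo 0 R
          · simp only [Set.indicator_of_mem hρR]
            rw [lintegral_const_mul']
            · gcongr
              exact circ_bound f hf z0 h0 R M hM hfM ρ hρR.1 hρR.2.le
            · exact ENNReal.ofReal_ne_top
          · simp [Set.indicator_of_notMem hρR]
      _ ≤ ∫⁻ ρ, Set.indicator (Set.Ioo 0 R) (fun ρ => ENNReal.ofReal R * C) ρ :=
          setLIntegral_le_lintegral _ _
      _ < ⊤ := by
          rw [lintegral_indicator measurableSet_Ioo, lintegral_const]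
          simp only [MeasurableSet.univ, Measure.restrict_apply, Set.univ_inter, Real.volume_Ioo,
            sub_zero]
          exact ENNReal.mul_lt_top (ENNReal.mul_lt_top ENNReal.ofReal_lt_top
            ENNReal.ofReal_lt_top) ENNReal.ofReal_lt_top
  intro x
  refine ⟨Metric.ball z0 (dist x z0 + 1), ?_, ?_⟩
  · apply Metric.isOpen_ball.mem_nhds
    rw [Metric.mem_ball]
    linarith
  · exact key _ (by positivity)

end Pool.Agent.Work.MP_bed24d_an
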