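import Mathlib
import Pool.Agent.Work.MP_bed24d_an.A3

set_option autoImplicit false

open MeasureTheory Filter Topology Real Complex InnerProductSpace Laplacian
open scoped ContDiff ENNReal

namespace Pool.Agent.Work.MP_bed24d_an

lemma zeros_countable (f : ℂ → ℂ) (hf : Differentiable ℂ f) (z0 : ℂ) (h0 : f z0 ≠ 0) :
    {z | f z = 0}.Countable := by
  have han : AnalyticOnNhd ℂ f Set.univ := fun z _ => hf.analyticAt z
  have h1 := han.preimage_zero_mem_codiscrete (x := z0) h0
  have h2 : IsDiscrete {z | f z = 0} := by
    have := isDiscrete_of_codiscreteWithin (U := Set.univ) (s := {z | f z = 0}) (by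
      exact h1)
    simpa using this
  have h3 : IsLindelof {z | f z = 0} := HereditarilyLindelofSpace.isLindelof _
  exact h3.countable_of_isDiscrete h2

lemma ae_ne_zero (f : ℂ → ℂ) (hf : Differentiable ℂ f) (z0 : ℂ) (h0 : f z0 ≠ 0) :
    ∀ᵐ z, f z ≠ 0 := by
  have := (zeros_countable f hf z0 h0).measure_zero volume
  rw [ae_iff]
  simpa using this

/-- error estimate between the Laplacian pairing and the circle-average pairing -/
lemma pairing_approx (u : ℂ → ℝ) (hu : Measurable u) (hli : LocallyIntegrable u volume)
    (φ : ℂ → ℝ) (hφ : ContDiff ℝ 2 φ) (hc : HasCompactSupport φ) (ε : ℝ) (hε : 0 < ε) :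
    ∃ δ > 0, ∀ r, 0 < r → r < δ →
      |(∫ x, u x * (Δ φ) x) - 4 / r ^ 2 * ∫ x, (circleAverage u x r - u x) * φ x| ≤ ε := by
  set K : Set ℂ := Metric.cthickening 1 (tsupport φ) with hK
  have hKc : IsCompact K := hc.isCompact.cthickening
  have huK : IntegrableOn u K volume := hli.integrableOn_isCompact hKc
  set A : ℝ := ∫ x in K, |u x| with hA
  have hA0 : 0 ≤ A := integral_nonneg fun x => abs_nonneg _
  obtain ⟨δ, hδ, h⟩ := circleAverage_lap φ hφ hc (ε / (A + 1)) (by positivity)
  refine ⟨min δ 1, lt_min hδ one_pos, fun r hr hrδ => ?_⟩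
  have hr1 : r < 1 := lt_of_lt_of_le hrδ (min_le_right _ _)
  have hrd : r < δ := lt_of_lt_of_le hrδ (min_le_left _ _)
  have hφc : Continuous φ := hφ.continuous
  obtain ⟨i1, i2, i3⟩ := integral_mul_circleAverage u hu hli φ hφc hc r
  have iu : Integrable (fun x => u x * φ x) := by
    have := hli.integrable_smul_right_of_hasCompactSupport hφc hc
    simpa [smul_eq_mul] using this
  have hlapc : Continuous (Δ φ) := by
    have h1 : ContDiff ℝ 1 (fderiv ℝ φ) := hφ.fderiv_right (m := 1) (by norm_num)
    have h2 : Continuous (D2 φ) := h1.continuous_fderiv (by norm_num)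
    have : Δ φ = fun x => D2 φ x 1 1 + D2 φ x Complex.I Complex.I := by
      ext x
      exact lap_eq φ x
    rw [this]
    fun_prop
  have hlapsupp : ∀ x, x ∉ tsupport φ → (Δ φ) x = 0 := by
    intro x hx
    have h1 : φ =ᶠ[𝓝 x] 0 := notMem_tsupport_iff_eventuallyEq.1 hx
    have h2 := laplacian_congr_nhds h1
    have h3 := h2.eq_of_nhds
    rw [h3]
    have : Δ (0 : ℂ → ℝ) = 0 := laplacian_const (c := (0:ℝ))
    rw [this]
    rfl
  have hcavsupp : ∀ x, x ∉ K → circleAverage φ x r = 0 := by
    intro x hx
    rw [circleAverage_def]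
    have : ∀ θ, φ (circleMap x r θ) = 0 := by
      intro θ
      apply image_eq_zero_of_notMem_tsupport
      intro hmem
      apply hx
      rw [hK]
      apply Metric.mem_cthickening_of_dist_le x _ _ _ hmem
      rw [dist_comm, dist_eq_norm, circleMap_sub_center, norm_circleMap_zero, abs_of_pos hr]
      exact hr1.le
    simp [this]
  have hsub : tsupport φ ⊆ K := Metric.self_subset_cthickening _
  have iul : Integrable (fun x => u x * (Δ φ) x) := by
    have hcs : HasCompactSupport (Δ φ) := by
      apply HasCompactSupport.intro hc.isCompact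
      intro x hx
      exact hlapsupp x hx
    have := hli.integrable_smul_right_of_hasCompactSupport hlapc hcs
    simpa [smul_eq_mul] using this
  have e1 : ∫ x, (circleAverage u x r - u x) * φ x =
      ∫ x, u x * (circleAverage φ x r - φ x) := by
    have a1 : ∫ x, (circleAverage u x r - u x) * φ x =
        (∫ x, circleAverage u x r * φ x) - ∫ x, u x * φ x := by
      rw [← integral_sub i2 iu]
      congr 1
      ext x
      ring
    have a2 : ∫ x, u x * (circleAverage φ x r - φ x) =
        (∫ x, u x * circleAverage φ x r) - ∫ x, u x * φ x := by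
      rw [← integral_sub i1 iu]
      congr 1
      ext x
      ring
    rw [a1, a2, i3]
  have e2 : (∫ x, u x * (Δ φ) x) - 4 / r ^ 2 * ∫ x, (circleAverage u x r - u x) * φ x =
      ∫ x, u x * ((Δ φ) x - 4 / r ^ 2 * (circleAverage φ x r - φ x)) := by
    rw [e1, ← MeasureTheory.integral_const_mul, ← integral_sub iul]
    · congr 1
      ext x
      ring
    · apply Integrable.const_mul
      have := i1.sub iu
      refine this.congr (Eventually.of_forall fun x => ?_)
      simp only [Pi.sub_apply]
      ring
  rw [e2]
  have hptw : ∀ x, ‖u x * ((Δ φ) x - 4 / r ^ 2 * (circleAverage φ x r - φ x))‖ ≤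
      Set.indicator K (fun x => ε / (A + 1) * |u x|) x := by
    intro x
    by_cases hx : x ∈ K
    · rw [Set.indicator_of_mem hx, norm_mul, Real.norm_eq_abs, Real.norm_eq_abs, mul_comm]
      gcongr
      rw [abs_sub_comm]
      exact h r hr hrd x
    · rw [Set.indicator_of_notMem hx]
      have hx2 : x ∉ tsupport φ := fun h => hx (hsub h)
      rw [hlapsupp x hx2, hcavsupp x hx, image_eq_zero_of_notMem_tsupport hx2]
      simp
  calc |∫ x, u x * ((Δ φ) x - 4 / r ^ 2 * (circleAverage φ x r - φ x))|
      ≤ ∫ x, Set.indicator K (fun x => ε / (A + 1) * |u x|) x := by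
        rw [← Real.norm_eq_abs]
        apply norm_integral_le_of_norm_le _ (Eventually.of_forall hptw)
        apply IntegrableOn.integrable_indicator _ hKc.measurableSet
        exact huK.abs.const_mul _
    _ = ε / (A + 1) * A := by
        rw [integral_indicator hKc.measurableSet, MeasureTheory.integral_const_mul]
    _ ≤ ε := by
        rw [div_mul_eq_mul_div, div_le_iff₀ (by positivity)]
        nlinarith


/-- Lower bound for the pairing of `log ‖f‖` with the Laplacian of a nonnegative test function. -/
lemma lap_log_lower (f : ℂ → ℂ) (hf : Differentiable ℂ f) (z0 : ℂ) (h0 : f z0 ≠ 0)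
    (S : Finset ℂ) (hS : ∀ z ∈ S, f z = 0) (φ : ℂ → ℝ) (hφ : ContDiff ℝ 2 φ)
    (hc : HasCompactSupport φ) (hnn : ∀ x, 0 ≤ φ x) :
    π * Real.log 2 * ∑ z ∈ S, φ z ≤ ∫ x, Real.log ‖f x‖ * (Δ φ) x := by
  classical
  set u : ℂ → ℝ := fun z => Real.log ‖f z‖ with hu
  have hum : Measurable u := measurable_logn f hf.continuous
  have hli : LocallyIntegrable u volume := locallyIntegrable_log f hf z0 h0
  have hφc : Continuous φ := hφ.continuous
  have hl2 : 0 < Real.log 2 := Real.log_pos (by norm_num)
  have hπ := Real.pi_pos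
  -- reduce to an epsilon statement
  apply le_of_forall_pos_sub_le
  intro ε hε
  set N : ℝ := (S.card : ℝ) with hN
  set ε' : ℝ := ε / (2 * (π * Real.log 2 * N + 1)) with hε'
  have hden : 0 < 2 * (π * Real.log 2 * N + 1) := by positivity
  have hε'0 : 0 < ε' := div_pos hε hden
  obtain ⟨δ1, hδ1, h1⟩ := pairing_approx u hum hli φ hφ hc (ε / 2) (by positivity)
  have huc : UniformContinuous φ := hc.uniformContinuous_of_continuous hφc
  obtain ⟨δ2, hδ2, h2⟩ := Metric.uniformContinuous_iff.1 huc ε' hε'0
  set r : ℝ := min δ1 δ2 / 2 with hr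
  have hmin : 0 < min δ1 δ2 := lt_min hδ1 hδ2
  have hr0 : 0 < r := by positivity
  have hr1 : r < δ1 := by
    have := min_le_left δ1 δ2
    rw [hr]
    linarith
  have hr2 : r / 2 < δ2 := by
    have := min_le_right δ1 δ2
    rw [hr]
    linarith
  have h3 := h1 r hr0 hr1
  obtain ⟨i1, i2, i3⟩ := integral_mul_circleAverage u hum hli φ hφc hc r
  have iu : Integrable (fun x => u x * φ x) := by
    have := hli.integrable_smul_right_of_hasCompactSupport hφc hc
    simpa [smul_eq_mul] using this
  have iφ : Integrable φ := hφc.integrable_of_hasCompactSupport hc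
  have idiff : Integrable (fun x => (circleAverage u x r - u x) * φ x) := by
    have := i2.sub iu
    refine this.congr (Eventually.of_forall fun x => ?_)
    simp only [Pi.sub_apply]
    ring
  -- lower bound
  have hball : ∀ z ∈ S, (φ z - ε') * (π * (r / 2) ^ 2) ≤
      ∫ x in Metric.closedBall z (r / 2), φ x := by
    intro z _
    have hvol : volume.real (Metric.closedBall z (r / 2)) = π * (r / 2) ^ 2 := by
      rw [Measure.real, Complex.volume_closedBall, ENNReal.toReal_mul, ENNReal.toReal_pow,
        ENNReal.toReal_ofReal (by positivity)]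
      simp
      ring
    calc (φ z - ε') * (π * (r / 2) ^ 2) = ∫ x in Metric.closedBall z (r / 2), (φ z - ε') := by
          rw [setIntegral_const, smul_eq_mul, hvol]
          ring
      _ ≤ ∫ x in Metric.closedBall z (r / 2), φ x := by
          apply setIntegral_mono_on
          · exact integrableOn_const (by
              exact (isCompact_closedBall z (r / 2)).measure_lt_top.ne)
          · exact iφ.integrableOn
          · exact measurableSet_closedBall
          · intro x hx
            have h4 := h2 (a := x) (b := z) (lt_of_le_of_lt (Metric.mem_closedBall.1 hx) hr2)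
            rw [Real.dist_eq] at h4
            linarith [(abs_lt.1 h4).1]
  have hsum : ∫ x, (∑ z ∈ S, Set.indicator (Metric.closedBall z (r / 2)) φ x) =
      ∑ z ∈ S, ∫ x in Metric.closedBall z (r / 2), φ x := by
    rw [integral_finsetSum]
    · apply Finset.sum_congr rfl
      intro z _
      rw [integral_indicator measurableSet_closedBall]
    · intro z _
      exact iφ.indicator measurableSet_closedBall
  have hlow : Real.log 2 * ∑ z ∈ S, ∫ x in Metric.closedBall z (r / 2), φ x ≤
      ∫ x, (circleAverage u x r - u x) * φ x := by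
    rw [← hsum, ← MeasureTheory.integral_const_mul]
    apply integral_mono_ae
    · apply Integrable.const_mul
      apply integrable_finsetSum
      intro z _
      exact iφ.indicator measurableSet_closedBall
    · exact idiff
    · filter_upwards [ae_ne_zero f hf z0 h0] with x hx
      have hj := jensen_lower f hf x hx r hr0 S hS
      have hcount : ∑ z ∈ S, Set.indicator (Metric.closedBall z (r / 2)) φ x =
          ((S.filter (fun z => ‖x - z‖ ≤ r / 2)).card : ℝ) * φ x := by
        rw [Finset.card_filter]
        push_cast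
        rw [Finset.sum_mul]
        apply Finset.sum_congr rfl
        intro z _
        by_cases h : ‖x - z‖ ≤ r / 2
        · rw [if_pos h, Set.indicator_of_mem (by rwa [Metric.mem_closedBall, dist_eq_norm]),
            one_mul]
        · rw [if_neg h, Set.indicator_of_notMem (by rwa [Metric.mem_closedBall, dist_eq_norm]),
            zero_mul]
      rw [hcount, ← mul_assoc]
      apply mul_le_mul_of_nonneg_right _ (hnn x)
      linarith
  have hr2' : 0 < r ^ 2 := by positivity
  have h5 : Real.log 2 * ∑ z ∈ S, (φ z - ε') * (π * (r / 2) ^ 2) ≤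
      ∫ x, (circleAverage u x r - u x) * φ x := by
    refine le_trans ?_ hlow
    apply mul_le_mul_of_nonneg_left (Finset.sum_le_sum hball) hl2.le
  have h6 : π * Real.log 2 * (∑ z ∈ S, φ z - N * ε') ≤
      4 / r ^ 2 * ∫ x, (circleAverage u x r - u x) * φ x := by
    calc π * Real.log 2 * (∑ z ∈ S, φ z - N * ε') =
          4 / r ^ 2 * (Real.log 2 * ∑ z ∈ S, (φ z - ε') * (π * (r / 2) ^ 2)) := by
          rw [← Finset.sum_mul, Finset.sum_sub_distrib, Finset.sum_const, nsmul_eq_mul, hN]
          field_simp
          ring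
      _ ≤ _ := mul_le_mul_of_nonneg_left h5 (by positivity)
  have h7 : π * Real.log 2 * (N * ε') ≤ ε / 2 := by
    rw [hε', mul_div_assoc', mul_div_assoc', div_le_iff₀ hden]
    have : 0 ≤ π * Real.log 2 * N := by positivity
    nlinarith
  have h8 := abs_le.1 h3
  have h9 : (∫ x, Real.log ‖f x‖ * (Δ φ) x) = ∫ x, u x * (Δ φ) x := rfl
  rw [h9]
  nlinarith [h8.1]

end Pool.Agent.Work.MP_bed24d_an
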