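import Mathlib
import Pool.Agent.Work.MP_bed24d_an.A4

set_option autoImplicit false

open MeasureTheory Filter Topology Real Complex InnerProductSpace Laplacian
open scoped ContDiff ENNReal

namespace Pool.Agent.Work.MP_bed24d_an

/-- Jensen average of a linear form -/
lemma circleAverage_linear (p q : ℂ) (h : p ≠ 0 ∨ q ≠ 0) :
    circleAverage (fun z => Real.log ‖q * z + p‖) 0 1 = Real.log (max ‖p‖ ‖q‖) := by
  by_cases hq : q = 0
  · have hp : p ≠ 0 := by
      rcases h with h | h
      · exact h
      · exact absurd hq h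
    subst hq
    simp only [zero_mul, zero_add, norm_zero]
    rw [circleAverage_const, max_eq_left (norm_nonneg p)]
  · have h1 := Polynomial.logMahlerMeasure_eq_log_MahlerMeasure
      (p := (Polynomial.C q * Polynomial.X + Polynomial.C p))
    rw [Polynomial.mahlerMeasure_C_mul_X_add_C hq, Polynomial.logMahlerMeasure_def] at h1
    simp only [Polynomial.eval_add, Polynomial.eval_mul, Polynomial.eval_C,
      Polynomial.eval_X] at h1
    rw [h1, max_comm]

/-- exceptional angles -/
lemma ae_angle_ne (p q : ℂ) (h : p ≠ 0 ∨ q ≠ 0) :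
    ∀ᵐ ψ : ℝ, q * circleMap 0 1 ψ + p ≠ 0 := by
  by_cases hq : q = 0
  · have hp : p ≠ 0 := by
      rcases h with h | h
      · exact h
      · exact absurd hq h
    subst hq
    simp [hp]
  · have h1 : (circleMap 0 1 ⁻¹' {-p / q}).Countable :=
      (Set.countable_singleton (-p / q)).preimage_circleMap 0 one_ne_zero
    have h2 := h1.measure_zero volume
    rw [ae_iff]
    refine measure_mono_null ?_ h2
    intro ψ hψ
    simp only [ne_eq, Set.mem_ofPred_eq, not_not] at hψ
    simp only [Set.mem_preimage, Set.mem_singleton_iff]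
    rw [eq_div_iff hq]
    linear_combination hψ

variable (P Q : ℂ → ℂ)

/-- The subharmonic function `log max(|P|,|Q|)`. -/
noncomputable def umax (x : ℂ) : ℝ := Real.log (max ‖P x‖ ‖Q x‖)

lemma umax_continuous (hP : Continuous P) (hQ : Continuous Q) (h : ∀ x, P x ≠ 0 ∨ Q x ≠ 0) :
    Continuous (umax P Q) := by
  unfold umax
  apply Continuous.log (hP.norm.max hQ.norm)
  intro x
  have : 0 < max ‖P x‖ ‖Q x‖ := by
    rcases h x with h | h
    · exact lt_max_of_lt_left (norm_pos_iff.2 h)
    · exact lt_max_of_lt_right (norm_pos_iff.2 h)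
  exact this.ne'

lemma umax_eq (h : ∀ x, P x ≠ 0 ∨ Q x ≠ 0) (x : ℂ) :
    umax P Q x = (2 * π)⁻¹ * ∫ ψ in Set.Ioc 0 (2 * π),
      Real.log ‖Q x * circleMap 0 1 ψ + P x‖ := by
  unfold umax
  rw [← circleAverage_linear (P x) (Q x) (h x), circleAverage_def,
    intervalIntegral.integral_of_le Real.two_pi_pos.le, smul_eq_mul]

/-- Laplacian lower bound for `log max(|P|,|Q|)` by real zeros of the combinations. -/
lemma lap_umax_lower (hP : Differentiable ℂ P) (hQ : Differentiable ℂ Q)
    (h : ∀ x, P x ≠ 0 ∨ Q x ≠ 0) (φ : ℂ → ℝ) (hφ : ContDiff ℝ 2 φ)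
    (hc : HasCompactSupport φ) (hnn : ∀ x, 0 ≤ φ x) (k : ℕ)
    (hk : ∀ ψ : ℝ, ∃ S : Finset ℂ, k ≤ S.card ∧ (∀ z ∈ S, 1 ≤ φ z) ∧
      ∀ z ∈ S, Q z * circleMap 0 1 ψ + P z = 0) :
    π * Real.log 2 * k ≤ ∫ x, umax P Q x * (Δ φ) x := by
  have hl2 : 0 < Real.log 2 := Real.log_pos (by norm_num)
  have hπ := Real.pi_pos
  have hφc : Continuous φ := hφ.continuous
  have hlapc : Continuous (Δ φ) := by
    have h1 : ContDiff ℝ 1 (fderiv ℝ φ) := hφ.fderiv_right (m := 1) (by norm_num)
    have h2 : Continuous (D2 φ) := h1.continuous_fderiv (by norm_num)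
    have : Δ φ = fun x => D2 φ x 1 1 + D2 φ x Complex.I Complex.I := by
      ext x
      exact lap_eq φ x
    rw [this]
    fun_prop
  have hlapsupp : ∀ x, x ∉ tsupport φ → (Δ φ) x = 0 := by
    intro x hx
    have h1 : φ =ᶠ[𝓝 x] 0 := notMem_tsupport_iff_eventuallyEq.1 hx
    have h2 := laplacian_congr_nhds h1
    have h3 := h2.eq_of_nhds
    rw [h3]
    have : Δ (0 : ℂ → ℝ) = 0 := laplacian_const (c := (0:ℝ))
    rw [this]
    rfl
  have hcs : HasCompactSupport (Δ φ) := HasCompactSupport.intro hc.isCompact hlapsupp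
  have iΔ : Integrable (Δ φ) := hlapc.integrable_of_hasCompactSupport hcs
  have huc : Continuous (umax P Q) := umax_continuous P Q hP.continuous hQ.continuous h
  -- bounds on the support
  obtain ⟨C1, hC1⟩ := hc.isCompact.exists_bound_of_continuousOn (f := fun x => ‖P x‖ + ‖Q x‖)
    (hP.continuous.norm.add hQ.continuous.norm).continuousOn
  obtain ⟨C2, hC2⟩ := hc.isCompact.exists_bound_of_continuousOn (f := umax P Q) huc.continuousOn
  set M := max C1 1
  have hM : 1 ≤ M := le_max_right _ _
  have hlM : 0 ≤ Real.log M := Real.log_nonneg hM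
  set F : ℂ × ℝ → ℝ := fun p => Real.log ‖Q p.1 * circleMap 0 1 p.2 + P p.1‖ * (Δ φ) p.1 with hF
  have hmeas0 : Measurable (fun p : ℂ × ℝ => Real.log ‖Q p.1 * circleMap 0 1 p.2 + P p.1‖) := by
    apply Real.measurable_log.comp
    apply Continuous.measurable
    apply Continuous.norm
    apply Continuous.add
    · exact (hQ.continuous.comp continuous_fst).mul
        ((continuous_circleMap 0 1).comp continuous_snd)
    · exact hP.continuous.comp continuous_fst
  have hFm : Measurable F := hmeas0.mul (hlapc.measurable.comp measurable_fst)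
  have hci : ∀ x, IntegrableOn (fun ψ => Real.log ‖Q x * circleMap 0 1 ψ + P x‖)
      (Set.Ioc 0 (2 * π)) volume := by
    intro x
    have hd : Differentiable ℂ (fun z => Q x * z + P x) := by fun_prop
    have := circ_integrable (fun z => Q x * z + P x) hd 0 1
    exact (intervalIntegrable_iff_integrableOn_Ioc_of_le Real.two_pi_pos.le).1 this
  have hptw : ∀ x ∈ tsupport φ, ∀ ψ : ℝ, ‖Real.log ‖Q x * circleMap 0 1 ψ + P x‖‖ ≤
      2 * Real.log M - Real.log ‖Q x * circleMap 0 1 ψ + P x‖ := by
    intro x hx ψ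
    have h1 : ‖Q x * circleMap 0 1 ψ + P x‖ ≤ M := by
      calc ‖Q x * circleMap 0 1 ψ + P x‖ ≤ ‖Q x * circleMap 0 1 ψ‖ + ‖P x‖ := norm_add_le _ _
        _ = ‖P x‖ + ‖Q x‖ := by
          rw [norm_mul, norm_circleMap_zero, abs_one, mul_one, add_comm]
        _ ≤ C1 := by
          have := hC1 x hx
          rw [Real.norm_eq_abs] at this
          exact (le_abs_self _).trans this
        _ ≤ M := le_max_left _ _
    have h2 : Real.log ‖Q x * circleMap 0 1 ψ + P x‖ ≤ Real.log M := by
      rcases eq_or_ne (Q x * circleMap 0 1 ψ + P x) 0 with h | h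
      · rw [h, norm_zero, Real.log_zero]
        exact hlM
      · exact Real.log_le_log (norm_pos_iff.2 h) h1
    rw [Real.norm_eq_abs, abs_le]
    constructor <;> linarith
  have hnormint : ∀ x ∈ tsupport φ, ∫ ψ in Set.Ioc 0 (2 * π),
      ‖Real.log ‖Q x * circleMap 0 1 ψ + P x‖‖ ≤ 2 * π * (2 * Real.log M + C2) := by
    intro x hx
    calc ∫ ψ in Set.Ioc 0 (2 * π), ‖Real.log ‖Q x * circleMap 0 1 ψ + P x‖‖
        ≤ ∫ ψ in Set.Ioc 0 (2 * π), (2 * Real.log M -
          Real.log ‖Q x * circleMap 0 1 ψ + P x‖) := by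
          apply integral_mono (hci x).norm
          · exact (integrable_const _).sub (hci x)
          · intro ψ
            exact hptw x hx ψ
      _ = 2 * π * (2 * Real.log M) - 2 * π * umax P Q x := by
          rw [integral_sub (integrable_const _) (hci x), umax_eq P Q h x, integral_const]
          simp only [smul_eq_mul]
          rw [measureReal_restrict_apply_univ, Real.volume_real_Ioc_of_le Real.two_pi_pos.le]
          field_simp
          ring
      _ ≤ 2 * π * (2 * Real.log M + C2) := by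
          have := hC2 x hx
          rw [Real.norm_eq_abs] at this
          have := (abs_le.1 this).1
          nlinarith
  have hFint : Integrable F (volume.prod (volume.restrict (Set.Ioc 0 (2 * π)))) := by
    rw [integrable_prod_iff hFm.aestronglyMeasurable]
    constructor
    · exact Eventually.of_forall fun x => by
        have := (hci x).mul_const ((Δ φ) x)
        exact this
    · have hb : Integrable (fun x => 2 * π * (2 * Real.log M + C2) * ‖(Δ φ) x‖) :=
        iΔ.norm.const_mul _
      refine hb.mono ?_ (Eventually.of_forall fun x => ?_)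
      · exact hFm.norm.aestronglyMeasurable.integral_prod_right'
      · have e : ∫ ψ in Set.Ioc 0 (2 * π), ‖F (x, ψ)‖ =
            (∫ ψ in Set.Ioc 0 (2 * π), ‖Real.log ‖Q x * circleMap 0 1 ψ + P x‖‖) *
              ‖(Δ φ) x‖ := by
          rw [← MeasureTheory.integral_mul_const]
          congr 1
          ext ψ
          rw [hF]
          simp only [norm_mul]
        rw [e, norm_mul, norm_norm, norm_mul, norm_norm]
        by_cases hx : x ∈ tsupport φ
        · apply mul_le_mul_of_nonneg_right _ (norm_nonneg _)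
          have h1 := hnormint x hx
          have h2 : 0 ≤ ∫ ψ in Set.Ioc 0 (2 * π), ‖Real.log ‖Q x * circleMap 0 1 ψ + P x‖‖ :=
            integral_nonneg fun ψ => norm_nonneg _
          rw [Real.norm_of_nonneg h2]
          exact h1.trans (le_abs_self _)
        · rw [hlapsupp x hx]
          simp
  have e1 : ∫ x, umax P Q x * (Δ φ) x = (2 * π)⁻¹ * ∫ x, ∫ ψ in Set.Ioc 0 (2 * π), F (x, ψ) := by
    rw [← MeasureTheory.integral_const_mul]
    congr 1
    ext x
    rw [umax_eq P Q h x, hF]
    simp only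
    rw [MeasureTheory.integral_mul_const]
    ring
  have e2 : ∫ x, ∫ ψ in Set.Ioc 0 (2 * π), F (x, ψ) = ∫ ψ in Set.Ioc 0 (2 * π), ∫ x, F (x, ψ) :=
    integral_integral_swap (f := fun x ψ => F (x, ψ)) hFint
  have hae : ∀ᵐ ψ ∂(volume.restrict (Set.Ioc 0 (2 * π))),
      π * Real.log 2 * k ≤ ∫ x, F (x, ψ) := by
    have h0 := ae_angle_ne (P 0) (Q 0) (h 0)
    filter_upwards [ae_restrict_of_ae (s := Set.Ioc 0 (2 * π)) h0] with ψ hψ
    obtain ⟨S, hS1, hS2, hS3⟩ := hk ψ
    have hd : Differentiable ℂ (fun z => Q z * circleMap 0 1 ψ + P z) := by fun_prop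
    have := lap_log_lower (fun z => Q z * circleMap 0 1 ψ + P z) hd 0 hψ S hS3 φ hφ hc hnn
    refine le_trans ?_ this
    apply mul_le_mul_of_nonneg_left _ (by positivity)
    calc (k:ℝ) ≤ S.card := by exact_mod_cast hS1
      _ = ∑ z ∈ S, (1:ℝ) := by simp
      _ ≤ ∑ z ∈ S, φ z := Finset.sum_le_sum hS2
  have e3 : π * Real.log 2 * k * (2 * π) ≤ ∫ ψ in Set.Ioc 0 (2 * π), ∫ x, F (x, ψ) := by
    calc π * Real.log 2 * k * (2 * π) = ∫ ψ in Set.Ioc 0 (2 * π), π * Real.log 2 * k := by
          rw [integral_const, smul_eq_mul, measureReal_restrict_apply_univ,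
            Real.volume_real_Ioc_of_le Real.two_pi_pos.le]
          ring
      _ ≤ _ := integral_mono_ae (integrable_const _) hFint.integral_prod_right hae
  rw [e1, e2]
  calc π * Real.log 2 * k = (2 * π)⁻¹ * (π * Real.log 2 * k * (2 * π)) := by
        field_simp
    _ ≤ _ := mul_le_mul_of_nonneg_left e3 (by positivity)

end Pool.Agent.Work.MP_bed24d_an
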