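import Mathlib
import Pool.Agent.Work.MP_bed24d_an.A5

set_option autoImplicit false

open MeasureTheory Filter Topology Real Complex InnerProductSpace Laplacian
open scoped ContDiff ENNReal

namespace Pool.Agent.Work.MP_bed24d_an

/-- Frobenius norm of a 2 by 2 complex matrix. -/
noncomputable def fro (M : Matrix (Fin 2) (Fin 2) ℂ) : ℝ :=
  Real.sqrt (∑ i, ∑ j, ‖M i j‖ ^ 2)

/-- components of `M v` for `v = (cos (t/2), sin (t/2))` -/
noncomputable def FF (M : Matrix (Fin 2) (Fin 2) ℂ) (i : Fin 2) (t : ℝ) : ℂ :=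
  M i 0 * (Real.cos (t / 2) : ℝ) + M i 1 * (Real.sin (t / 2) : ℝ)

noncomputable def PP (M : Matrix (Fin 2) (Fin 2) ℂ) (t : ℝ) : ℂ := FF M 0 t + Complex.I * FF M 1 t
noncomputable def QQ (M : Matrix (Fin 2) (Fin 2) ℂ) (t : ℝ) : ℂ := FF M 0 t - Complex.I * FF M 1 t

noncomputable def UU (M : Matrix (Fin 2) (Fin 2) ℂ) (t : ℝ) : ℝ :=
  Real.log (max ‖PP M t‖ ‖QQ M t‖)

noncomputable def VV (M : Matrix (Fin 2) (Fin 2) ℂ) : ℝ :=
  ∫ t in Set.Ioc 0 (2 * π), UU M t

lemma circleMap_one_eq (t : ℝ) : circleMap 0 1 t = Complex.exp (t * Complex.I) := by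
  simp [circleMap]

lemma lin_half (α β : ℂ) (t : ℝ) :
    (α - Complex.I * β) * circleMap 0 1 t + (α + Complex.I * β) =
      2 * Complex.exp ((t / 2 : ℝ) * Complex.I) *
        (α * (Real.cos (t / 2) : ℝ) + β * (Real.sin (t / 2) : ℝ)) := by
  rw [circleMap_one_eq]
  have h1 : Complex.exp (t * Complex.I) = Complex.exp ((t / 2 : ℝ) * Complex.I) *
      Complex.exp ((t / 2 : ℝ) * Complex.I) := by
    rw [← Complex.exp_add]
    congr 1
    push_cast
    ring
  rw [h1]
  have h2 : Complex.exp ((t / 2 : ℝ) * Complex.I) =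
      (Real.cos (t / 2) : ℝ) + (Real.sin (t / 2) : ℝ) * Complex.I := by
    rw [Complex.exp_mul_I, Complex.ofReal_cos, Complex.ofReal_sin]
  rw [h2]
  have h3 : ((Real.cos (t / 2) : ℝ) : ℂ) ^ 2 + ((Real.sin (t / 2) : ℝ) : ℂ) ^ 2 = 1 := by
    have := Real.cos_sq_add_sin_sq (t / 2)
    exact_mod_cast this
  have hI : Complex.I ^ 2 = -1 := Complex.I_sq
  set c := ((Real.cos (t / 2) : ℝ) : ℂ)
  set s := ((Real.sin (t / 2) : ℝ) : ℂ)
  linear_combination (-(α + Complex.I * β)) * h3 + (α * s ^ 2 - Complex.I * β * s ^ 2 - 2 * β * c * s) * hI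

lemma norm_lin_half (α β : ℂ) (t : ℝ) :
    ‖(α - Complex.I * β) * circleMap 0 1 t + (α + Complex.I * β)‖ =
      2 * ‖α * (Real.cos (t / 2) : ℝ) + β * (Real.sin (t / 2) : ℝ)‖ := by
  rw [lin_half, norm_mul, norm_mul, Complex.norm_exp_ofReal_mul_I]
  simp

lemma max_ge_left (a b : ℂ) : ‖a‖ ≤ max ‖a + Complex.I * b‖ ‖a - Complex.I * b‖ := by
  have h : (2:ℝ) * ‖a‖ ≤ ‖a + Complex.I * b‖ + ‖a - Complex.I * b‖ := by
    calc (2:ℝ) * ‖a‖ = ‖(a + Complex.I * b) + (a - Complex.I * b)‖ := by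
          have : (a + Complex.I * b) + (a - Complex.I * b) = 2 * a := by ring
          rw [this, norm_mul]
          simp
      _ ≤ _ := norm_add_le _ _
  have h1 := le_max_left ‖a + Complex.I * b‖ ‖a - Complex.I * b‖
  have h2 := le_max_right ‖a + Complex.I * b‖ ‖a - Complex.I * b‖
  linarith

lemma max_ge_right (a b : ℂ) : ‖b‖ ≤ max ‖a + Complex.I * b‖ ‖a - Complex.I * b‖ := by
  have h : (2:ℝ) * ‖b‖ ≤ ‖a + Complex.I * b‖ + ‖a - Complex.I * b‖ := by
    calc (2:ℝ) * ‖b‖ = ‖(a + Complex.I * b) - (a - Complex.I * b)‖ := by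
          have : (a + Complex.I * b) - (a - Complex.I * b) = 2 * Complex.I * b := by ring
          rw [this, norm_mul, norm_mul]
          simp
      _ ≤ _ := norm_sub_le _ _
  have h1 := le_max_left ‖a + Complex.I * b‖ ‖a - Complex.I * b‖
  have h2 := le_max_right ‖a + Complex.I * b‖ ‖a - Complex.I * b‖
  linarith

lemma FF_ne_zero (M : Matrix (Fin 2) (Fin 2) ℂ) (hM : M.det = 1) (t : ℝ) :
    FF M 0 t ≠ 0 ∨ FF M 1 t ≠ 0 := by
  by_contra hcon
  push Not at hcon
  obtain ⟨h0, h1⟩ := hcon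
  unfold FF at h0 h1
  rw [Matrix.det_fin_two] at hM
  set c := ((Real.cos (t / 2) : ℝ) : ℂ)
  set s := ((Real.sin (t / 2) : ℝ) : ℂ)
  have hc : c = 0 := by linear_combination (-c) * hM + M 1 1 * h0 - M 0 1 * h1
  have hs : s = 0 := by linear_combination (-s) * hM + M 0 0 * h1 - M 1 0 * h0
  have h3 := Real.cos_sq_add_sin_sq (t / 2)
  have hc' : Real.cos (t / 2) = 0 := Complex.ofReal_eq_zero.1 hc
  have hs' : Real.sin (t / 2) = 0 := Complex.ofReal_eq_zero.1 hs
  rw [hc', hs'] at h3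
  norm_num at h3

lemma PQ_ne_zero (M : Matrix (Fin 2) (Fin 2) ℂ) (hM : M.det = 1) (t : ℝ) :
    PP M t ≠ 0 ∨ QQ M t ≠ 0 := by
  by_contra hcon
  push Not at hcon
  obtain ⟨h0, h1⟩ := hcon
  unfold PP at h0
  unfold QQ at h1
  rcases FF_ne_zero M hM t with h | h
  · apply h
    linear_combination (h0 + h1) / 2
  · apply h
    have hI : Complex.I ^ 2 = -1 := Complex.I_sq
    linear_combination (-Complex.I / 2) * h0 + Complex.I / 2 * h1 + (FF M 1 t) * hI

lemma max_PQ_pos (M : Matrix (Fin 2) (Fin 2) ℂ) (hM : M.det = 1) (t : ℝ) :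
    0 < max ‖PP M t‖ ‖QQ M t‖ := by
  rcases PQ_ne_zero M hM t with h | h
  · exact lt_max_of_lt_left (norm_pos_iff.2 h)
  · exact lt_max_of_lt_right (norm_pos_iff.2 h)

lemma FF_continuous (M : Matrix (Fin 2) (Fin 2) ℂ) (i : Fin 2) : Continuous (FF M i) := by
  unfold FF
  fun_prop

lemma UU_continuous (M : Matrix (Fin 2) (Fin 2) ℂ) (hM : M.det = 1) : Continuous (UU M) := by
  unfold UU
  apply Continuous.log
  · unfold PP QQ
    have h0 := FF_continuous M 0
    have h1 := FF_continuous M 1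
    fun_prop
  · intro t
    exact (max_PQ_pos M hM t).ne'

lemma UU_integrable (M : Matrix (Fin 2) (Fin 2) ℂ) (hM : M.det = 1) :
    IntegrableOn (UU M) (Set.Ioc 0 (2 * π)) volume :=
  ((UU_continuous M hM).integrableOn_Icc).mono_set Set.Ioc_subset_Icc_self

lemma entry_le_fro (M : Matrix (Fin 2) (Fin 2) ℂ) (i j : Fin 2) : ‖M i j‖ ≤ fro M := by
  unfold fro
  apply Real.le_sqrt_of_sq_le
  calc ‖M i j‖ ^ 2 ≤ ∑ j, ‖M i j‖ ^ 2 :=
        Finset.single_le_sum (f := fun j => ‖M i j‖ ^ 2) (fun _ _ => by positivity)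
          (Finset.mem_univ j)
    _ ≤ ∑ i, ∑ j, ‖M i j‖ ^ 2 :=
        Finset.single_le_sum (f := fun i => ∑ j, ‖M i j‖ ^ 2) (fun _ _ => by positivity)
          (Finset.mem_univ i)

lemma exists_entry_ge (M : Matrix (Fin 2) (Fin 2) ℂ) : ∃ i j, fro M / 2 ≤ ‖M i j‖ := by
  by_contra hcon
  push Not at hcon
  have h : ∀ i j, ‖M i j‖ ^ 2 < (fro M / 2) ^ 2 := by
    intro i j
    have h1 := hcon i j
    have h2 := norm_nonneg (M i j)
    nlinarith
  have h2 : fro M ^ 2 = ∑ i, ∑ j, ‖M i j‖ ^ 2 := by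
    unfold fro
    rw [Real.sq_sqrt (by positivity)]
  simp only [Fin.sum_univ_two] at h2
  have := h 0 0
  have := h 0 1
  have := h 1 0
  have := h 1 1
  nlinarith

lemma fro_ge_one (M : Matrix (Fin 2) (Fin 2) ℂ) (hM : M.det = 1) : 1 ≤ fro M := by
  have h2 : fro M ^ 2 = ∑ i, ∑ j, ‖M i j‖ ^ 2 := by
    unfold fro
    rw [Real.sq_sqrt (by positivity)]
  simp only [Fin.sum_univ_two] at h2
  rw [Matrix.det_fin_two] at hM
  have h3 : (1:ℝ) ≤ ‖M 0 0‖ * ‖M 1 1‖ + ‖M 0 1‖ * ‖M 1 0‖ := by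
    calc (1:ℝ) = ‖M 0 0 * M 1 1 - M 0 1 * M 1 0‖ := by rw [hM]; simp
      _ ≤ ‖M 0 0 * M 1 1‖ + ‖M 0 1 * M 1 0‖ := norm_sub_le _ _
      _ = _ := by rw [norm_mul, norm_mul]
  have h4 : 0 ≤ fro M := Real.sqrt_nonneg _
  have h5 : 1 ≤ fro M ^ 2 := by
    nlinarith [sq_nonneg (‖M 0 0‖ - ‖M 1 1‖), sq_nonneg (‖M 0 1‖ - ‖M 1 0‖)]
  nlinarith

lemma UU_le (M : Matrix (Fin 2) (Fin 2) ℂ) (hM : M.det = 1) (t : ℝ) :
    UU M t ≤ Real.log (fro M) + Real.log 4 := by
  have hf1 := fro_ge_one M hM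
  unfold UU
  rw [← Real.log_mul (by positivity) (by norm_num)]
  apply Real.log_le_log (max_PQ_pos M hM t)
  have hF : ∀ i, ‖FF M i t‖ ≤ 2 * fro M := by
    intro i
    unfold FF
    calc ‖M i 0 * (Real.cos (t / 2) : ℝ) + M i 1 * (Real.sin (t / 2) : ℝ)‖
        ≤ ‖M i 0 * (Real.cos (t / 2) : ℝ)‖ + ‖M i 1 * (Real.sin (t / 2) : ℝ)‖ := norm_add_le _ _
      _ ≤ fro M * 1 + fro M * 1 := by
          rw [norm_mul, norm_mul]
          gcongr
          · exact entry_le_fro M i 0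
          · rw [Complex.norm_real]
            exact Real.abs_cos_le_one _
          · exact entry_le_fro M i 1
          · rw [Complex.norm_real]
            exact Real.abs_sin_le_one _
      _ = 2 * fro M := by ring
  have h0 := hF 0
  have h1 := hF 1
  apply max_le
  · unfold PP
    calc ‖FF M 0 t + Complex.I * FF M 1 t‖ ≤ ‖FF M 0 t‖ + ‖Complex.I * FF M 1 t‖ :=
          norm_add_le _ _
      _ ≤ fro M * 4 := by
          rw [norm_mul, Complex.norm_I, one_mul]
          linarith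
  · unfold QQ
    calc ‖FF M 0 t - Complex.I * FF M 1 t‖ ≤ ‖FF M 0 t‖ + ‖Complex.I * FF M 1 t‖ :=
          norm_sub_le _ _
      _ ≤ fro M * 4 := by
          rw [norm_mul, Complex.norm_I, one_mul]
          linarith

lemma VV_le (M : Matrix (Fin 2) (Fin 2) ℂ) (hM : M.det = 1) :
    VV M ≤ 2 * π * Real.log (fro M) + 2 * π * Real.log 4 := by
  unfold VV
  calc ∫ t in Set.Ioc 0 (2 * π), UU M t
      ≤ ∫ t in Set.Ioc 0 (2 * π), (Real.log (fro M) + Real.log 4) := by
        apply integral_mono (UU_integrable M hM) (integrable_const _)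
        intro t
        exact UU_le M hM t
    _ = _ := by
        rw [integral_const, smul_eq_mul, measureReal_restrict_apply_univ,
          Real.volume_real_Ioc_of_le Real.two_pi_pos.le]
        ring

lemma le_VV (M : Matrix (Fin 2) (Fin 2) ℂ) (hM : M.det = 1) :
    2 * π * Real.log (fro M) - 2 * π * Real.log 4 ≤ VV M := by
  have hf1 := fro_ge_one M hM
  obtain ⟨i, j, hij⟩ := exists_entry_ge M
  set α := M i 0 with hα
  set β := M i 1 with hβ
  set p := α + Complex.I * β with hp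
  set q := α - Complex.I * β with hq
  have hmax : fro M / 2 ≤ max ‖p‖ ‖q‖ := by
    refine hij.trans ?_
    fin_cases j
    · exact max_ge_left α β
    · exact max_ge_right α β
  have hmaxpos : 0 < max ‖p‖ ‖q‖ := lt_of_lt_of_le (by positivity) hmax
  have hpq : p ≠ 0 ∨ q ≠ 0 := by
    by_contra hcon
    push Not at hcon
    rw [hcon.1, hcon.2] at hmaxpos
    simp at hmaxpos
  have hci : IntegrableOn (fun t => Real.log ‖q * circleMap 0 1 t + p‖) (Set.Ioc 0 (2 * π))
      volume := by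
    have hd : Differentiable ℂ (fun z => q * z + p) := by fun_prop
    have := circ_integrable (fun z => q * z + p) hd 0 1
    exact (intervalIntegrable_iff_integrableOn_Ioc_of_le Real.two_pi_pos.le).1 this
  have hav : ∫ t in Set.Ioc 0 (2 * π), Real.log ‖q * circleMap 0 1 t + p‖ =
      2 * π * Real.log (max ‖p‖ ‖q‖) := by
    rw [← circleAverage_linear p q hpq, circleAverage_def,
      intervalIntegral.integral_of_le Real.two_pi_pos.le, smul_eq_mul]
    have := Real.pi_pos.ne'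
    field_simp
  have hae : ∀ᵐ t : ℝ, Real.log ‖q * circleMap 0 1 t + p‖ - Real.log 2 ≤ UU M t := by
    filter_upwards [ae_angle_ne p q hpq] with t ht
    have hpos : 0 < ‖q * circleMap 0 1 t + p‖ := norm_pos_iff.2 ht
    rw [← Real.log_div hpos.ne' (by norm_num)]
    unfold UU
    apply Real.log_le_log (by positivity)
    rw [norm_lin_half]
    have : (2:ℝ) * ‖α * (Real.cos (t / 2) : ℝ) + β * (Real.sin (t / 2) : ℝ)‖ / 2 =
        ‖FF M i t‖ := by
      unfold FF
      ring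
    rw [this]
    fin_cases i
    · exact max_ge_left _ _
    · exact max_ge_right _ _
  unfold VV
  calc 2 * π * Real.log (fro M) - 2 * π * Real.log 4
      ≤ 2 * π * Real.log (max ‖p‖ ‖q‖) - 2 * π * Real.log 2 := by
        have h1 : Real.log (fro M / 2) ≤ Real.log (max ‖p‖ ‖q‖) :=
          Real.log_le_log (by positivity) hmax
        rw [Real.log_div (by positivity) (by norm_num)] at h1
        have h2 : Real.log 4 = 2 * Real.log 2 := by
          rw [show (4:ℝ) = 2 ^ 2 by norm_num, Real.log_pow]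
          norm_num
        rw [h2]
        have := Real.pi_pos
        nlinarith
    _ = ∫ t in Set.Ioc 0 (2 * π), (Real.log ‖q * circleMap 0 1 t + p‖ - Real.log 2) := by
        rw [integral_sub hci (integrable_const _), hav, integral_const, smul_eq_mul,
          measureReal_restrict_apply_univ, Real.volume_real_Ioc_of_le Real.two_pi_pos.le]
        ring
    _ ≤ ∫ t in Set.Ioc 0 (2 * π), UU M t := by
        apply integral_mono_ae
        · exact hci.sub (integrable_const _)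
        · exact UU_integrable M hM
        · exact ae_restrict_of_ae hae

lemma VV_neg (M : Matrix (Fin 2) (Fin 2) ℂ) : VV (-M) = VV M := by
  have h1 : ∀ i t, FF (-M) i t = - FF M i t := by
    intro i t
    unfold FF
    simp only [Matrix.neg_apply]
    ring
  have h2 : ∀ t, UU (-M) t = UU M t := by
    intro t
    unfold UU PP QQ
    rw [h1, h1]
    congr 2
    · rw [← norm_neg]
      congr 1
      ring
    · rw [← norm_neg]
      congr 1
      ring
  unfold VV
  simp_rw [h2]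

end Pool.Agent.Work.MP_bed24d_an
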