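import Mathlib
import Pool.Agent.Work.MP_bed24d_an.A6

set_option autoImplicit false

open MeasureTheory Filter Topology Real Complex InnerProductSpace Laplacian
open scoped ContDiff ENNReal

namespace Pool.Agent.Work.MP_bed24d_an

lemma lap_continuous (φ : ℂ → ℝ) (hφ : ContDiff ℝ 2 φ) : Continuous (Δ φ) := by
  have h1 : ContDiff ℝ 1 (fderiv ℝ φ) := hφ.fderiv_right (m := 1) (by norm_num)
  have h2 : Continuous (D2 φ) := h1.continuous_fderiv (by norm_num)
  have : Δ φ = fun x => D2 φ x 1 1 + D2 φ x Complex.I Complex.I := by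
    ext x
    exact lap_eq φ x
  rw [this]
  fun_prop

lemma lap_support (φ : ℂ → ℝ) : ∀ x, x ∉ tsupport φ → (Δ φ) x = 0 := by
  intro x hx
  have h1 : φ =ᶠ[𝓝 x] 0 := notMem_tsupport_iff_eventuallyEq.1 hx
  have h2 := laplacian_congr_nhds h1
  have h3 := h2.eq_of_nhds
  rw [h3]
  have : Δ (0 : ℂ → ℝ) = 0 := laplacian_const (c := (0:ℝ))
  rw [this]
  rfl

lemma lap_compact (φ : ℂ → ℝ) (hc : HasCompactSupport φ) : HasCompactSupport (Δ φ) :=
  HasCompactSupport.intro hc.isCompact (lap_support φ)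

/-- A generic Fubini integrability statement. -/
lemma integrable_mul_fst (G : ℂ × ℝ → ℝ) (hG : Continuous G) (D : ℂ → ℝ) (hD : Continuous D)
    (hc : HasCompactSupport D) :
    Integrable (fun p : ℂ × ℝ => G p * D p.1) (volume.prod (volume.restrict (Set.Ioc 0 (2 * π)))) := by
  have hK : IsCompact (tsupport D ×ˢ Set.Icc (0:ℝ) (2 * π)) := hc.isCompact.prod isCompact_Icc
  obtain ⟨C, hC⟩ := hK.exists_bound_of_continuousOn hG.continuousOn
  have iD : Integrable D := hD.integrable_of_hasCompactSupport hc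
  have h1 : Integrable (fun p : ℂ × ℝ => C * ‖D p.1‖)
      (volume.prod (volume.restrict (Set.Ioc 0 (2 * π)))) :=
    (iD.norm.comp_fst (volume.restrict (Set.Ioc 0 (2 * π)))).const_mul C
  have hcont : Continuous (fun p : ℂ × ℝ => G p * D p.1) := hG.mul (hD.comp continuous_fst)
  refine h1.mono' hcont.aestronglyMeasurable ?_
  have h2 : ∀ᵐ p : ℂ × ℝ ∂(volume.prod (volume.restrict (Set.Ioc 0 (2 * π)))),
      p.2 ∈ Set.Ioc 0 (2 * π) := by
    have h3 : Measure.QuasiMeasurePreserving (Prod.snd : ℂ × ℝ → ℝ)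
        (volume.prod (volume.restrict (Set.Ioc 0 (2 * π)))) (volume.restrict (Set.Ioc 0 (2 * π))) :=
      Measure.quasiMeasurePreserving_snd
    exact h3.ae (ae_restrict_mem measurableSet_Ioc)
  filter_upwards [h2] with p hp
  rw [norm_mul]
  by_cases hx : p.1 ∈ tsupport D
  · apply mul_le_mul_of_nonneg_right _ (norm_nonneg _)
    exact hC p ⟨hx, Set.Ioc_subset_Icc_self hp⟩
  · rw [image_eq_zero_of_notMem_tsupport hx]
    simp

/-- Pairing of the averaged potential of an entire family of matrices with the Laplacian. -/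
lemma lap_VV_lower (M : ℂ → Matrix (Fin 2) (Fin 2) ℂ) (hdet : ∀ x, (M x).det = 1)
    (hent : ∀ i j, Differentiable ℂ (fun x => M x i j)) (φ : ℂ → ℝ) (hφ : ContDiff ℝ 2 φ)
    (hc : HasCompactSupport φ) (hnn : ∀ x, 0 ≤ φ x) (k : ℕ)
    (hk : ∀ t ψ : ℝ, ∃ S : Finset ℂ, k ≤ S.card ∧ (∀ z ∈ S, 1 ≤ φ z) ∧
      ∀ z ∈ S, QQ (M z) t * circleMap 0 1 ψ + PP (M z) t = 0) :
    π * Real.log 2 * k * (2 * π) ≤ ∫ x, VV (M x) * (Δ φ) x := by
  set D : ℂ → ℝ := Δ φ with hDdef
  have hlapc : Continuous D := lap_continuous φ hφ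
  have hcs : HasCompactSupport D := lap_compact φ hc
  have hFFc : ∀ i, Continuous (fun p : ℂ × ℝ => FF (M p.1) i p.2) := by
    intro i
    unfold FF
    have h0 : ∀ j, Continuous (fun p : ℂ × ℝ => M p.1 i j) := fun j =>
      (hent i j).continuous.comp continuous_fst
    exact ((h0 0).mul (Complex.continuous_ofReal.comp (Real.continuous_cos.comp
      (continuous_snd.div_const 2)))).add ((h0 1).mul (Complex.continuous_ofReal.comp
      (Real.continuous_sin.comp (continuous_snd.div_const 2))))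
  have hUc : Continuous (fun p : ℂ × ℝ => UU (M p.1) p.2) := by
    unfold UU
    apply Continuous.log
    · unfold PP QQ
      have h0 := hFFc 0
      have h1 := hFFc 1
      fun_prop
    · intro p
      exact (max_PQ_pos (M p.1) (hdet p.1) p.2).ne'
  have hFint := integrable_mul_fst (fun p : ℂ × ℝ => UU (M p.1) p.2) hUc D hlapc hcs
  have e1 : ∫ x, VV (M x) * D x =
      ∫ x, ∫ t in Set.Ioc 0 (2 * π), UU (M x) t * D x := by
    congr 1
    ext x
    unfold VV
    rw [MeasureTheory.integral_mul_const]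
  have e2 : ∫ x, ∫ t in Set.Ioc 0 (2 * π), UU (M x) t * D x =
      ∫ t in Set.Ioc 0 (2 * π), ∫ x, UU (M x) t * D x :=
    integral_integral_swap (f := fun x t => UU (M x) t * D x) hFint
  rw [e1, e2]
  have hFd : ∀ i t, Differentiable ℂ (fun x => FF (M x) i t) := by
    intro i t
    unfold FF
    exact ((hent i 0).mul_const _).add ((hent i 1).mul_const _)
  have hlow : ∀ t : ℝ, π * Real.log 2 * k ≤ ∫ x, UU (M x) t * D x := by
    intro t
    have hP : Differentiable ℂ (fun x => PP (M x) t) := by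
      unfold PP
      exact (hFd 0 t).add ((hFd 1 t).const_mul _)
    have hQ : Differentiable ℂ (fun x => QQ (M x) t) := by
      unfold QQ
      exact (hFd 0 t).sub ((hFd 1 t).const_mul _)
    have := lap_umax_lower (fun x => PP (M x) t) (fun x => QQ (M x) t) hP hQ
      (fun x => PQ_ne_zero (M x) (hdet x) t) φ hφ hc hnn k (hk t)
    exact this
  have hint : Integrable (fun t => ∫ x, UU (M x) t * D x)
      (volume.restrict (Set.Ioc 0 (2 * π))) := hFint.integral_prod_right
  calc π * Real.log 2 * k * (2 * π) = ∫ t in Set.Ioc 0 (2 * π), π * Real.log 2 * k := by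
        rw [integral_const, smul_eq_mul, measureReal_restrict_apply_univ,
          Real.volume_real_Ioc_of_le Real.two_pi_pos.le]
        ring
    _ ≤ _ := by
        apply integral_mono (integrable_const _) hint
        intro t
        exact hlow t

/-- Real zeros produced by rotation. -/
lemma real_zeros (M : ℂ → Matrix (Fin 2) (Fin 2) ℂ) (t : ℝ) (R θ : ℝ → ℝ) (hθ : Continuous θ)
    (h0 : ∀ x : ℝ, FF (M x) 0 t = (R x * Real.cos (θ x) : ℝ))
    (h1 : ∀ x : ℝ, FF (M x) 1 t = (R x * Real.sin (θ x) : ℝ))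
    (k : ℕ) (hk : θ π = θ 0 + k * π) (ψ : ℝ) :
    ∃ S : Finset ℂ, k ≤ S.card ∧ (∀ z ∈ S, ∃ x ∈ Set.Icc 0 π, z = ((x : ℝ) : ℂ)) ∧
      ∀ z ∈ S, QQ (M z) t * circleMap 0 1 ψ + PP (M z) t = 0 := by
  classical
  have hπ := Real.pi_pos
  set m0 : ℤ := ⌈(θ 0 - ψ / 2 - π / 2) / π⌉ with hm0
  have hm1 : (θ 0 - ψ / 2 - π / 2) / π ≤ m0 := Int.le_ceil _
  have hm2 : (m0 : ℝ) < (θ 0 - ψ / 2 - π / 2) / π + 1 := Int.ceil_lt_add_one _
  rw [div_le_iff₀ hπ] at hm1
  have hm2' : (m0 : ℝ) * π < (θ 0 - ψ / 2 - π / 2) + π := by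
    have : (m0 : ℝ) * π < ((θ 0 - ψ / 2 - π / 2) / π + 1) * π :=
      mul_lt_mul_of_pos_right hm2 hπ
    rw [add_mul, div_mul_cancel₀ _ hπ.ne', one_mul] at this
    exact this
  have hex : ∀ j : ℕ, j < k → ∃ x ∈ Set.Icc 0 π, θ x = ψ / 2 + π / 2 + (m0 + j) * π := by
    intro j hj
    have hivt := intermediate_value_Icc hπ.le hθ.continuousOn
    have hmem : ψ / 2 + π / 2 + (m0 + j) * π ∈ Set.Icc (θ 0) (θ π) := by
      have hj1 : (j : ℝ) + 1 ≤ k := by exact_mod_cast hj
      constructor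
      · have : 0 ≤ (j : ℝ) * π := by positivity
        nlinarith
      · rw [hk]
        nlinarith
    obtain ⟨x, hx, hx2⟩ := hivt hmem
    exact ⟨x, hx, hx2⟩
  choose! g hg1 hg2 using hex
  refine ⟨(Finset.range k).image (fun j => ((g j : ℝ) : ℂ)), ?_, ?_, ?_⟩
  · rw [Finset.card_image_of_injOn, Finset.card_range]
    intro i hi j hj hij
    simp only [Finset.coe_range, Set.mem_Iio] at hi hj
    have hgij : g i = g j := Complex.ofReal_injective hij
    have e1 := hg2 i hi
    have e2 := hg2 j hj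
    rw [hgij, e2] at e1
    have : (i : ℝ) * π = j * π := by linarith
    have := mul_right_cancel₀ hπ.ne' this
    exact_mod_cast this
  · intro z hz
    rw [Finset.mem_image] at hz
    obtain ⟨j, hj, rfl⟩ := hz
    exact ⟨g j, hg1 j (Finset.mem_range.1 hj), rfl⟩
  · intro z hz
    rw [Finset.mem_image] at hz
    obtain ⟨j, hj, rfl⟩ := hz
    have hx := hg2 j (Finset.mem_range.1 hj)
    set x := g j
    unfold QQ PP
    rw [lin_half, h0 x, h1 x]
    have hcos : Real.cos (θ x - ψ / 2) = 0 := by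
      rw [Real.cos_eq_zero_iff]
      refine ⟨m0 + j, ?_⟩
      rw [hx]
      push_cast
      ring
    have : ((R x * Real.cos (θ x) : ℝ) : ℂ) * (Real.cos (ψ / 2) : ℝ) +
        ((R x * Real.sin (θ x) : ℝ) : ℂ) * (Real.sin (ψ / 2) : ℝ) =
        ((R x * Real.cos (θ x - ψ / 2) : ℝ) : ℂ) := by
      rw [Real.cos_sub]
      push_cast
      ring
    rw [this, hcos]
    simp

end Pool.Agent.Work.MP_bed24d_an
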