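import Mathlib
import Pool.Agent.Work.MP_bed24d_an.A7

set_option autoImplicit false

open MeasureTheory Filter Topology Real Complex InnerProductSpace Laplacian
open scoped ContDiff ENNReal CompactlySupported Manifold

namespace Pool.Agent.Work.MP_bed24d_an

/-- smooth Urysohn function -/
lemma exists_bump (K U : Set ℂ) (hK : IsCompact K) (hU : IsOpen U) (hKU : K ⊆ U) :
    ∃ φ : ℂ → ℝ, ContDiff ℝ ∞ φ ∧ HasCompactSupport φ ∧ tsupport φ ⊆ U ∧
      (∀ x, 0 ≤ φ x ∧ φ x ≤ 1) ∧ ∀ x ∈ K, φ x = 1 := by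
  obtain ⟨V, hVo, hKV, hVU, hVc⟩ := exists_open_between_and_isCompact_closure hK hU hKU
  have hdisj : Disjoint Vᶜ K := by
    rw [Set.disjoint_left]
    intro x hx hxK
    exact hx (hKV hxK)
  obtain ⟨f, hf0, hf1, hf⟩ := exists_contMDiffMap_zero_one_of_isClosed (n := ⊤) (𝓘(ℝ, ℂ))
    hVo.isClosed_compl hK.isClosed hdisj
  have hsupp : tsupport (f : ℂ → ℝ) ⊆ closure V := by
    apply closure_mono
    intro x hx
    by_contra hxV
    exact hx (hf0 hxV)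
  refine ⟨f, ?_, ?_, hsupp.trans hVU, ?_, ?_⟩
  · exact f.contMDiff.contDiff
  · exact hVc.of_isClosed_subset (isClosed_tsupport _) hsupp
  · intro x
    exact hf x
  · intro x hx
    exact hf1 hx

/-- The nonnegative cone. -/
def cone : PointedCone ℝ C_c(ℂ, ℝ) where
  carrier := {f | ∀ x, 0 ≤ f x}
  add_mem' := by
    intro a b ha hb x
    exact add_nonneg (ha x) (hb x)
  zero_mem' := by
    intro x
    exact le_rfl
  smul_mem' := by
    intro c f hf x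
    exact mul_nonneg c.2 (hf x)

lemma mem_cone (f : C_c(ℂ, ℝ)) : f ∈ cone ↔ ∀ x, 0 ≤ f x := Iff.rfl

/-- smooth elements -/
def smoothSub : Submodule ℝ C_c(ℂ, ℝ) where
  carrier := {f | ContDiff ℝ ∞ (f : ℂ → ℝ)}
  add_mem' := by
    intro a b ha hb
    have ha' : ContDiff ℝ ∞ (a : ℂ → ℝ) := ha
    have hb' : ContDiff ℝ ∞ (b : ℂ → ℝ) := hb
    exact ha'.add hb'
  zero_mem' := by
    have h : ContDiff ℝ ∞ (fun _ : ℂ => (0:ℝ)) := contDiff_const
    exact h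
  smul_mem' := by
    intro c f hf
    have hf' : ContDiff ℝ ∞ (f : ℂ → ℝ) := hf
    exact hf'.const_smul c

lemma smoothSub_contDiff (a : smoothSub) : ContDiff ℝ 2 (a.1 : ℂ → ℝ) := by
  have h : ContDiff ℝ ∞ (a.1 : ℂ → ℝ) := a.2
  exact h.of_le (by norm_cast)

lemma lap_add (a b : ℂ → ℝ) (ha : ContDiff ℝ 2 a) (hb : ContDiff ℝ 2 b) (x : ℂ) :
    (Δ (a + b)) x = (Δ a) x + (Δ b) x :=
  ContDiffAt.laplacian_add ha.contDiffAt hb.contDiffAt

lemma lap_smul (c : ℝ) (a : ℂ → ℝ) (ha : ContDiff ℝ 2 a) (x : ℂ) :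
    (Δ (c • a)) x = c * (Δ a) x := laplacian_smul c ha.contDiffAt

lemma integrable_mul_lap (χ : ℂ → ℝ) (hχ : LocallyIntegrable χ volume) (φ : ℂ → ℝ)
    (hφ : ContDiff ℝ 2 φ) (hc : HasCompactSupport φ) :
    Integrable (fun x => χ x * (Δ φ) x) := by
  have := hχ.integrable_smul_right_of_hasCompactSupport (lap_continuous φ hφ) (lap_compact φ hc)
  simpa [smul_eq_mul] using this

/-- the functional on smooth functions -/
noncomputable def smoothFun (χ : ℂ → ℝ) (hχ : LocallyIntegrable χ volume) :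
    smoothSub →ₗ[ℝ] ℝ where
  toFun f := (2 * π)⁻¹ * ∫ x, χ x * (Δ (f.1 : ℂ → ℝ)) x
  map_add' := by
    intro a b
    have ha : ContDiff ℝ 2 (a.1 : ℂ → ℝ) := smoothSub_contDiff a
    have hb : ContDiff ℝ 2 (b.1 : ℂ → ℝ) := smoothSub_contDiff b
    rw [← mul_add, ← integral_add (integrable_mul_lap χ hχ _ ha a.1.hasCompactSupport)
      (integrable_mul_lap χ hχ _ hb b.1.hasCompactSupport)]
    congr 2
    ext x
    have h := lap_add _ _ ha hb x
    have h2 : (((a + b : smoothSub) : C_c(ℂ, ℝ)) : ℂ → ℝ) = (a.1 : ℂ → ℝ) + (b.1 : ℂ → ℝ) := rfl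
    rw [h2, h]
    ring
  map_smul' := by
    intro c a
    have ha : ContDiff ℝ 2 (a.1 : ℂ → ℝ) := smoothSub_contDiff a
    have h2 : (((c • a : smoothSub) : C_c(ℂ, ℝ)) : ℂ → ℝ) = c • (a.1 : ℂ → ℝ) := rfl
    rw [h2]
    have h3 : ∫ x, χ x * (Δ (c • (a.1 : ℂ → ℝ))) x = c * ∫ x, χ x * (Δ (a.1 : ℂ → ℝ)) x := by
      rw [← MeasureTheory.integral_const_mul]
      congr 1
      ext x
      rw [lap_smul c _ ha x]
      ring
    rw [h3]
    simp only [RingHom.id_apply, smul_eq_mul]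
    ring

/-- Representation of a positive Laplacian by a measure, with lower bounds on compact sets. -/
theorem exists_measure (χ : ℂ → ℝ) (hχ : LocallyIntegrable χ volume)
    (hpos : ∀ φ : ℂ → ℝ, ContDiff ℝ ∞ φ → HasCompactSupport φ → (∀ x, 0 ≤ φ x) →
      0 ≤ ∫ x, χ x * (Δ φ) x) :
    ∃ T : Measure ℂ, IsFiniteMeasureOnCompacts T ∧
      (∀ φ : ℂ → ℝ, ContDiff ℝ ∞ φ → HasCompactSupport φ →
        ∫ x, φ x ∂T = (2 * π)⁻¹ * ∫ x, χ x * (Δ φ) x) ∧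
      ∀ (K : Set ℂ) (c : ℝ), IsCompact K →
        (∀ φ : ℂ → ℝ, ContDiff ℝ ∞ φ → HasCompactSupport φ → (∀ x, 0 ≤ φ x) →
          (∀ x ∈ K, 1 ≤ φ x) → c ≤ ∫ x, χ x * (Δ φ) x) →
        ENNReal.ofReal ((2 * π)⁻¹ * c) ≤ T K := by
  have hπ := Real.pi_pos
  let f : C_c(ℂ, ℝ) →ₗ.[ℝ] ℝ := ⟨smoothSub, smoothFun χ hχ⟩
  obtain ⟨g, hg1, hg2⟩ := riesz_extension cone f
    (by
      intro φ hφ
      have h1 : 0 ≤ ∫ x, χ x * (Δ ((φ : C_c(ℂ, ℝ)) : ℂ → ℝ)) x :=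
        hpos _ φ.2 (φ : C_c(ℂ, ℝ)).hasCompactSupport hφ
      exact mul_nonneg (by positivity) h1)
    (by
      intro y
      obtain ⟨φ, hφ1, hφ2, -, hφ4, hφ5⟩ := exists_bump (tsupport (y : ℂ → ℝ)) Set.univ
        y.hasCompactSupport isOpen_univ (Set.subset_univ _)
      obtain ⟨C, hC⟩ := y.continuous.bounded_above_of_compact_support y.hasCompactSupport
      have hC0 : 0 ≤ C := (norm_nonneg _).trans (hC 0)
      let φc : C_c(ℂ, ℝ) := ⟨⟨fun x => C * φ x, continuous_const.mul hφ1.continuous⟩,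
        hφ2.mul_left⟩
      have hmem : φc ∈ smoothSub := by
        change ContDiff ℝ ∞ (fun x => C * φ x)
        exact contDiff_const.mul hφ1
      refine ⟨⟨φc, hmem⟩, ?_⟩
      intro x
      change 0 ≤ C * φ x + y x
      by_cases hx : x ∈ tsupport (y : ℂ → ℝ)
      · rw [hφ5 x hx]
        have h3 : ‖y x‖ ≤ C := hC x
        rw [Real.norm_eq_abs] at h3
        have := (abs_le.1 h3).1
        linarith
      · rw [image_eq_zero_of_notMem_tsupport hx]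
        have := (hφ4 x).1
        positivity)
  let Λ : C_c(ℂ, ℝ) →ₚ[ℝ] ℝ := PositiveLinearMap.mk₀ g (by
    intro x hx
    exact hg2 x (fun y => hx y))
  have hΛ : ∀ φ : C_c(ℂ, ℝ), Λ φ = g φ := fun φ => rfl
  have hgs : ∀ (φ : C_c(ℂ, ℝ)), ContDiff ℝ ∞ (φ : ℂ → ℝ) →
      g φ = (2 * π)⁻¹ * ∫ x, χ x * (Δ (φ : ℂ → ℝ)) x := by
    intro φ hφ
    exact hg1 ⟨φ, hφ⟩
  refine ⟨RealRMK.rieszMeasure Λ, inferInstance, ?_, ?_⟩
  · intro φ hφ hc
    let φc : C_c(ℂ, ℝ) := ⟨⟨φ, hφ.continuous⟩, hc⟩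
    have h1 := RealRMK.integral_rieszMeasure Λ φc
    rw [hΛ, hgs φc hφ] at h1
    exact h1
  · intro K c hK hKc
    rw [Set.measure_eq_iInf_isOpen K]
    refine le_iInf fun U => le_iInf fun hKU => le_iInf fun hU => ?_
    obtain ⟨φ, hφ1, hφ2, hφ3, hφ4, hφ5⟩ := exists_bump K U hK hU hKU
    let φc : C_c(ℂ, ℝ) := ⟨⟨φ, hφ1.continuous⟩, hφ2⟩
    have h1 := RealRMK.le_rieszMeasure_tsupport_subset Λ (f := φc) hφ4 hφ3
    refine le_trans ?_ h1
    apply ENNReal.ofReal_le_ofReal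
    rw [hΛ, hgs φc hφ1]
    apply mul_le_mul_of_nonneg_left _ (by positivity)
    exact hKc φ hφ1 hφ2 (fun x => (hφ4 x).1) (fun x hx => (hφ5 x hx).ge)

end Pool.Agent.Work.MP_bed24d_an
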