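import Mathlib

set_option autoImplicit false

open Filter Topology

namespace Pool.Agent.Work.MP_bed24d_an

variable {G : Type} [Group G]

/-- integral of `f` against the finitely supported measure `ν` -/
noncomputable def EE (f : G → ℝ) : MonoidAlgebra ℝ G →ₗ[ℝ] ℝ where
  toFun ν := ν.coeff.sum fun g c => c * f g
  map_add' := by
    intro a b
    rw [MonoidAlgebra.coeff_add, Finsupp.sum_add_index']
    · simp
    · intro g c d
      ring
  map_smul' := by
    intro r a
    rw [MonoidAlgebra.coeff_smul, Finsupp.sum_smul_index']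
    · simp only [smul_eq_mul, RingHom.id_apply]
      rw [Finsupp.mul_sum]
      congr 1
      ext g c
      ring
    · simp

lemma EE_apply (f : G → ℝ) (ν : MonoidAlgebra ℝ G) :
    EE f ν = ν.coeff.sum fun g c => c * f g := rfl

@[simp] lemma EE_single (f : G → ℝ) (g : G) (r : ℝ) : EE f (MonoidAlgebra.single g r) = r * f g := by
  rw [EE_apply, MonoidAlgebra.coeff_single, Finsupp.sum_single_index]
  simp

lemma EE_add_fun (f f' : G → ℝ) (ν : MonoidAlgebra ℝ G) :
    EE (fun g => f g + f' g) ν = EE f ν + EE f' ν := by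
  simp only [EE_apply]
  rw [← Finsupp.sum_add]
  congr 1
  ext g c
  ring

lemma EE_smul_fun (a : ℝ) (f : G → ℝ) (ν : MonoidAlgebra ℝ G) :
    EE (fun g => a * f g) ν = a * EE f ν := by
  simp only [EE_apply]
  rw [Finsupp.mul_sum]
  congr 1
  ext g c
  ring

lemma EE_mul (f : G → ℝ) (ν ν' : MonoidAlgebra ℝ G) :
    EE f (ν * ν') = EE (fun g => EE (fun h => f (g * h)) ν') ν := by
  induction ν using MonoidAlgebra.induction_linear with
  | zero => simp
  | add a b ha hb => rw [add_mul, map_add, ha, hb, map_add]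
  | single g r =>
    rw [EE_single]
    induction ν' using MonoidAlgebra.induction_linear with
    | zero => simp
    | add a b ha hb => rw [mul_add, map_add, ha, hb, map_add, mul_add]
    | single h s =>
      rw [MonoidAlgebra.single_mul_single, EE_single, EE_single]
      ring

lemma EE_mul_single (f : G → ℝ) (ν : MonoidAlgebra ℝ G) (h : G) (s : ℝ) :
    EE f (ν * MonoidAlgebra.single h s) = s * EE (fun g => f (g * h)) ν := by
  rw [EE_mul]
  simp only [EE_single]
  rw [EE_smul_fun]

/-- positivity -/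
def Pos (ν : MonoidAlgebra ℝ G) : Prop := ∀ f : G → ℝ, (∀ g, 0 ≤ f g) → 0 ≤ EE f ν

lemma Pos.of_coeff {ν : MonoidAlgebra ℝ G} (h : ∀ g, 0 ≤ ν.coeff g) : Pos ν := by
  intro f hf
  rw [EE_apply]
  apply Finset.sum_nonneg
  intro g _
  exact mul_nonneg (h g) (hf g)

lemma Pos.mul {ν ν' : MonoidAlgebra ℝ G} (h : Pos ν) (h' : Pos ν') : Pos (ν * ν') := by
  intro f hf
  rw [EE_mul]
  exact h _ fun g => h' _ fun g' => hf _

lemma Pos.one : Pos (1 : MonoidAlgebra ℝ G) := by
  intro f hf
  rw [MonoidAlgebra.one_def, EE_single]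
  simpa using hf 1

lemma Pos.pow {ν : MonoidAlgebra ℝ G} (h : Pos ν) (n : ℕ) : Pos (ν ^ n) := by
  induction n with
  | zero => rw [pow_zero]; exact Pos.one
  | succ n ih => rw [pow_succ]; exact ih.mul h

lemma Pos.mono {ν : MonoidAlgebra ℝ G} (h : Pos ν) (f f' : G → ℝ) (hf : ∀ g, f g ≤ f' g) :
    EE f ν ≤ EE f' ν := by
  have h1 := h (fun g => f' g + (-1) * f g) (fun g => by linarith [hf g])
  rw [EE_add_fun, EE_smul_fun] at h1
  linarith

lemma EE_const (a : ℝ) (ν : MonoidAlgebra ℝ G) :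
    EE (fun _ : G => a) ν = a * EE (fun _ : G => (1:ℝ)) ν := by
  rw [← EE_smul_fun]
  simp

lemma mass_pow {ν : MonoidAlgebra ℝ G} (h : EE (fun _ : G => (1:ℝ)) ν = 1) (n : ℕ) :
    EE (fun _ : G => (1:ℝ)) (ν ^ n) = 1 := by
  induction n with
  | zero => rw [pow_zero, MonoidAlgebra.one_def, EE_single, mul_one]
  | succ n ih =>
    rw [pow_succ, EE_mul, h, ih]

/-- subadditivity -/
lemma EE_subadd {ν : MonoidAlgebra ℝ G} (hp : Pos ν) (h1 : EE (fun _ : G => (1:ℝ)) ν = 1)
    (L : G → ℝ) (hL : ∀ g h, L (g * h) ≤ L g + L h) (m n : ℕ) :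
    EE L (ν ^ (m + n)) ≤ EE L (ν ^ m) + EE L (ν ^ n) := by
  rw [pow_add, EE_mul]
  calc EE (fun g => EE (fun h => L (g * h)) (ν ^ n)) (ν ^ m)
      ≤ EE (fun g => L g + EE L (ν ^ n)) (ν ^ m) := by
        apply (hp.pow m).mono
        intro g
        calc EE (fun h => L (g * h)) (ν ^ n) ≤ EE (fun h => L g + L h) (ν ^ n) := by
              apply (hp.pow n).mono
              intro h
              exact hL g h
          _ = L g + EE L (ν ^ n) := by
              rw [EE_add_fun, EE_const, mass_pow h1, mul_one]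
    _ = EE L (ν ^ m) + EE L (ν ^ n) := by
        rw [EE_add_fun, EE_const, mass_pow h1, mul_one]

end Pool.Agent.Work.MP_bed24d_an
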