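import Mathlib

set_option autoImplicit false

open MeasureTheory Filter Topology InnerProductSpace Laplacian
open scoped ContDiff MatrixGroups LinearAlgebra.Projectivization ComplexOrder

namespace Pool.Agent.Work.MP_bed24d_an

/-- The group `PSL(2, ℂ)`, the quotient of `SL(2, ℂ)` by its center `{1, -1}`. -/
abbrev PSL2C : Type := Matrix.ProjectiveSpecialLinearGroup (Fin 2) ℂ

/-- The class in `PSL(2, ℂ)` of a matrix in `SL(2, ℂ)`. -/
noncomputable def cls (M : Matrix.SpecialLinearGroup (Fin 2) ℂ) : PSL2C := QuotientGroup.mk M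

/-- The norm of an element of `PSL(2, ℂ)`: the Frobenius norm of either of the two matrices
`M`, `-M` which represent it. -/
noncomputable def pslNorm (g : PSL2C) : ℝ :=
  Real.sqrt (∑ i, ∑ j, ‖(Quotient.out g).1 i j‖ ^ 2)

/-- A family `ρ` of representations of `G` in `PSL(2, ℂ)`, indexed by the complex plane, is
holomorphic: for every `g` in `G` the map `x ↦ ρ x g` lifts to a map to `SL(2, ℂ)` with entire
matrix entries. (The plane is simply connected and `SL(2, ℂ) → PSL(2, ℂ)` is a covering, so this is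
holomorphy of `x ↦ ρ x g`.) -/
def IsHolomorphicFamily {G : Type} [Group G] (ρ : ℂ → G →* PSL2C) : Prop :=
  ∀ g : G, ∃ M : ℂ → Matrix.SpecialLinearGroup (Fin 2) ℂ, (∀ x, ρ x g = cls (M x)) ∧
    ∀ i j, Differentiable ℂ fun x => (M x).1 i j

/-- A representation `r : G → PSL(2, ℂ)` is non-elementary: it has no finite orbit in the boundary
`ℙ¹(ℂ)` of hyperbolic 3-space and no finite orbit in hyperbolic 3-space. The latter is modelled by
positive definite Hermitian matrices `h`, on which the class of `M` acts by `h ↦ M h M*`. -/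
def NonElementary {G : Type} [Group G] (r : G →* PSL2C) : Prop :=
  (∀ p : ℙ ℂ (Fin 2 → ℂ), (Set.range fun g : G => r g • p).Infinite) ∧
  (∀ h : Matrix (Fin 2) (Fin 2) ℂ, h.PosDef →
    {K : Matrix (Fin 2) (Fin 2) ℂ | ∃ g : G, ∃ M : Matrix.SpecialLinearGroup (Fin 2) ℂ,
      r g = cls M ∧ K = M.1 * h * M.1.conjTranspose}.Infinite)

/-- The set of parameters at which the representation is conjugate in `PSL(2, ℂ)` to a
representation with values in `PSL(2, ℝ)`. -/
def realLocus {G : Type} [Group G] (ρ : ℂ → G →* PSL2C) : Set ℂ :=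
  {x | ∃ c : PSL2C, ∀ g : G, ∃ N : Matrix.SpecialLinearGroup (Fin 2) ℝ,
    c * ρ x g * c⁻¹ = cls (Matrix.SpecialLinearGroup.map Complex.ofRealHom N)}

/-- `μ` is an admissible probability measure on `G`: a finitely supported probability measure
(viewed as an element of the real group algebra, whose product is convolution) whose support
generates `G` as a semigroup. -/
def Admissible {G : Type} [Group G] (μ : MonoidAlgebra ℝ G) : Prop :=
  (∀ g, 0 ≤ μ.coeff g) ∧ (μ.coeff.sum fun _ c => c) = 1 ∧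
    Subsemigroup.closure (μ.coeff.support : Set G) = ⊤

/-- `χ x` is the Lyapunov exponent of `ρ x` for the measure `μ`:
`χ x = lim (1/n) ∫ log ‖ρ x g‖ dμⁿ(g)`, with `μⁿ` the `n`-th convolution power. -/
def IsLyapunov {G : Type} [Group G] (ρ : ℂ → G →* PSL2C) (μ : MonoidAlgebra ℝ G)
    (χ : ℂ → ℝ) : Prop :=
  ∀ x, Tendsto (fun n : ℕ => (1 / (n : ℝ)) *
    (μ ^ n).coeff.sum fun g c => c * Real.log (pslNorm (ρ x g))) atTop (𝓝 (χ x))

/-- The measure `T` is `dd^c χ`, that is `(1/2π) Δ χ` in the sense of distributions. -/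
def IsDdc (χ : ℂ → ℝ) (T : Measure ℂ) : Prop :=
  LocallyIntegrable χ volume ∧ IsFiniteMeasureOnCompacts T ∧
    ∀ φ : ℂ → ℝ, ContDiff ℝ ∞ φ → HasCompactSupport φ →
      ∫ x, φ x ∂T = (2 * Real.pi)⁻¹ * ∫ x, χ x * (Δ φ) x

end Pool.Agent.Work.MP_bed24d_an
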