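import Mathlib
import Pool.Agent.Work.MP_bed24d_an.A8
import Pool.Agent.Work.MP_bed24d_an.A9
import Pool.Agent.Work.MP_bed24d_an.Defs

set_option autoImplicit false

open MeasureTheory Filter Topology Real Complex InnerProductSpace Laplacian
open scoped ContDiff ENNReal

namespace Pool.Agent.Work.MP_bed24d_an

lemma cls_mul (M N : Matrix.SpecialLinearGroup (Fin 2) ℂ) : cls (M * N) = cls M * cls N := rfl
lemma cls_one : cls 1 = 1 := rfl
lemma cls_inv (M : Matrix.SpecialLinearGroup (Fin 2) ℂ) : cls M⁻¹ = (cls M)⁻¹ := rfl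

lemma cls_eq_iff (M N : Matrix.SpecialLinearGroup (Fin 2) ℂ) :
    cls N = cls M ↔ (M.1 = N.1 ∨ M.1 = - N.1) := by
  unfold cls
  rw [QuotientGroup.eq, Matrix.SpecialLinearGroup.mem_center_iff]
  constructor
  · rintro ⟨r, hr, hr2⟩
    have h1 : (N * (N⁻¹ * M)).1 = N.1 * (N⁻¹ * M).1 := rfl
    rw [mul_inv_cancel_left] at h1
    have h3 : (N⁻¹ * M).1 = Matrix.scalar (Fin 2) r := hr2.symm
    rw [h3] at h1
    have hr' : r = 1 ∨ r = -1 := by
      rw [Fintype.card_fin] at hr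
      exact sq_eq_one_iff.1 hr
    rcases hr' with h | h
    · left
      rw [h1, h]
      simp
    · right
      rw [h1, h]
      ext i j
      simp [Matrix.mul_apply, Matrix.scalar_apply, Matrix.diagonal_apply]
  · rintro (h | h)
    · refine ⟨1, by simp, ?_⟩
      have : M = N := Subtype.ext h
      rw [this]
      simp
    · refine ⟨-1, by simp, ?_⟩
      have h1 : (N⁻¹ * M).1 = N⁻¹.1 * M.1 := rfl
      have h2 : N⁻¹.1 * N.1 = 1 := by
        have : (N⁻¹ * N).1 = N⁻¹.1 * N.1 := rfl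
        rw [← this, inv_mul_cancel]
        rfl
      rw [h1, h, mul_neg, h2]
      ext i j
      simp [Matrix.scalar_apply, Matrix.diagonal_apply, Matrix.one_apply]
      split_ifs <;> simp

lemma out_cls (M : Matrix.SpecialLinearGroup (Fin 2) ℂ) :
    (Quotient.out (cls M)).1 = M.1 ∨ (Quotient.out (cls M)).1 = - M.1 := by
  have h : cls (Quotient.out (cls M)) = cls M := Quotient.out_eq (cls M)
  rw [cls_eq_iff] at h
  rcases h with h | h
  · left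
    exact h.symm
  · right
    rw [h, neg_neg]

lemma fro_neg (M : Matrix (Fin 2) (Fin 2) ℂ) : fro (-M) = fro M := by
  unfold fro
  simp

lemma pslNorm_cls (M : Matrix.SpecialLinearGroup (Fin 2) ℂ) : pslNorm (cls M) = fro M.1 := by
  have h : pslNorm (cls M) = fro (Quotient.out (cls M)).1 := rfl
  rw [h]
  rcases out_cls M with h | h
  · rw [h]
  · rw [h, fro_neg]

/-- the averaged potential on `PSL(2, ℂ)` -/
noncomputable def VP (y : PSL2C) : ℝ := VV (Quotient.out y).1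

lemma VP_cls (M : Matrix.SpecialLinearGroup (Fin 2) ℂ) : VP (cls M) = VV M.1 := by
  unfold VP
  rcases out_cls M with h | h
  · rw [h]
  · rw [h, VV_neg]

lemma exists_rep (y : PSL2C) : ∃ M : Matrix.SpecialLinearGroup (Fin 2) ℂ, y = cls M :=
  ⟨Quotient.out y, (Quotient.out_eq y).symm⟩

lemma cs_two (a b c d : ℂ) :
    ‖a * c + b * d‖ ^ 2 ≤ (‖a‖ ^ 2 + ‖b‖ ^ 2) * (‖c‖ ^ 2 + ‖d‖ ^ 2) := by
  have h1 : ‖a * c + b * d‖ ≤ ‖a‖ * ‖c‖ + ‖b‖ * ‖d‖ := by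
    calc ‖a * c + b * d‖ ≤ ‖a * c‖ + ‖b * d‖ := norm_add_le _ _
      _ = _ := by rw [norm_mul, norm_mul]
  have h0 := norm_nonneg (a * c + b * d)
  calc ‖a * c + b * d‖ ^ 2 ≤ (‖a‖ * ‖c‖ + ‖b‖ * ‖d‖) ^ 2 := by gcongr
    _ ≤ _ := by nlinarith [sq_nonneg (‖a‖ * ‖d‖ - ‖b‖ * ‖c‖)]

lemma fro_sq (M : Matrix (Fin 2) (Fin 2) ℂ) :
    fro M ^ 2 = ‖M 0 0‖ ^ 2 + ‖M 0 1‖ ^ 2 + (‖M 1 0‖ ^ 2 + ‖M 1 1‖ ^ 2) := by
  unfold fro
  rw [Real.sq_sqrt (by positivity)]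
  simp [Fin.sum_univ_two]

lemma fro_nonneg (M : Matrix (Fin 2) (Fin 2) ℂ) : 0 ≤ fro M := Real.sqrt_nonneg _

lemma fro_mul (M N : Matrix (Fin 2) (Fin 2) ℂ) : fro (M * N) ≤ fro M * fro N := by
  apply le_of_sq_le_sq' (fro_nonneg _) (mul_nonneg (fro_nonneg _) (fro_nonneg _))
  rw [mul_pow, fro_sq, fro_sq, fro_sq]
  simp only [Matrix.mul_apply, Fin.sum_univ_two]
  have h1 := cs_two (M 0 0) (M 0 1) (N 0 0) (N 1 0)
  have h2 := cs_two (M 0 0) (M 0 1) (N 0 1) (N 1 1)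
  have h3 := cs_two (M 1 0) (M 1 1) (N 0 0) (N 1 0)
  have h4 := cs_two (M 1 0) (M 1 1) (N 0 1) (N 1 1)
  nlinarith
where
  le_of_sq_le_sq' {a b : ℝ} (ha : 0 ≤ a) (hb : 0 ≤ b) (h : a ^ 2 ≤ b ^ 2) : a ≤ b := by
    exact (sq_le_sq₀ ha hb).1 h

lemma pslNorm_ge_one (y : PSL2C) : 1 ≤ pslNorm y := by
  obtain ⟨M, rfl⟩ := exists_rep y
  rw [pslNorm_cls]
  exact fro_ge_one M.1 M.2

lemma log_pslNorm_nonneg (y : PSL2C) : 0 ≤ Real.log (pslNorm y) :=
  Real.log_nonneg (pslNorm_ge_one y)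

lemma log_pslNorm_mul (y z : PSL2C) :
    Real.log (pslNorm (y * z)) ≤ Real.log (pslNorm y) + Real.log (pslNorm z) := by
  have hy := pslNorm_ge_one y
  have hz := pslNorm_ge_one z
  have hyz := pslNorm_ge_one (y * z)
  rw [← Real.log_mul (by positivity) (by positivity)]
  apply Real.log_le_log (by positivity)
  obtain ⟨M, rfl⟩ := exists_rep y
  obtain ⟨N, rfl⟩ := exists_rep z
  rw [← cls_mul, pslNorm_cls, pslNorm_cls, pslNorm_cls]
  exact fro_mul M.1 N.1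

lemma VP_bounds (y : PSL2C) :
    2 * π * Real.log (pslNorm y) - 2 * π * Real.log 4 ≤ VP y ∧
    VP y ≤ 2 * π * Real.log (pslNorm y) + 2 * π * Real.log 4 := by
  obtain ⟨M, rfl⟩ := exists_rep y
  rw [pslNorm_cls, VP_cls]
  exact ⟨le_VV M.1 M.2, VV_le M.1 M.2⟩

end Pool.Agent.Work.MP_bed24d_an
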