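import Mathlib
import Pool.Agent.Work.MP_bed24d_an.A10

set_option autoImplicit false

open MeasureTheory Filter Topology Real Complex InnerProductSpace Laplacian
open scoped ContDiff ENNReal

namespace Pool.Agent.Work.MP_bed24d_an

variable {G : Type} [Group G]

/-- finite sums of continuous functions -/
lemma EE_continuous (F : ℂ → G → ℝ) (hF : ∀ g, Continuous fun x => F x g)
    (ν : MonoidAlgebra ℝ G) : Continuous (fun x => EE (F x) ν) := by
  simp only [EE_apply, Finsupp.sum]
  apply continuous_finsetSum
  intro g _
  exact continuous_const.mul (hF g)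

lemma EE_integral (F : ℂ → G → ℝ) (D : ℂ → ℝ) (hF : ∀ g, Integrable fun x => F x g * D x)
    (ν : MonoidAlgebra ℝ G) :
    ∫ x, EE (F x) ν * D x = EE (fun g => ∫ x, F x g * D x) ν := by
  simp only [EE_apply, Finsupp.sum]
  simp_rw [Finset.sum_mul]
  rw [integral_finsetSum]
  · apply Finset.sum_congr rfl
    intro g _
    rw [← MeasureTheory.integral_const_mul]
    congr 1
    ext x
    ring
  · intro g _
    have := (hF g).const_mul (ν.coeff g)
    refine this.congr (Eventually.of_forall fun x => ?_)
    simp only
    ring

lemma fro_continuous (M : ℂ → Matrix.SpecialLinearGroup (Fin 2) ℂ)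
    (hM : ∀ i j, Differentiable ℂ fun x => (M x).1 i j) : Continuous fun x => fro (M x).1 := by
  unfold fro
  apply Real.continuous_sqrt.comp
  apply continuous_finsetSum
  intro i _
  apply continuous_finsetSum
  intro j _
  exact ((hM i j).continuous.norm).pow 2

lemma logNorm_continuous (ρ : ℂ → G →* PSL2C) (hρ : IsHolomorphicFamily ρ) (g : G) :
    Continuous fun x => Real.log (pslNorm (ρ x g)) := by
  obtain ⟨M, hM1, hM2⟩ := hρ g
  have : (fun x => Real.log (pslNorm (ρ x g))) = fun x => Real.log (fro (M x).1) := by
    ext x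
    rw [hM1 x, pslNorm_cls]
  rw [this]
  apply (fro_continuous M hM2).log
  intro x
  have := fro_ge_one (M x).1 (M x).2
  positivity

/-- A version of continuity under an interval integral for the potential. -/
lemma VV_continuous (M : ℂ → Matrix (Fin 2) (Fin 2) ℂ) (hdet : ∀ x, (M x).det = 1)
    (hent : ∀ i j, Differentiable ℂ (fun x => M x i j)) : Continuous fun x => VV (M x) := by
  have hFFc : ∀ i, Continuous (fun p : ℂ × ℝ => FF (M p.1) i p.2) := by
    intro i
    unfold FF
    have h0 : ∀ j, Continuous (fun p : ℂ × ℝ => M p.1 i j) := fun j =>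
      (hent i j).continuous.comp continuous_fst
    exact ((h0 0).mul (Complex.continuous_ofReal.comp (Real.continuous_cos.comp
      (continuous_snd.div_const 2)))).add ((h0 1).mul (Complex.continuous_ofReal.comp
      (Real.continuous_sin.comp (continuous_snd.div_const 2))))
  have hUc : Continuous (fun p : ℂ × ℝ => UU (M p.1) p.2) := by
    unfold UU
    apply Continuous.log
    · unfold PP QQ
      have h0 := hFFc 0
      have h1 := hFFc 1
      fun_prop
    · intro p
      exact (max_PQ_pos (M p.1) (hdet p.1) p.2).ne'
  have h1 : Continuous (fun x => ∫ t in (0:ℝ)..(2 * π), UU (M x) t) := by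
    apply intervalIntegral.continuous_parametric_intervalIntegral_of_continuous'
    exact hUc
  have h2 : (fun x => VV (M x)) = fun x => ∫ t in (0:ℝ)..(2 * π), UU (M x) t := by
    ext x
    unfold VV
    rw [intervalIntegral.integral_of_le Real.two_pi_pos.le]
  rw [h2]
  exact h1

lemma VP_continuous (ρ : ℂ → G →* PSL2C) (hρ : IsHolomorphicFamily ρ) (g : G) :
    Continuous fun x => VP (ρ x g) := by
  obtain ⟨M, hM1, hM2⟩ := hρ g
  have : (fun x => VP (ρ x g)) = fun x => VV (M x).1 := by
    ext x
    rw [hM1 x, VP_cls]
  rw [this]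
  exact VV_continuous (fun x => (M x).1) (fun x => (M x).2) hM2

/-- Existence of the Lyapunov exponent and comparison with the averaged potentials. -/
theorem lyapunov_exists (ρ : ℂ → G →* PSL2C) (hρ : IsHolomorphicFamily ρ)
    (μ : MonoidAlgebra ℝ G) (hpos : Pos μ) (h1 : EE (fun _ : G => (1:ℝ)) μ = 1) :
    ∃ χ : ℂ → ℝ, IsLyapunov ρ μ χ ∧ LocallyIntegrable χ volume ∧
      ∀ (φ : ℂ → ℝ) (c : ℝ), ContDiff ℝ 2 φ → HasCompactSupport φ →
        (∀ n : ℕ, c * n ≤ EE (fun g => ∫ x, VP (ρ x g) * (Δ φ) x) (μ ^ n)) →
        c ≤ 2 * π * ∫ x, χ x * (Δ φ) x := by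
  set a : ℕ → ℂ → ℝ := fun n x => EE (fun g => Real.log (pslNorm (ρ x g))) (μ ^ n) with ha
  have hsub : ∀ x, Subadditive (fun n => a n x) := by
    intro x m n
    apply EE_subadd hpos h1
    intro g h
    rw [map_mul]
    exact log_pslNorm_mul _ _
  have hann : ∀ n x, 0 ≤ a n x := by
    intro n x
    exact (hpos.pow n) _ fun g => log_pslNorm_nonneg _
  have hbdd : ∀ x, BddBelow (Set.range fun n : ℕ => a n x / n) := by
    intro x
    refine ⟨0, ?_⟩
    rintro _ ⟨n, rfl⟩
    exact div_nonneg (hann n x) (Nat.cast_nonneg n)
  set χ : ℂ → ℝ := fun x => (hsub x).lim with hχ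
  have hlim : ∀ x, Tendsto (fun n : ℕ => a n x / n) atTop (𝓝 (χ x)) := fun x =>
    (hsub x).tendsto_lim (hbdd x)
  have hacont : ∀ n, Continuous (a n) := fun n =>
    EE_continuous _ (logNorm_continuous ρ hρ) (μ ^ n)
  have ha_le : ∀ n : ℕ, 1 ≤ n → ∀ x, a n x ≤ n * a 1 x := by
    intro n hn x
    induction n, hn using Nat.le_induction with
    | base => simp
    | succ n hn ih =>
      have := hsub x n 1
      push_cast
      linarith
  have ha_div : ∀ n : ℕ, 1 ≤ n → ∀ x, a n x / n ≤ a 1 x := by
    intro n hn x
    have hn' : (0:ℝ) < n := by exact_mod_cast hn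
    rw [div_le_iff₀ hn']
    have := ha_le n hn x
    linarith
  have ha_div0 : ∀ (n : ℕ) x, 0 ≤ a n x / n := fun n x => div_nonneg (hann n x) (Nat.cast_nonneg n)
  have hχ0 : ∀ x, 0 ≤ χ x := fun x => ge_of_tendsto' (hlim x) fun n => ha_div0 n x
  have hχ1 : ∀ x, χ x ≤ a 1 x := fun x => by
    apply le_of_tendsto (hlim x)
    filter_upwards [eventually_ge_atTop 1] with n hn
    exact ha_div n hn x
  have hχm : Measurable χ := by
    apply measurable_of_tendsto_metrizable (f := fun (n : ℕ) x => a n x / n)
    · intro n
      exact ((hacont n).div_const _).measurable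
    · rw [tendsto_pi_nhds]
      exact hlim
  have hχli : LocallyIntegrable χ volume := by
    have h2 : LocallyIntegrable (a 1) volume := (hacont 1).locallyIntegrable
    refine h2.mono hχm.aestronglyMeasurable (Eventually.of_forall fun x => ?_)
    rw [Real.norm_of_nonneg (hχ0 x), Real.norm_of_nonneg (hann 1 x)]
    exact hχ1 x
  refine ⟨χ, ?_, hχli, ?_⟩
  · intro x
    have h2 := hlim x
    refine h2.congr fun n => ?_
    rw [ha]
    simp only [EE_apply]
    rw [div_eq_inv_mul, one_div]
  · intro φ c hφ hc hlow
    set D : ℂ → ℝ := Δ φ with hD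
    have hDc : Continuous D := lap_continuous φ hφ
    have hDs : HasCompactSupport D := lap_compact φ hc
    have iD : Integrable D := hDc.integrable_of_hasCompactSupport hDs
    -- convergence of the pairings
    have hconv : Tendsto (fun n : ℕ => ∫ x, a n x / n * D x) atTop (𝓝 (∫ x, χ x * D x)) := by
      apply tendsto_integral_filter_of_dominated_convergence (fun x => a 1 x * ‖D x‖)
      · apply Eventually.of_forall
        intro n
        exact (((hacont n).div_const _).mul hDc).aestronglyMeasurable
      · filter_upwards [eventually_ge_atTop 1] with n hn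
        apply Eventually.of_forall
        intro x
        rw [norm_mul, Real.norm_of_nonneg (ha_div0 n x)]
        exact mul_le_mul_of_nonneg_right (ha_div n hn x) (norm_nonneg _)
      · have h3 : HasCompactSupport (fun x => a 1 x * ‖D x‖) :=
          (hDs.norm).mul_left
        exact ((hacont 1).mul hDc.norm).integrable_of_hasCompactSupport h3
      · apply Eventually.of_forall
        intro x
        exact (hlim x).mul_const _
    -- comparison
    set v : ℕ → ℂ → ℝ := fun n x => EE (fun g => VP (ρ x g)) (μ ^ n) with hv
    have hvcont : ∀ n, Continuous (v n) := fun n => EE_continuous _ (VP_continuous ρ hρ) (μ ^ n)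
    set C : ℝ := 2 * π * Real.log 4 with hC
    have hcmp : ∀ n x, |v n x - 2 * π * a n x| ≤ C := by
      intro n x
      have hu : v n x ≤ 2 * π * a n x + C := by
        calc v n x ≤ EE (fun g => 2 * π * Real.log (pslNorm (ρ x g)) + C) (μ ^ n) :=
              (hpos.pow n).mono _ _ fun g => (VP_bounds _).2
          _ = 2 * π * a n x + C := by
              rw [EE_add_fun, EE_smul_fun, EE_const, mass_pow h1, mul_one]
      have hl : 2 * π * a n x + (-C) ≤ v n x := by
        calc 2 * π * a n x + (-C) =
              EE (fun g => 2 * π * Real.log (pslNorm (ρ x g)) + (-C)) (μ ^ n) := by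
              rw [EE_add_fun, EE_smul_fun, EE_const, mass_pow h1, mul_one]
          _ ≤ v n x := by
              apply (hpos.pow n).mono
              intro g
              have := (VP_bounds (ρ x g)).1
              linarith
      rw [abs_le]
      constructor <;> linarith
    have hvD : ∀ n, ∫ x, v n x * D x = EE (fun g => ∫ x, VP (ρ x g) * D x) (μ ^ n) := by
      intro n
      apply EE_integral
      intro g
      exact ((VP_continuous ρ hρ g).mul hDc).integrable_of_hasCompactSupport hDs.mul_left
    have ivD : ∀ n, Integrable fun x => v n x * D x := fun n =>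
      ((hvcont n).mul hDc).integrable_of_hasCompactSupport hDs.mul_left
    have iaD : ∀ n, Integrable fun x => a n x * D x := fun n =>
      ((hacont n).mul hDc).integrable_of_hasCompactSupport hDs.mul_left
    set A : ℝ := ∫ x, ‖D x‖ with hA
    have hlowa : ∀ n : ℕ, 1 ≤ n → c - C * A / n ≤ 2 * π * ∫ x, a n x / n * D x := by
      intro n hn
      have hn' : (0:ℝ) < n := by exact_mod_cast hn
      have h4 : ∫ x, v n x * D x - 2 * π * (a n x * D x) ≤ C * A := by
        rw [hA, ← MeasureTheory.integral_const_mul]
        apply integral_mono ((ivD n).sub ((iaD n).const_mul _)) (iD.norm.const_mul C)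
        intro x
        simp only
        calc v n x * D x - 2 * π * (a n x * D x) = (v n x - 2 * π * a n x) * D x := by ring
          _ ≤ |(v n x - 2 * π * a n x) * D x| := le_abs_self _
          _ = |v n x - 2 * π * a n x| * ‖D x‖ := by rw [abs_mul, Real.norm_eq_abs]
          _ ≤ C * ‖D x‖ := mul_le_mul_of_nonneg_right (hcmp n x) (norm_nonneg _)
      rw [integral_sub (ivD n) ((iaD n).const_mul _), MeasureTheory.integral_const_mul, hvD] at h4
      have h5 := hlow n
      have h6 : 2 * π * ∫ x, a n x / n * D x = (2 * π * ∫ x, a n x * D x) / n := by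
        have : ∫ x, a n x / n * D x = (∫ x, a n x * D x) / n := by
          rw [← integral_div]
          congr 1
          ext x
          ring
        rw [this]
        ring
      rw [h6, le_div_iff₀ hn']
      have h7 : (c - C * A / n) * n = c * n - C * A := by
        field_simp
      rw [h7]
      linarith
    have hconv2 : Tendsto (fun n : ℕ => 2 * π * ∫ x, a n x / n * D x) atTop
        (𝓝 (2 * π * ∫ x, χ x * D x)) := hconv.const_mul _
    have hconv3 : Tendsto (fun n : ℕ => c - C * A / n) atTop (𝓝 (c - 0)) := by
      apply tendsto_const_nhds.sub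
      exact tendsto_const_div_atTop_nhds_zero_nat (C * A)
    rw [sub_zero] at hconv3
    apply le_of_tendsto_of_tendsto hconv3 hconv2
    filter_upwards [eventually_ge_atTop 1] with n hn
    exact hlowa n hn

end Pool.Agent.Work.MP_bed24d_an
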