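import Mathlib
import Pool.Agent.Work.MP_bed24d_an.A11

set_option autoImplicit false

open MeasureTheory Filter Topology Real Complex InnerProductSpace Laplacian
open scoped ContDiff ENNReal

namespace Pool.Agent.Work.MP_bed24d_an

/-- rotation matrix with complex angle -/
noncomputable def rotM (z : ℂ) : Matrix.SpecialLinearGroup (Fin 2) ℂ :=
  ⟨!![Complex.cos z, -Complex.sin z; Complex.sin z, Complex.cos z], by
    rw [Matrix.det_fin_two_of]
    have := Complex.cos_sq_add_sin_sq z
    linear_combination this⟩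

/-- diagonal matrix -/
noncomputable def diagM (d : ℝ) (hd : d ≠ 0) : Matrix.SpecialLinearGroup (Fin 2) ℂ :=
  ⟨!![(d : ℂ), 0; 0, (d : ℂ)⁻¹], by
    rw [Matrix.det_fin_two_of]
    have : (d : ℂ) ≠ 0 := by exact_mod_cast hd
    field_simp
    ring⟩

lemma rotM_mul (z w : ℂ) : rotM z * rotM w = rotM (z + w) := by
  apply Subtype.ext
  have h : (rotM z * rotM w).1 = (rotM z).1 * (rotM w).1 := rfl
  rw [h]
  simp only [rotM, Complex.cos_add, Complex.sin_add]
  ext i j
  fin_cases i <;> fin_cases j <;>
    simp [Matrix.mul_apply, Fin.sum_univ_two] <;> ring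

lemma rotM_zero : rotM 0 = 1 := by
  apply Subtype.ext
  ext i j
  fin_cases i <;> fin_cases j <;> simp [rotM]

lemma rotM_inv (z : ℂ) : (rotM z)⁻¹ = rotM (-z) := by
  apply inv_eq_of_mul_eq_one_right
  rw [rotM_mul, add_neg_cancel, rotM_zero]

lemma diagM_mul (d e : ℝ) (hd : d ≠ 0) (he : e ≠ 0) :
    diagM d hd * diagM e he = diagM (d * e) (mul_ne_zero hd he) := by
  apply Subtype.ext
  have h : (diagM d hd * diagM e he).1 = (diagM d hd).1 * (diagM e he).1 := rfl
  rw [h]
  simp only [diagM]
  ext i j
  fin_cases i <;> fin_cases j <;>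
    simp [Matrix.mul_apply, Fin.sum_univ_two, mul_comm]

lemma diagM_one : diagM 1 one_ne_zero = 1 := by
  apply Subtype.ext
  ext i j
  fin_cases i <;> fin_cases j <;> simp [diagM]

lemma diagM_inv (d : ℝ) (hd : d ≠ 0) : (diagM d hd)⁻¹ = diagM d⁻¹ (inv_ne_zero hd) := by
  apply inv_eq_of_mul_eq_one_right
  rw [diagM_mul]
  have : ∀ e : ℝ, ∀ he : e ≠ 0, e = 1 → diagM e he = 1 := by
    rintro e he rfl
    exact diagM_one
  exact this _ _ (mul_inv_cancel₀ hd)

lemma FF_mul (N M : Matrix (Fin 2) (Fin 2) ℂ) (i : Fin 2) (t : ℝ) :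
    FF (N * M) i t = N i 0 * FF M 0 t + N i 1 * FF M 1 t := by
  unfold FF
  simp only [Matrix.mul_apply, Fin.sum_univ_two]
  ring

/-- A family of elements of `PSL(2, ℂ)` whose angles turn by `k π` on `[0, π]`. -/
def Good (g : ℂ → PSL2C) (k : ℤ) : Prop :=
  ∃ M : ℂ → Matrix.SpecialLinearGroup (Fin 2) ℂ, (∀ x, g x = cls (M x)) ∧
    (∀ i j, Differentiable ℂ fun x => (M x).1 i j) ∧
    ∀ t : ℝ, ∃ R θ : ℝ → ℝ, Continuous θ ∧
      (∀ x : ℝ, FF (M x).1 0 t = (R x * Real.cos (θ x) : ℝ)) ∧
      (∀ x : ℝ, FF (M x).1 1 t = (R x * Real.sin (θ x) : ℝ)) ∧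
      θ π = θ 0 + k * π

lemma Good.one : Good 1 0 := by
  refine ⟨fun _ => 1, fun x => rfl, fun i j => ?_, fun t => ?_⟩
  · exact differentiable_const _
  · refine ⟨fun _ => 1, fun _ => t / 2, continuous_const, fun x => ?_, fun x => ?_, by simp⟩
    · simp [FF]
    · simp [FF]

lemma differentiable_mul_entries (N M : ℂ → Matrix.SpecialLinearGroup (Fin 2) ℂ)
    (hN : ∀ i j, Differentiable ℂ fun x => (N x).1 i j)
    (hM : ∀ i j, Differentiable ℂ fun x => (M x).1 i j) :
    ∀ i j, Differentiable ℂ fun x => (N x * M x).1 i j := by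
  intro i j
  have : (fun x => (N x * M x).1 i j) = fun x =>
      (N x).1 i 0 * (M x).1 0 j + (N x).1 i 1 * (M x).1 1 j := by
    ext x
    have h : (N x * M x).1 = (N x).1 * (M x).1 := rfl
    rw [h, Matrix.mul_apply, Fin.sum_univ_two]
  rw [this]
  exact ((hN i 0).mul (hM 0 j)).add ((hN i 1).mul (hM 1 j))

lemma rotM_entries (f : ℂ → ℂ) (hf : Differentiable ℂ f) :
    ∀ i j, Differentiable ℂ fun x => (rotM (f x)).1 i j := by
  intro i j
  fin_cases i <;> fin_cases j
  · have : Differentiable ℂ fun x => Complex.cos (f x) := hf.ccos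
    simpa [rotM] using this
  · have : Differentiable ℂ fun x => -Complex.sin (f x) := hf.csin.neg
    simpa [rotM] using this
  · have : Differentiable ℂ fun x => Complex.sin (f x) := hf.csin
    simpa [rotM] using this
  · have : Differentiable ℂ fun x => Complex.cos (f x) := hf.ccos
    simpa [rotM] using this

/-- left multiplication by a rotation of angle `m x + β` -/
lemma Good.rot_mul {g : ℂ → PSL2C} {k : ℤ} (h : Good g k) (m : ℤ) (β : ℝ) :
    Good (fun x => cls (rotM (m * x + β)) * g x) (m + k) := by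
  obtain ⟨M, hM1, hM2, hM3⟩ := h
  refine ⟨fun x => rotM (m * x + β) * M x, fun x => ?_, ?_, fun t => ?_⟩
  · simp only
    rw [hM1 x, cls_mul]
  · apply differentiable_mul_entries _ _ _ hM2
    apply rotM_entries
    fun_prop
  · obtain ⟨R, θ, hθ, h0, h1, hk⟩ := hM3 t
    refine ⟨R, fun x => θ x + (m * x + β), by fun_prop, fun x => ?_, fun x => ?_, ?_⟩
    · have e : (rotM (m * x + β) * M x).1 = (rotM (m * x + β)).1 * (M x).1 := rfl
      rw [e, FF_mul, h0, h1, Real.cos_add]
      have e2 : ((m : ℂ) * (x : ℂ) + (β : ℂ)) = ((m * x + β : ℝ) : ℂ) := by push_cast; ring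
      simp only [rotM, Matrix.of_apply, Matrix.cons_val', Matrix.cons_val_zero,
        Matrix.cons_val_one, Matrix.cons_val_fin_one, e2]
      rw [← Complex.ofReal_cos, ← Complex.ofReal_sin]
      push_cast
      ring
    · have e : (rotM (m * x + β) * M x).1 = (rotM (m * x + β)).1 * (M x).1 := rfl
      rw [e, FF_mul, h0, h1, Real.sin_add]
      have e2 : ((m : ℂ) * (x : ℂ) + (β : ℂ)) = ((m * x + β : ℝ) : ℂ) := by push_cast; ring
      simp only [rotM, Matrix.of_apply, Matrix.cons_val', Matrix.cons_val_zero,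
        Matrix.cons_val_one, Matrix.cons_val_fin_one, e2]
      rw [← Complex.ofReal_cos, ← Complex.ofReal_sin]
      push_cast
      ring
    · simp only
      rw [hk]
      push_cast
      ring

/-- left multiplication by a positive diagonal matrix -/
lemma Good.diag_mul {g : ℂ → PSL2C} {k : ℤ} (h : Good g k) (d : ℝ) (hd : 0 < d) :
    Good (fun x => cls (diagM d hd.ne') * g x) k := by
  obtain ⟨M, hM1, hM2, hM3⟩ := h
  refine ⟨fun x => diagM d hd.ne' * M x, fun x => ?_, ?_, fun t => ?_⟩
  · simp only
    rw [hM1 x, cls_mul]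
  · apply differentiable_mul_entries _ _ _ hM2
    intro i j
    exact differentiable_const _
  · obtain ⟨R, θ, hθ, h0, h1, hk⟩ := hM3 t
    set A : ℝ → ℝ := fun u => d * Real.cos u ^ 2 + d⁻¹ * Real.sin u ^ 2 with hA
    set B : ℝ → ℝ := fun u => (d⁻¹ - d) * (Real.cos u * Real.sin u) with hB
    have hApos : ∀ u, 0 < A u := by
      intro u
      have h3 := Real.cos_sq_add_sin_sq u
      have hd' : 0 < d⁻¹ := inv_pos.2 hd
      by_cases hc : Real.cos u = 0
      · have h4 : Real.sin u ^ 2 = 1 := by
          rw [hc] at h3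
          linarith
        have : A u = d⁻¹ := by
          rw [hA]
          simp only
          rw [hc, h4]
          ring
        rw [this]
        exact hd'
      · have h5 : 0 < Real.cos u ^ 2 := by positivity
        have h6 : 0 ≤ d⁻¹ * Real.sin u ^ 2 := by positivity
        have h7 : 0 < d * Real.cos u ^ 2 := by positivity
        simp only [hA]
        linarith
    set φ : ℝ → ℝ := fun u => Real.arctan (B u / A u) with hφ
    set r : ℝ → ℝ := fun u => Real.sqrt (A u ^ 2 + B u ^ 2) with hr
    have hcos : ∀ u, r u * Real.cos (φ u) = A u := by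
      intro u
      have hA' := hApos u
      simp only [hφ, hr]
      rw [Real.cos_arctan]
      have e1 : A u ^ 2 + B u ^ 2 = A u ^ 2 * (1 + (B u / A u) ^ 2) := by
        field_simp
      rw [e1, Real.sqrt_mul (by positivity), Real.sqrt_sq hA'.le]
      have : Real.sqrt (1 + (B u / A u) ^ 2) ≠ 0 := by positivity
      field_simp
    have hsin : ∀ u, r u * Real.sin (φ u) = B u := by
      intro u
      have hA' := hApos u
      simp only [hφ, hr]
      rw [Real.sin_arctan]
      have e1 : A u ^ 2 + B u ^ 2 = A u ^ 2 * (1 + (B u / A u) ^ 2) := by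
        field_simp
      rw [e1, Real.sqrt_mul (by positivity), Real.sqrt_sq hA'.le]
      have : Real.sqrt (1 + (B u / A u) ^ 2) ≠ 0 := by positivity
      field_simp
    have hφc : Continuous φ := by
      apply Real.continuous_arctan.comp
      apply Continuous.div
      · simp only [hB]; fun_prop
      · simp only [hA]; fun_prop
      · intro u
        exact (hApos u).ne'
    refine ⟨fun x => R x * r (θ x), fun x => θ x + φ (θ x), by fun_prop, fun x => ?_,
      fun x => ?_, ?_⟩
    · have e : (diagM d hd.ne' * M x).1 = (diagM d hd.ne').1 * (M x).1 := rfl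
      rw [e, FF_mul, h0, h1, Real.cos_add]
      simp only [diagM, Matrix.of_apply, Matrix.cons_val', Matrix.cons_val_zero,
        Matrix.cons_val_one, Matrix.cons_val_fin_one]
      have e3 : R x * r (θ x) * (Real.cos (θ x) * Real.cos (φ (θ x)) -
          Real.sin (θ x) * Real.sin (φ (θ x))) = d * (R x * Real.cos (θ x)) := by
        have e4 : R x * r (θ x) * (Real.cos (θ x) * Real.cos (φ (θ x)) -
          Real.sin (θ x) * Real.sin (φ (θ x))) = R x * (Real.cos (θ x) *
            (r (θ x) * Real.cos (φ (θ x))) - Real.sin (θ x) * (r (θ x) * Real.sin (φ (θ x)))) := by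
          ring
        rw [e4, hcos, hsin]
        simp only [hA, hB]
        have h3 := Real.cos_sq_add_sin_sq (θ x)
        linear_combination (d * R x * Real.cos (θ x)) * h3
      rw [e3]
      push_cast
      ring
    · have e : (diagM d hd.ne' * M x).1 = (diagM d hd.ne').1 * (M x).1 := rfl
      rw [e, FF_mul, h0, h1, Real.sin_add]
      simp only [diagM, Matrix.of_apply, Matrix.cons_val', Matrix.cons_val_zero,
        Matrix.cons_val_one, Matrix.cons_val_fin_one]
      have e3 : R x * r (θ x) * (Real.sin (θ x) * Real.cos (φ (θ x)) +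
          Real.cos (θ x) * Real.sin (φ (θ x))) = d⁻¹ * (R x * Real.sin (θ x)) := by
        have e4 : R x * r (θ x) * (Real.sin (θ x) * Real.cos (φ (θ x)) +
          Real.cos (θ x) * Real.sin (φ (θ x))) = R x * (Real.sin (θ x) *
            (r (θ x) * Real.cos (φ (θ x))) + Real.cos (θ x) * (r (θ x) * Real.sin (φ (θ x)))) := by
          ring
        rw [e4, hcos, hsin]
        simp only [hA, hB]
        have h3 := Real.cos_sq_add_sin_sq (θ x)
        linear_combination (d⁻¹ * R x * Real.sin (θ x)) * h3
      rw [e3]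
      push_cast
      ring
    · have hper : φ (θ 0 + k * π) = φ (θ 0) := by
        have hA2 : A (θ 0 + k * π) = A (θ 0) := by
          simp only [hA]
          rw [Real.cos_add_int_mul_pi, Real.sin_add_int_mul_pi, mul_pow, mul_pow]
          have : (((-1 : ℝ) ^ k) ^ 2) = 1 := by
            rw [← zpow_natCast, ← zpow_mul, mul_comm, zpow_mul]
            simp
          rw [this]
          ring
        have hB2 : B (θ 0 + k * π) = B (θ 0) := by
          simp only [hB]
          rw [Real.cos_add_int_mul_pi, Real.sin_add_int_mul_pi]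
          have : ((-1 : ℝ) ^ k) * ((-1 : ℝ) ^ k) = 1 := by
            rw [← pow_two, ← zpow_natCast, ← zpow_mul, mul_comm, zpow_mul]
            simp
          linear_combination ((d⁻¹ - d) * (Real.cos (θ 0) * Real.sin (θ 0))) * this
        simp only [hφ]
        rw [hA2, hB2]
      simp only
      rw [hk, hper]
      ring

end Pool.Agent.Work.MP_bed24d_an
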