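import Mathlib
import Pool.Agent.Work.MP_bed24d_an.A12

set_option autoImplicit false

open MeasureTheory Filter Topology Real Complex InnerProductSpace Laplacian
open scoped ContDiff ENNReal

namespace Pool.Agent.Work.MP_bed24d_an

/-- lower bound for the mass of a compact set, for every measure representing the Laplacian -/
theorem ddc_lower (χ : ℂ → ℝ) (T : Measure ℂ) (hT : IsDdc χ T) (K : Set ℂ) (c : ℝ)
    (hK : IsCompact K)
    (hKc : ∀ φ : ℂ → ℝ, ContDiff ℝ ∞ φ → HasCompactSupport φ → (∀ x, 0 ≤ φ x) →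
          (∀ x ∈ K, 1 ≤ φ x) → c ≤ ∫ x, χ x * (Δ φ) x) :
    ENNReal.ofReal ((2 * π)⁻¹ * c) ≤ T K := by
  obtain ⟨hχ, hfin, hT2⟩ := hT
  have hπ := Real.pi_pos
  rw [Set.measure_eq_iInf_isOpen K]
  refine le_iInf fun U => le_iInf fun hKU => le_iInf fun hU => ?_
  obtain ⟨φ, hφ1, hφ2, hφ3, hφ4, hφ5⟩ := exists_bump K U hK hU hKU
  have h1 : (2 * π)⁻¹ * c ≤ ∫ x, φ x ∂T := by
    rw [hT2 φ hφ1 hφ2]
    apply mul_le_mul_of_nonneg_left _ (by positivity)
    exact hKc φ hφ1 hφ2 (fun x => (hφ4 x).1) (fun x hx => (hφ5 x hx).ge)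
  calc ENNReal.ofReal ((2 * π)⁻¹ * c) ≤ ENNReal.ofReal (∫ x, φ x ∂T) :=
        ENNReal.ofReal_le_ofReal h1
    _ = ∫⁻ x, ENNReal.ofReal (φ x) ∂T := by
        apply ofReal_integral_eq_lintegral_ofReal
        · exact hφ1.continuous.integrable_of_hasCompactSupport hφ2
        · exact Eventually.of_forall fun x => (hφ4 x).1
    _ ≤ ∫⁻ x, U.indicator 1 x ∂T := by
        apply lintegral_mono
        intro x
        by_cases hx : x ∈ U
        · simp only [Set.indicator_of_mem hx, Pi.one_apply]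
          rw [ENNReal.ofReal_le_one]
          exact (hφ4 x).2
        · have : x ∉ tsupport φ := fun h => hx (hφ3 h)
          simp only [image_eq_zero_of_notMem_tsupport this, ENNReal.ofReal_zero]
          exact zero_le
    _ = T U := by
        rw [lintegral_indicator_one hU.measurableSet]

/-- the pairing of the potential of a family with the Laplacian of a test function -/
noncomputable def Qf (φ : ℂ → ℝ) (g : ℂ → PSL2C) : ℝ := ∫ x, VP (g x) * (Δ φ) x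

lemma Qf_nonneg (φ : ℂ → ℝ) (hφ : ContDiff ℝ 2 φ) (hc : HasCompactSupport φ)
    (hnn : ∀ x, 0 ≤ φ x) (g : ℂ → PSL2C) (M : ℂ → Matrix.SpecialLinearGroup (Fin 2) ℂ)
    (hM1 : ∀ x, g x = cls (M x)) (hM2 : ∀ i j, Differentiable ℂ fun x => (M x).1 i j) :
    0 ≤ Qf φ g := by
  have h := lap_VV_lower (fun x => (M x).1) (fun x => (M x).2) hM2 φ hφ hc hnn 0
    (fun t ψ => ⟨∅, by simp, by simp, by simp⟩)
  have e : Qf φ g = ∫ x, VV (M x).1 * (Δ φ) x := by
    unfold Qf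
    congr 1
    ext x
    rw [hM1 x, VP_cls]
  rw [e]
  simpa using h

lemma Good.Qf_lower {g : ℂ → PSL2C} {k : ℤ} (h : Good g k) (φ : ℂ → ℝ) (hφ : ContDiff ℝ 2 φ)
    (hc : HasCompactSupport φ) (hnn : ∀ x, 0 ≤ φ x)
    (hK : ∀ x : ℝ, x ∈ Set.Icc 0 π → 1 ≤ φ x) :
    π * Real.log 2 * (2 * π) * k ≤ Qf φ g := by
  obtain ⟨M, hM1, hM2, hM3⟩ := h
  have hπ := Real.pi_pos
  have hlog : 0 < Real.log 2 := Real.log_pos (by norm_num)
  rcases le_or_gt 0 k with hk | hk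
  · obtain ⟨m, rfl⟩ := Int.eq_ofNat_of_zero_le hk
    have h := lap_VV_lower (fun x => (M x).1) (fun x => (M x).2) hM2 φ hφ hc hnn m (by
      intro t ψ
      obtain ⟨R, θ, hθ, h0, h1, h2⟩ := hM3 t
      obtain ⟨S, hS1, hS2, hS3⟩ := real_zeros (fun x => (M x).1) t R θ hθ h0 h1 m
        (by simpa using h2) ψ
      refine ⟨S, hS1, ?_, hS3⟩
      intro z hz
      obtain ⟨x, hx, rfl⟩ := hS2 z hz
      exact hK x hx)
    have e : Qf φ g = ∫ x, VV (M x).1 * (Δ φ) x := by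
      unfold Qf
      congr 1
      ext x
      rw [hM1 x, VP_cls]
    rw [e]
    refine le_trans (le_of_eq ?_) h
    push_cast
    ring
  · have h1 := Qf_nonneg φ hφ hc hnn g M hM1 hM2
    have h2 : (k : ℝ) < 0 := by exact_mod_cast hk
    have h3 : 0 < π * Real.log 2 * (2 * π) := by positivity
    nlinarith

/-! ### the group -/

noncomputable def gA : ℂ → PSL2C := fun x => cls (rotM x)
noncomputable def gB : ℂ → PSL2C := fun _ => cls (diagM 2 two_ne_zero)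
noncomputable def gC : ℂ → PSL2C := fun _ => cls (rotM 1)

/-- The group generated by the three families. -/
noncomputable def GG : Subgroup (ℂ → PSL2C) := Subgroup.closure {gA, gB, gC}

noncomputable def eA : GG := ⟨gA, Subgroup.subset_closure (by simp)⟩
noncomputable def eB : GG := ⟨gB, Subgroup.subset_closure (by simp)⟩
noncomputable def eC : GG := ⟨gC, Subgroup.subset_closure (by simp)⟩

/-- the family of representations -/
noncomputable def rep (x : ℂ) : GG →* PSL2C :=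
  (Pi.evalMonoidHom (fun _ : ℂ => PSL2C) x).comp GG.subtype

lemma rep_apply (x : ℂ) (g : GG) : rep x g = (g : ℂ → PSL2C) x := rfl

/-- the measure -/
noncomputable def mu : MonoidAlgebra ℝ GG :=
  MonoidAlgebra.single eA (1/2) + MonoidAlgebra.single eA⁻¹ (1/10) +
  MonoidAlgebra.single eB (1/10) + MonoidAlgebra.single eB⁻¹ (1/10) +
  MonoidAlgebra.single eC (1/10) + MonoidAlgebra.single eC⁻¹ (1/10)

lemma EE_mu (f : GG → ℝ) : EE f mu = 1/2 * f eA + 1/10 * f eA⁻¹ + 1/10 * f eB + 1/10 * f eB⁻¹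
    + 1/10 * f eC + 1/10 * f eC⁻¹ := by
  unfold mu
  simp only [map_add, EE_single]

lemma mu_coeff (g : GG) : 0 ≤ mu.coeff g := by
  classical
  unfold mu
  simp only [MonoidAlgebra.coeff_add, MonoidAlgebra.coeff_single, Finsupp.add_apply]
  have h : ∀ (h : GG) (r : ℝ), 0 ≤ r → 0 ≤ (Finsupp.single h r) g := by
    intro h r hr
    rw [Finsupp.single_apply]
    split_ifs
    · exact hr
    · exact le_rfl
  have h1 := h eA (1/2) (by norm_num)
  have h2 := h eA⁻¹ (1/10) (by norm_num)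
  have h3 := h eB (1/10) (by norm_num)
  have h4 := h eB⁻¹ (1/10) (by norm_num)
  have h5 := h eC (1/10) (by norm_num)
  have h6 := h eC⁻¹ (1/10) (by norm_num)
  positivity

lemma mu_pos : Pos mu := Pos.of_coeff mu_coeff

lemma mu_mass : EE (fun _ : GG => (1:ℝ)) mu = 1 := by
  rw [EE_mu]
  norm_num

lemma gA_inv_apply (x : ℂ) : gA⁻¹ x = cls (rotM (-x)) := by
  rw [Pi.inv_apply]
  unfold gA
  rw [← cls_inv, rotM_inv]

lemma gB_inv_apply (x : ℂ) : gB⁻¹ x = cls (diagM 2⁻¹ (inv_ne_zero two_ne_zero)) := by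
  rw [Pi.inv_apply]
  unfold gB
  rw [← cls_inv, diagM_inv]

lemma gC_inv_apply (x : ℂ) : gC⁻¹ x = cls (rotM (-1)) := by
  rw [Pi.inv_apply]
  unfold gC
  rw [← cls_inv, rotM_inv]

lemma good_A {g : GG} {k : ℤ} (h : Good (g : ℂ → PSL2C) k) : Good ((eA * g : GG) : ℂ → PSL2C) (1 + k) := by
  have h1 := h.rot_mul 1 0
  have e : ((eA * g : GG) : ℂ → PSL2C) = fun x => cls (rotM ((1 : ℤ) * x + (0 : ℝ))) * (g : ℂ → PSL2C) x := by
    ext1 x
    have : ((eA * g : GG) : ℂ → PSL2C) x = gA x * (g : ℂ → PSL2C) x := rfl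
    rw [this]
    unfold gA
    congr 3
    simp
  rw [e]
  exact h1

lemma good_Ai {g : GG} {k : ℤ} (h : Good (g : ℂ → PSL2C) k) :
    Good ((eA⁻¹ * g : GG) : ℂ → PSL2C) (-1 + k) := by
  have h1 := h.rot_mul (-1) 0
  have e : ((eA⁻¹ * g : GG) : ℂ → PSL2C) = fun x => cls (rotM ((-1 : ℤ) * x + (0 : ℝ))) * (g : ℂ → PSL2C) x := by
    ext1 x
    have : ((eA⁻¹ * g : GG) : ℂ → PSL2C) x = gA⁻¹ x * (g : ℂ → PSL2C) x := rfl
    rw [this, gA_inv_apply]
    congr 3
    simp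
  rw [e]
  exact h1

lemma good_C {g : GG} {k : ℤ} (h : Good (g : ℂ → PSL2C) k) :
    Good ((eC * g : GG) : ℂ → PSL2C) k := by
  have h1 := h.rot_mul 0 1
  have e : ((eC * g : GG) : ℂ → PSL2C) = fun x => cls (rotM ((0 : ℤ) * x + (1 : ℝ))) * (g : ℂ → PSL2C) x := by
    ext1 x
    have : ((eC * g : GG) : ℂ → PSL2C) x = gC x * (g : ℂ → PSL2C) x := rfl
    rw [this]
    unfold gC
    congr 3
    simp
  rw [e]
  simpa using h1

lemma good_Ci {g : GG} {k : ℤ} (h : Good (g : ℂ → PSL2C) k) :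
    Good ((eC⁻¹ * g : GG) : ℂ → PSL2C) k := by
  have h1 := h.rot_mul 0 (-1)
  have e : ((eC⁻¹ * g : GG) : ℂ → PSL2C) = fun x => cls (rotM ((0 : ℤ) * x + ((-1 : ℝ) : ℂ))) * (g : ℂ → PSL2C) x := by
    ext1 x
    have : ((eC⁻¹ * g : GG) : ℂ → PSL2C) x = gC⁻¹ x * (g : ℂ → PSL2C) x := rfl
    rw [this, gC_inv_apply]
    congr 3
    simp
  rw [e]
  simpa using h1

lemma good_B {g : GG} {k : ℤ} (h : Good (g : ℂ → PSL2C) k) :
    Good ((eB * g : GG) : ℂ → PSL2C) k := h.diag_mul 2 two_pos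

lemma good_Bi {g : GG} {k : ℤ} (h : Good (g : ℂ → PSL2C) k) :
    Good ((eB⁻¹ * g : GG) : ℂ → PSL2C) k := by
  have h1 := h.diag_mul 2⁻¹ (by norm_num)
  have e : ((eB⁻¹ * g : GG) : ℂ → PSL2C) =
      fun x => cls (diagM 2⁻¹ (inv_ne_zero two_ne_zero)) * (g : ℂ → PSL2C) x := by
    ext1 x
    have : ((eB⁻¹ * g : GG) : ℂ → PSL2C) x = gB⁻¹ x * (g : ℂ → PSL2C) x := rfl
    rw [this, gB_inv_apply]
  rw [e]
  exact h1

/-- The main linear lower bound. -/
lemma expect_lower (φ : ℂ → ℝ) (hφ : ContDiff ℝ 2 φ)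
    (hc : HasCompactSupport φ) (hnn : ∀ x, 0 ≤ φ x)
    (hK : ∀ x : ℝ, x ∈ Set.Icc 0 π → 1 ≤ φ x) (n : ℕ) :
    ∀ (g0 : GG) (k0 : ℤ), Good (g0 : ℂ → PSL2C) k0 →
      π * Real.log 2 * (2 * π) * (k0 + 2 / 5 * n) ≤
        EE (fun g : GG => Qf φ ((g * g0 : GG) : ℂ → PSL2C)) (mu ^ n) := by
  induction n with
  | zero =>
    intro g0 k0 h0
    have := h0.Qf_lower φ hφ hc hnn hK
    rw [pow_zero, MonoidAlgebra.one_def, EE_single, one_mul, one_mul]
    simpa using this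
  | succ n ih =>
    intro g0 k0 h0
    rw [pow_succ, EE_mul]
    simp only [EE_mu]
    simp only [EE_add_fun, EE_smul_fun]
    have h1 := ih (eA * g0) _ (good_A h0)
    have h2 := ih (eA⁻¹ * g0) _ (good_Ai h0)
    have h3 := ih (eB * g0) _ (good_B h0)
    have h4 := ih (eB⁻¹ * g0) _ (good_Bi h0)
    have h5 := ih (eC * g0) _ (good_C h0)
    have h6 := ih (eC⁻¹ * g0) _ (good_Ci h0)
    simp only [← mul_assoc] at h1 h2 h3 h4 h5 h6
    push_cast at h1 h2 h3 h4 h5 h6 ⊢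
    linarith

end Pool.Agent.Work.MP_bed24d_an
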