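import Mathlib
import Pool.Agent.Work.MP_bed24d_an.A13

set_option autoImplicit false

open MeasureTheory Filter Topology Real Complex InnerProductSpace Laplacian
open scoped ContDiff ENNReal MatrixGroups LinearAlgebra.Projectivization ComplexOrder

namespace Pool.Agent.Work.MP_bed24d_an

/-! ### facts about the group -/

instance GG_fg : Group.FG GG := by
  unfold GG
  infer_instance

instance GG_countable : Countable GG := by
  unfold GG
  rw [FreeGroup.closure_eq_range]
  exact (MonoidHom.rangeRestrict_surjective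
    (FreeGroup.lift (Subtype.val : ({gA, gB, gC} : Set (ℂ → PSL2C)) → (ℂ → PSL2C)))).countable

lemma holo_mem (g : ℂ → PSL2C) (hg : g ∈ GG) :
    ∃ M : ℂ → Matrix.SpecialLinearGroup (Fin 2) ℂ, (∀ x, g x = cls (M x)) ∧
    ∀ i j, Differentiable ℂ fun x => (M x).1 i j := by
  unfold GG at hg
  induction hg using Subgroup.closure_induction with
  | mem g hg =>
    rcases hg with rfl | rfl | rfl
    · exact ⟨fun x => rotM x, fun x => rfl, rotM_entries _ differentiable_id⟩
    · exact ⟨fun x => diagM 2 two_ne_zero, fun x => rfl, fun i j => differentiable_const _⟩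
    · exact ⟨fun x => rotM 1, fun x => rfl, fun i j => differentiable_const _⟩
  | one => exact ⟨fun x => 1, fun x => rfl, fun i j => differentiable_const _⟩
  | mul g h _ _ ihg ihh =>
    obtain ⟨M, hM1, hM2⟩ := ihg
    obtain ⟨N, hN1, hN2⟩ := ihh
    refine ⟨fun x => M x * N x, fun x => ?_, differentiable_mul_entries _ _ hM2 hN2⟩
    rw [Pi.mul_apply, hM1, hN1]
    rfl
  | inv g _ ih =>
    obtain ⟨M, hM1, hM2⟩ := ih
    refine ⟨fun x => (M x)⁻¹, fun x => ?_, ?_⟩
    · rw [Pi.inv_apply, hM1]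
      rfl
    · have e : ∀ x, ((M x)⁻¹).1 = !![(M x).1 1 1, -(M x).1 0 1; -(M x).1 1 0, (M x).1 0 0] := by
        intro x
        have h := Matrix.SpecialLinearGroup.coe_inv (M x)
        rw [Matrix.adjugate_fin_two] at h
        exact h
      intro i j
      simp only [e]
      fin_cases i <;> fin_cases j
      · simpa using hM2 1 1
      · simpa using (hM2 0 1).neg
      · simpa using (hM2 1 0).neg
      · simpa using hM2 0 0

lemma rep_holo : IsHolomorphicFamily rep := by
  intro g
  exact holo_mem g.1 g.2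

lemma map_entry (N : Matrix.SpecialLinearGroup (Fin 2) ℝ) (i j : Fin 2) :
    (Matrix.SpecialLinearGroup.map Complex.ofRealHom N).1 i j = ((N.1 i j : ℝ) : ℂ) := rfl

lemma cls_real (M : Matrix.SpecialLinearGroup (Fin 2) ℂ) (N : Matrix.SpecialLinearGroup (Fin 2) ℝ)
    (h : ∀ i j, M.1 i j = ((N.1 i j : ℝ) : ℂ)) :
    cls M = cls (Matrix.SpecialLinearGroup.map Complex.ofRealHom N) := by
  rw [cls_eq_iff]
  left
  ext i j
  rw [map_entry, h]

lemma real_mem (x : ℝ) (g : ℂ → PSL2C) (hg : g ∈ GG) :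
    ∃ N : Matrix.SpecialLinearGroup (Fin 2) ℝ,
      g x = cls (Matrix.SpecialLinearGroup.map Complex.ofRealHom N) := by
  unfold GG at hg
  induction hg using Subgroup.closure_induction with
  | mem g hg =>
    rcases hg with rfl | rfl | rfl
    · refine ⟨⟨!![Real.cos x, -Real.sin x; Real.sin x, Real.cos x], ?_⟩, ?_⟩
      · rw [Matrix.det_fin_two_of]
        have := Real.cos_sq_add_sin_sq x
        linear_combination this
      · unfold gA
        apply cls_real
        intro i j
        fin_cases i <;> fin_cases j <;> simp [rotM]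
    · refine ⟨⟨!![2, 0; 0, 2⁻¹], ?_⟩, ?_⟩
      · rw [Matrix.det_fin_two_of]
        norm_num
      · unfold gB
        apply cls_real
        intro i j
        fin_cases i <;> fin_cases j <;> simp [diagM]
    · refine ⟨⟨!![Real.cos 1, -Real.sin 1; Real.sin 1, Real.cos 1], ?_⟩, ?_⟩
      · rw [Matrix.det_fin_two_of]
        have := Real.cos_sq_add_sin_sq 1
        linear_combination this
      · unfold gC
        apply cls_real
        intro i j
        fin_cases i <;> fin_cases j <;> simp [rotM]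
  | one => exact ⟨1, by rw [map_one]; rfl⟩
  | mul g h _ _ ihg ihh =>
    obtain ⟨M, hM⟩ := ihg
    obtain ⟨N, hN⟩ := ihh
    refine ⟨M * N, ?_⟩
    rw [Pi.mul_apply, hM, hN, map_mul]
    rfl
  | inv g _ ih =>
    obtain ⟨M, hM⟩ := ih
    refine ⟨M⁻¹, ?_⟩
    rw [Pi.inv_apply, hM, map_inv]
    rfl

lemma real_locus_mem (x : ℝ) : (x : ℂ) ∈ realLocus rep := by
  refine ⟨1, fun g => ?_⟩
  obtain ⟨N, hN⟩ := real_mem x g.1 g.2
  refine ⟨N, ?_⟩
  rw [one_mul, inv_one, mul_one]
  exact hN

/-- Triviality of an element at a point, in terms of the matrix. -/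
lemma cls_eq_one_iff (M : Matrix.SpecialLinearGroup (Fin 2) ℂ) :
    cls M = 1 ↔ (M.1 0 1 = 0 ∧ M.1 1 0 = 0 ∧ M.1 0 0 = M.1 1 1) := by
  rw [← cls_one, cls_eq_iff]
  constructor
  · rintro (h | h)
    · have h' : M.1 = 1 := h.symm
      rw [h']
      simp
    · have h' : M.1 = -1 := by
        rw [← neg_neg M.1, ← h]
        rfl
      rw [h']
      simp
  · rintro ⟨h1, h2, h3⟩
    have hdet : M.1.det = 1 := M.2
    rw [Matrix.det_fin_two, h1, h2, h3] at hdet
    have h4 : M.1 1 1 = 1 ∨ M.1 1 1 = -1 := by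
      apply sq_eq_one_iff_of_ne_zero' _
      linear_combination hdet
    rcases h4 with h4 | h4
    · left
      ext i j
      fin_cases i <;> fin_cases j
      · simp [h3, h4]
      · simp [h1]
      · simp [h2]
      · simp [h4]
    · right
      ext i j
      fin_cases i <;> fin_cases j
      · simp [h3, h4]
      · simp [h1]
      · simp [h2]
      · simp [h4]
where
  sq_eq_one_iff_of_ne_zero' {z : ℂ} (h : z ^ 2 = 1) : z = 1 ∨ z = -1 := sq_eq_one_iff_of_side h
  sq_eq_one_iff_of_side {z : ℂ} (h : z ^ 2 = 1) : z = 1 ∨ z = -1 := by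
    have : (z - 1) * (z + 1) = 0 := by linear_combination h
    rcases mul_eq_zero.1 this with h | h
    · left
      linear_combination h
    · right
      linear_combination h

lemma countable_trivial (g : GG) (hg : g ≠ 1) : {x : ℂ | rep x g = 1}.Countable := by
  obtain ⟨M, hM1, hM2⟩ := rep_holo g
  have hset : {x : ℂ | rep x g = 1} = {x | (M x).1 0 1 = 0 ∧ (M x).1 1 0 = 0 ∧
      (M x).1 0 0 - (M x).1 1 1 = 0} := by
    ext x
    rw [Set.mem_ofPred_eq, Set.mem_ofPred_eq, hM1 x, cls_eq_one_iff, sub_eq_zero]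
  rw [hset]
  have hex : ∃ x, (M x).1 0 1 ≠ 0 ∨ (M x).1 1 0 ≠ 0 ∨ (M x).1 0 0 - (M x).1 1 1 ≠ 0 := by
    by_contra hcon
    push Not at hcon
    apply hg
    apply Subtype.ext
    ext1 x
    have h := hM1 x
    rw [rep_apply] at h
    rw [h]
    have h2 : ((1 : GG) : ℂ → PSL2C) x = 1 := rfl
    rw [h2, cls_eq_one_iff]
    obtain ⟨h3, h4, h5⟩ := hcon x
    exact ⟨h3, h4, sub_eq_zero.1 h5⟩
  obtain ⟨x, hx⟩ := hex
  rcases hx with hx | hx | hx
  · exact (zeros_countable _ (hM2 0 1) x hx).mono fun y hy => hy.1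
  · exact (zeros_countable _ (hM2 1 0) x hx).mono fun y hy => hy.2.1
  · exact (zeros_countable _ ((hM2 0 0).sub (hM2 1 1)) x hx).mono fun y hy => hy.2.2

lemma countable_not_faithful : {x : ℂ | ¬ Function.Injective (rep x)}.Countable := by
  have hsub : {x : ℂ | ¬ Function.Injective (rep x)} ⊆
      ⋃ g ∈ {g : GG | g ≠ 1}, {x : ℂ | rep x g = 1} := by
    intro x hx
    rw [Set.mem_ofPred_eq, injective_iff_map_eq_one] at hx
    push Not at hx
    obtain ⟨g, hg1, hg2⟩ := hx
    rw [Set.mem_iUnion₂]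
    exact ⟨g, hg2, hg1⟩
  refine Set.Countable.mono hsub ?_
  apply Set.Countable.biUnion
  · exact Set.to_countable _
  · intro g hg
    exact countable_trivial g hg

lemma not_all_conj : ¬ ∃ c : PSL2C, ∀ g : GG, rep 0 g = c * rep 1 g * c⁻¹ := by
  rintro ⟨c, hc⟩
  have h := hc eA
  have h0 : rep 0 eA = 1 := by
    have : rep 0 eA = cls (rotM 0) := rfl
    rw [this, rotM_zero]
    rfl
  have h1 : rep 1 eA = cls (rotM 1) := rfl
  rw [h0] at h
  have h2 : rep 1 eA = 1 := by
    have := congrArg (fun y => c⁻¹ * y * c) h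
    simp only [mul_one, inv_mul_cancel] at this
    rw [this]
    group
  rw [h1, cls_eq_one_iff] at h2
  have h3 := h2.2.1
  simp only [rotM, Matrix.of_apply, Matrix.cons_val', Matrix.cons_val_zero,
        Matrix.cons_val_one, Matrix.cons_val_fin_one] at h3
  have h4 : Real.sin 1 = 0 := by
    have : ((Real.sin 1 : ℝ) : ℂ) = 0 := by
      rw [Complex.ofReal_sin]
      simpa using h3
    exact_mod_cast this
  have h5 : 0 < Real.sin 1 := Real.sin_pos_of_pos_of_lt_pi one_pos (by linarith [Real.pi_gt_three])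
  exact h5.ne' h4

end Pool.Agent.Work.MP_bed24d_an
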