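import Mathlib
import Pool.Agent.Work.MP_bed24d_an.A14

set_option autoImplicit false

open MeasureTheory Filter Topology Real Complex InnerProductSpace Laplacian
open scoped ContDiff ENNReal MatrixGroups LinearAlgebra.Projectivization ComplexOrder

namespace Pool.Agent.Work.MP_bed24d_an

lemma diag_pow (n : ℕ) : (diagM 2 two_ne_zero) ^ n = diagM (2 ^ n) (pow_ne_zero n two_ne_zero) := by
  induction n with
  | zero =>
    rw [pow_zero]
    have : ∀ e : ℝ, ∀ he : e ≠ 0, e = 1 → 1 = diagM e he := by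
      rintro e he rfl
      exact diagM_one.symm
    exact this _ _ (pow_zero 2)
  | succ n ih =>
    rw [pow_succ, ih, diagM_mul]
    have : ∀ e f : ℝ, ∀ he : e ≠ 0, ∀ hf : f ≠ 0, e = f → diagM e he = diagM f hf := by
      rintro e f he hf rfl
      rfl
    exact this _ _ _ _ (pow_succ 2 n).symm

lemma rep_Bpow (x : ℂ) (n : ℕ) : rep x (eB ^ n) = cls (diagM (2 ^ n) (pow_ne_zero n two_ne_zero)) := by
  rw [map_pow]
  have : rep x eB = cls (diagM 2 two_ne_zero) := rfl
  rw [this, ← diag_pow]
  rfl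

lemma rep_C (x : ℂ) : rep x eC = cls (rotM 1) := rfl

lemma cls_smul_mk (M : Matrix.SpecialLinearGroup (Fin 2) ℂ) (v : Fin 2 → ℂ) (hv : v ≠ 0)
    (hw : M.1.mulVec v ≠ 0) :
    cls M • (Projectivization.mk ℂ v hv) = Projectivization.mk ℂ (M.1.mulVec v) hw := rfl

lemma mulVec_ne (M : Matrix.SpecialLinearGroup (Fin 2) ℂ) (v : Fin 2 → ℂ) (hv : v ≠ 0) :
    M.1.mulVec v ≠ 0 := by
  intro h
  apply hv
  have h2 : (M⁻¹ * M).1.mulVec v = 0 := by
    have : (M⁻¹ * M).1 = (M⁻¹).1 * M.1 := rfl
    rw [this, ← Matrix.mulVec_mulVec, h, Matrix.mulVec_zero]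
  rw [inv_mul_cancel] at h2
  have h3 : ((1 : Matrix.SpecialLinearGroup (Fin 2) ℂ).1).mulVec v = v := by
    have : (1 : Matrix.SpecialLinearGroup (Fin 2) ℂ).1 = 1 := rfl
    rw [this, Matrix.one_mulVec]
  rw [h3] at h2
  exact h2

lemma sin_one_ne : Complex.sin 1 ≠ 0 := by
  have h5 : 0 < Real.sin 1 := Real.sin_pos_of_pos_of_lt_pi one_pos (by linarith [Real.pi_gt_three])
  intro h
  have : ((Real.sin 1 : ℝ) : ℂ) = 0 := by
    rw [Complex.ofReal_sin]
    simpa using h
  have h6 : Real.sin 1 = 0 := by exact_mod_cast this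
  exact h5.ne' h6

lemma cos_one_ne : Complex.cos 1 ≠ 0 := by
  have h5 : 0 < Real.cos 1 := Real.cos_one_pos
  intro h
  have : ((Real.cos 1 : ℝ) : ℂ) = 0 := by
    rw [Complex.ofReal_cos]
    simpa using h
  have h6 : Real.cos 1 = 0 := by exact_mod_cast this
  exact h5.ne' h6

/-- distinct points of the projective line from powers of the diagonal element -/
lemma proj_injective (v : Fin 2 → ℂ) (hv : v ≠ 0) (h0 : v 0 ≠ 0) (h1 : v 1 ≠ 0) (x : ℂ) :
    Function.Injective (fun n : ℕ => rep x (eB ^ n) • Projectivization.mk ℂ v hv) := by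
  intro m n hmn
  simp only at hmn
  rw [rep_Bpow, rep_Bpow, cls_smul_mk _ _ _ (mulVec_ne _ _ hv), cls_smul_mk _ _ _ (mulVec_ne _ _ hv),
    Projectivization.mk_eq_mk_iff'] at hmn
  obtain ⟨a, ha⟩ := hmn
  have e0 := congrFun ha 0
  have e1 := congrFun ha 1
  simp only [diagM, Pi.smul_apply, Matrix.mulVec, dotProduct, Fin.sum_univ_two, Matrix.of_apply,
    Matrix.cons_val', Matrix.cons_val_zero, Matrix.cons_val_one, Matrix.cons_val_fin_one,
    smul_eq_mul, zero_mul, add_zero, zero_add] at e0 e1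
  have p2 : ∀ k : ℕ, (2:ℂ) ^ k ≠ 0 := fun k => pow_ne_zero k two_ne_zero
  have h2 : a * 2 ^ n = 2 ^ m := by
    apply mul_right_cancel₀ h0
    push_cast at e0
    linear_combination e0
  have h3 : a * 2 ^ m = 2 ^ n := by
    push_cast at e1
    have : a * ((2:ℂ) ^ n)⁻¹ = (2 ^ m)⁻¹ := by
      apply mul_right_cancel₀ h1
      linear_combination e1
    have hn := p2 n
    have hm := p2 m
    field_simp at this
    linear_combination this
  have h4 : ((2:ℂ) ^ n) ^ 2 = (2 ^ m) ^ 2 := by
    linear_combination (-(2:ℂ) ^ n) * h3 + (2:ℂ) ^ m * h2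
  have h5 : (2:ℕ) ^ (n * 2) = 2 ^ (m * 2) := by
    rw [← pow_mul, ← pow_mul] at h4
    exact_mod_cast h4
  have := Nat.pow_right_injective (le_refl 2) h5
  omega

lemma rep_nonelementary (x : ℂ) : NonElementary (rep x) := by
  constructor
  · intro p
    induction p using Projectivization.ind with | _ v hv =>
    by_cases h0 : v 0 ≠ 0 ∧ v 1 ≠ 0
    · exact Set.infinite_of_injective_forall_mem (proj_injective v hv h0.1 h0.2 x)
        (fun n => ⟨eB ^ n, rfl⟩)
    · -- move the point with the rotation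
      have hv' : v 0 ≠ 0 ∨ v 1 ≠ 0 := by
        by_contra hcon
        push Not at hcon
        apply hv
        ext i
        fin_cases i
        · exact hcon.1
        · exact hcon.2
      set w : Fin 2 → ℂ := (rotM 1).1.mulVec v with hw
      have hw0 : w ≠ 0 := mulVec_ne _ _ hv
      have ew0 : w 0 = Complex.cos 1 * v 0 - Complex.sin 1 * v 1 := by
        rw [hw]
        simp only [rotM, Matrix.mulVec, dotProduct, Fin.sum_univ_two, Matrix.of_apply,
          Matrix.cons_val', Matrix.cons_val_zero, Matrix.cons_val_one, Matrix.cons_val_fin_one]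
        ring
      have ew1 : w 1 = Complex.sin 1 * v 0 + Complex.cos 1 * v 1 := by
        rw [hw]
        simp only [rotM, Matrix.mulVec, dotProduct, Fin.sum_univ_two, Matrix.of_apply,
          Matrix.cons_val', Matrix.cons_val_zero, Matrix.cons_val_one, Matrix.cons_val_fin_one]
      have hh : w 0 ≠ 0 ∧ w 1 ≠ 0 := by
        rw [ew0, ew1]
        rcases not_and_or.1 h0 with h | h
        · have h' : v 0 = 0 := not_not.1 h
          have h1 : v 1 ≠ 0 := by
            rcases hv' with h2 | h2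
            · exact absurd h' h2
            · exact h2
          rw [h']
          constructor
          · rw [mul_zero, zero_sub]
            exact neg_ne_zero.2 (mul_ne_zero sin_one_ne h1)
          · rw [mul_zero, zero_add]
            exact mul_ne_zero cos_one_ne h1
        · have h' : v 1 = 0 := not_not.1 h
          have h1 : v 0 ≠ 0 := by
            rcases hv' with h2 | h2
            · exact h2
            · exact absurd h' h2
          rw [h']
          constructor
          · rw [mul_zero, sub_zero]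
            exact mul_ne_zero cos_one_ne h1
          · rw [mul_zero, add_zero]
            exact mul_ne_zero sin_one_ne h1
      refine Set.infinite_of_injective_forall_mem (proj_injective w hw0 hh.1 hh.2 x)
        (fun n => ⟨eB ^ n * eC, ?_⟩)
      simp only
      rw [map_mul, mul_smul, rep_C, cls_smul_mk _ _ _ hw0]
  · intro h hh
    have hinj : Function.Injective (fun n : ℕ =>
        (diagM (2 ^ n) (pow_ne_zero n two_ne_zero)).1 * h *
          (diagM (2 ^ n) (pow_ne_zero n two_ne_zero)).1.conjTranspose) := by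
      intro m n hmn
      have e0 := congrFun (congrFun hmn 0) 0
      simp only [diagM, Matrix.mul_apply, Fin.sum_univ_two, Matrix.conjTranspose_apply,
        Matrix.of_apply, Matrix.cons_val', Matrix.cons_val_zero, Matrix.cons_val_one,
        Matrix.cons_val_fin_one, zero_mul, add_zero, star_zero, mul_zero] at e0
      have hpos : h 0 0 ≠ 0 := (hh.diag_pos (i := 0)).ne'
      have e1 : ((2:ℂ) ^ m) ^ 2 = (2 ^ n) ^ 2 := by
        apply mul_right_cancel₀ hpos
        push_cast at e0
        simp only [star_pow, RCLike.star_def, Complex.conj_ofNat] at e0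
        linear_combination e0
      have h5 : (2:ℕ) ^ (m * 2) = 2 ^ (n * 2) := by
        rw [← pow_mul, ← pow_mul] at e1
        exact_mod_cast e1
      have := Nat.pow_right_injective (le_refl 2) h5
      omega
    refine Set.infinite_of_injective_forall_mem hinj (fun n => ⟨eB ^ n, _, rep_Bpow x n, rfl⟩)

lemma mu_coeff_eq (g : GG) [DecidableEq GG] : mu.coeff g = (if eA = g then 1 / 2 else 0) +
    (if eA⁻¹ = g then 1 / 10 else 0) + (if eB = g then 1 / 10 else 0) +
    (if eB⁻¹ = g then 1 / 10 else 0) + (if eC = g then 1 / 10 else 0) +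
    (if eC⁻¹ = g then 1 / 10 else 0) := by
  unfold mu
  simp only [MonoidAlgebra.coeff_add, MonoidAlgebra.coeff_single, Finsupp.add_apply,
    Finsupp.single_apply]

lemma mu_support (g : GG) (h : g = eA ∨ g = eA⁻¹ ∨ g = eB ∨ g = eB⁻¹ ∨ g = eC ∨ g = eC⁻¹) :
    g ∈ mu.coeff.support := by
  classical
  rw [Finsupp.mem_support_iff]
  apply ne_of_gt
  rw [mu_coeff_eq]
  have hn : ∀ (p : Prop) [Decidable p] (r : ℝ), 0 ≤ r → 0 ≤ (if p then r else 0) := by
    intro p _ r hr
    split_ifs
    · exact hr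
    · exact le_rfl
  have h1 := hn (eA = g) (1/2) (by norm_num)
  have h2 := hn (eA⁻¹ = g) (1/10) (by norm_num)
  have h3 := hn (eB = g) (1/10) (by norm_num)
  have h4 := hn (eB⁻¹ = g) (1/10) (by norm_num)
  have h5 := hn (eC = g) (1/10) (by norm_num)
  have h6 := hn (eC⁻¹ = g) (1/10) (by norm_num)
  rcases h with h | h | h | h | h | h
  · rw [if_pos h.symm] at h1 ⊢
    linarith
  · rw [if_pos h.symm] at h2 ⊢
    linarith
  · rw [if_pos h.symm] at h3 ⊢
    linarith
  · rw [if_pos h.symm] at h4 ⊢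
    linarith
  · rw [if_pos h.symm] at h5 ⊢
    linarith
  · rw [if_pos h.symm] at h6 ⊢
    linarith

lemma mu_admissible : Admissible mu := by
  refine ⟨mu_coeff, ?_, ?_⟩
  · have h := mu_mass
    rw [EE_apply] at h
    simpa using h
  · rw [eq_top_iff]
    rintro g -
    set C := Subsemigroup.closure (mu.coeff.support : Set GG) with hC
    have hgen : ∀ g, (g = eA ∨ g = eA⁻¹ ∨ g = eB ∨ g = eB⁻¹ ∨ g = eC ∨ g = eC⁻¹) → g ∈ C :=
      fun g hg => Subsemigroup.subset_closure (mu_support g hg)
    have key : ∀ (y : ℂ → PSL2C) (hy : y ∈ Subgroup.closure {gA, gB, gC}),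
        (⟨y, hy⟩ : GG) ∈ C ∧ (⟨y, hy⟩ : GG)⁻¹ ∈ C := by
      intro y hy
      induction hy using Subgroup.closure_induction with
      | mem g hg =>
        rcases hg with rfl | rfl | rfl
        · exact ⟨hgen eA (by simp), hgen eA⁻¹ (by simp)⟩
        · exact ⟨hgen eB (by simp), hgen eB⁻¹ (by simp)⟩
        · exact ⟨hgen eC (by simp), hgen eC⁻¹ (by simp)⟩
      | one =>
        have h1 : (1 : GG) ∈ C := by
          have := C.mul_mem (hgen eA (by simp)) (hgen eA⁻¹ (by simp))
          rwa [mul_inv_cancel] at this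
        refine ⟨h1, ?_⟩
        have h2 : ((1 : GG))⁻¹ ∈ C := by rwa [inv_one]
        exact h2
      | mul g h hg hh ihg ihh =>
        constructor
        · exact C.mul_mem ihg.1 ihh.1
        · have h3 := C.mul_mem ihh.2 ihg.2
          rw [← mul_inv_rev] at h3
          exact h3
      | inv g hg ih =>
        constructor
        · exact ih.2
        · have h3 := ih.1
          have h4 : ((⟨g, hg⟩ : GG)⁻¹)⁻¹ ∈ C := by rwa [inv_inv]
          exact h4
    exact (key g.1 g.2).1

/-- The main result of the construction. -/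
theorem main : ∃ χ : ℂ → ℝ, IsLyapunov rep mu χ ∧ (∃ T : Measure ℂ, IsDdc χ T) ∧
    ∀ T : Measure ℂ, IsDdc χ T →
      ENNReal.ofReal (Real.log 2 / 5) ≤ T ((fun x : ℝ => (x : ℂ)) '' Set.Icc 0 π) := by
  have hπ := Real.pi_pos
  obtain ⟨χ, hχ1, hχ2, hχ3⟩ := lyapunov_exists rep rep_holo mu mu_pos mu_mass
  have hpos : ∀ φ : ℂ → ℝ, ContDiff ℝ ∞ φ → HasCompactSupport φ → (∀ x, 0 ≤ φ x) →
      0 ≤ ∫ x, χ x * (Δ φ) x := by
    intro φ hφ hc hnn
    have hφ2 : ContDiff ℝ 2 φ := hφ.of_le (by norm_cast)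
    have h := hχ3 φ 0 hφ2 hc (by
      intro n
      rw [zero_mul]
      apply mu_pos.pow n
      intro g
      obtain ⟨M, hM1, hM2⟩ := rep_holo g
      exact Qf_nonneg φ hφ2 hc hnn (fun x => rep x g) M hM1 hM2)
    by_contra hcon
    push Not at hcon
    nlinarith
  have hlow : ∀ φ : ℂ → ℝ, ContDiff ℝ ∞ φ → HasCompactSupport φ → (∀ x, 0 ≤ φ x) →
      (∀ x ∈ (fun x : ℝ => (x : ℂ)) '' Set.Icc 0 π, 1 ≤ φ x) →
      2 / 5 * (π * Real.log 2) ≤ ∫ x, χ x * (Δ φ) x := by
    intro φ hφ hc hnn hK
    have hφ2 : ContDiff ℝ 2 φ := hφ.of_le (by norm_cast)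
    have h := hχ3 φ (2 * π * (2 / 5 * (π * Real.log 2))) hφ2 hc (by
      intro n
      have h2 := expect_lower φ hφ2 hc hnn (fun x hx => hK _ ⟨x, hx, rfl⟩) n 1 0 Good.one
      simp only [mul_one] at h2
      refine le_trans (le_of_eq ?_) h2
      push_cast
      ring)
    have h3 : 0 < 2 * π := by positivity
    exact le_of_mul_le_mul_left h h3
  refine ⟨χ, hχ1, ?_, ?_⟩
  · obtain ⟨T, hT1, hT2, -⟩ := exists_measure χ hχ2 hpos
    exact ⟨T, hχ2, hT1, hT2⟩
  · intro T hT
    have hKc : IsCompact ((fun x : ℝ => (x : ℂ)) '' Set.Icc 0 π) :=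
      isCompact_Icc.image Complex.continuous_ofReal
    have h := ddc_lower χ T hT _ _ hKc hlow
    have e : (2 * π)⁻¹ * (2 / 5 * (π * Real.log 2)) = Real.log 2 / 5 := by
      field_simp
    rw [e] at h
    exact h

end Pool.Agent.Work.MP_bed24d_an
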